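import Mathlib
import Pool.Agent.H36.BF.Sieve

/-!
Means of the sieve functions for general densities.
-/

set_option autoImplicit false

open Finset

namespace Pool.Agent.H36.LH

open Pool.Agent.Helper112.LP Pool.Agent.Helper112.LP.Kba Pool.Agent.Helper112.LP.Kbh
open Pool.Agent.H483R2.BHKD Pool.Agent.H20R2.FL Pool.Agent.H36.RW Pool.Agent.H36.BF

/-- mean of the product weight -/
noncomputable def wg (g : ℕ → ℝ) {J : ℕ} (F : Fin J → Finset (Finset ℕ)) (C : Fin J → Finset ℕ → ℝ) : ℝ :=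
  ∏ i, ∑ V ∈ F i, C i V * ∏ l ∈ V, g l

/-- the product `∏ (1 - g p)` -/
noncomputable def Wg (g : ℕ → ℝ) (P : Finset ℕ) : ℝ := ∏ p ∈ P, (1 - g p)

set_option maxHeartbeats 2000000 in
/-- the means -/
theorem mean_G (κ : ℕ) (hκ : 1 ≤ κ) : ∃ C0 : ℕ, 1 ≤ C0 ∧ ∀ (b J : ℕ) (P : Finset ℕ) (g : ℕ → ℝ), C0 ≤ b → 2 ≤ b →
    (∀ p ∈ P, p.Prime ∧ 12 < p ∧ p ≤ 2 ^ 2 ^ J ∧ 2 * κ ≤ p ∧ 0 ≤ g p ∧ g p ≤ (κ : ℝ) / p) →
    0 < Wg g P ∧ Wg g P ≤ wg g (FF b J P) (cU b J) ∧ wg g (FF b J P) (cU b J) ≤ (1 + 3 * (1 / 4) ^ b) * Wg g P ∧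
    (∀ k, 0 ≤ wg g (FF b J P) (cK b J k)) ∧
    ∑ k, wg g (FF b J P) (cK b J k) ≤ 3 * (1 / 4) ^ b * Wg g P := by
  classical
  obtain ⟨CM, hCM, hM⟩ := mertens_group
  have hκr : (1 : ℝ) ≤ κ := by exact_mod_cast hκ
  have hκ0 : (0 : ℝ) < κ := by linarith
  set L : ℝ := κ * (Real.log 2 + CM) with hLdef
  have hlog2 : 0 < Real.log 2 := Real.log_pos (by norm_num)
  have hL0 : 0 < L := by rw [hLdef]; positivity
  have hLs : ∀ i : ℕ, ∑ l ∈ Gj (i + 1), (κ : ℝ) / l ≤ L := by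
    intro i
    have h1 := (abs_le.1 (hM (i + 1) (by omega))).2
    have h2 : CM / 2 ^ (i + 1) ≤ CM := div_le_self hCM.le (one_le_pow₀ (by norm_num))
    have h3 : ∑ l ∈ Gj (i + 1), (κ : ℝ) / l = κ * ∑ l ∈ Gj (i + 1), (1 : ℝ) / l := by
      rw [mul_sum]
      apply sum_congr rfl
      intro l _
      ring
    rw [hLdef, h3]
    apply mul_le_mul_of_nonneg_left _ hκ0.le
    linarith
  obtain ⟨N0, hN0⟩ := exists_nat_ge (21 * L)
  refine ⟨N0 + 1, by omega, ?_⟩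
  intro b J P g hb hb2 hP'
  have hP : ∀ p ∈ P, p.Prime ∧ 12 < p ∧ p ≤ 2 ^ 2 ^ J := fun p hp => ⟨(hP' p hp).1, (hP' p hp).2.1, (hP' p hp).2.2.1⟩
  have hb1 : 1 ≤ b := by omega
  set x0 : ℝ := L with hx0
  set v : ℝ := Real.exp (-(2 * x0)) with hv
  have hv0 : 0 < v := Real.exp_pos _
  have hbonfP : ∀ i : Fin J, ∀ l ∈ grp J P i, l.Prime ∧ 12 < l := fun i l hl =>
    ⟨(hP l (grp_sub J P i hl)).1, (hP l (grp_sub J P i hl)).2.1⟩
  have hgk : ∀ i : Fin J, ∀ l ∈ grp J P i, g l ≤ 1 / 2 := fun i l hl => by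
    have h1 : (12 : ℝ) < l := by exact_mod_cast (hbonfP i l hl).2
    have h2 : 2 * (κ : ℝ) ≤ l := by exact_mod_cast (hP' l (grp_sub J P i hl)).2.2.2.1
    refine (hP' l (grp_sub J P i hl)).2.2.2.2.2.trans ?_
    rw [div_le_iff₀ (by linarith)]
    linarith
  have hgb : ∀ i : Fin J, ∀ l ∈ grp J P i, 0 ≤ g l ∧ g l ≤ 1 := fun i l hl => by
    have h1 := hgk i l hl
    exact ⟨(hP' l (grp_sub J P i hl)).2.2.2.2.1, by linarith⟩
  set V : Fin J → ℝ := fun i => ∏ l ∈ grp J P i, (1 - g l) with hVdef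
  set Tr : Fin J → ℝ := fun i => bhA g (bb b J i) (grp J P i) with hTr
  set Er : Fin J → ℝ := fun i => bhE g (bb b J i + 1) (grp J P i) with hEr
  have hVeq : Wg g P = ∏ i, V i := by
    unfold Wg
    have h1 := bh_pT_eq (grp J P) (grp_G J P) (fun l => 1 - g l)
    rw [bhU_grp J P hP] at h1
    rw [hVdef]
    exact h1.symm
  have hwU : wg g (FF b J P) (cU b J) = ∏ i, Tr i := by
    unfold wg
    apply prod_congr rfl
    intro i _
    rw [sum_cU]
    rfl
  have hwK : ∀ k, wg g (FF b J P) (cK b J k) = Er k * ∏ i ∈ univ.erase k, Tr i := by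
    intro k
    unfold wg
    rw [← mul_prod_erase univ _ (mem_univ k)]
    congr 1
    · have h1 := sum_cE b J P k (fun V => ∏ l ∈ V, g l)
      have h2 : ∀ V, cK b J k k V = cE b J k V := fun V => by unfold cK; rw [if_pos rfl]
      simp only [h2]
      rw [h1]
      rfl
    · apply prod_congr rfl
      intro i hi
      have hik : i ≠ k := (mem_erase.1 hi).1
      have h2 : ∀ V, cK b J k i V = cU b J i V := fun V => by unfold cK; rw [if_neg hik]
      simp only [h2]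
      rw [sum_cU]
      rfl
  have hbonf : ∀ i, V i ≤ Tr i ∧ Tr i ≤ V i + Er i := by
    intro i
    have h := bh_bonf g (grp J P i) (hgb i) (bb b J i)
    rw [(bb_even b J i).neg_one_pow, one_mul] at h
    constructor
    · have := h.1; simp only [hVdef, hTr]; linarith
    · have := h.2; simp only [hVdef, hTr, hEr]; linarith
  have hgsum : ∀ i, ∑ l ∈ grp J P i, g l ≤ x0 := by
    intro i
    calc ∑ l ∈ grp J P i, g l ≤ ∑ l ∈ grp J P i, (κ : ℝ) / l :=
          sum_le_sum fun l hl => (hP' l (grp_sub J P i hl)).2.2.2.2.2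
      _ ≤ ∑ l ∈ Gj ((i : ℕ) + 1), (κ : ℝ) / l := by
          apply sum_le_sum_of_subset_of_nonneg (grp_G J P i)
          intro l _ _
          positivity
      _ ≤ L := hLs i
  have hVv : ∀ i, v ≤ V i := by
    intro i
    have h1 : Real.exp (-(2 * ∑ l ∈ grp J P i, g l)) ≤ V i := by
      have h2 : -(2 * ∑ l ∈ grp J P i, g l) = ∑ l ∈ grp J P i, -(2 * g l) := by
        rw [mul_sum, ← sum_neg_distrib]
      rw [h2, Real.exp_sum]
      refine prod_le_prod (fun l _ => (Real.exp_pos _).le) fun l hl => ?_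
      exact bh_inv_ge (hgb i l hl).1 (hgk i l hl)
    refine le_trans ?_ h1
    rw [hv]
    exact Real.exp_le_exp.2 (by linarith [hgsum i])
  have hEr0 : ∀ i, 0 ≤ Er i := fun i => bhE_nonneg _ _ _ fun l hl => (hgb i l hl).1
  have hErle : ∀ i, Er i ≤ x0 ^ (bb b J i + 1) / (bb b J i + 1).factorial := by
    intro i
    refine (bhE_le g (grp J P i) (fun l hl => (hgb i l hl).1) (bb b J i + 1)).trans ?_
    have h0 : 0 ≤ ∑ l ∈ grp J P i, g l := sum_nonneg fun l hl => (hgb i l hl).1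
    have h1 := hgsum i
    gcongr
  have hErv : ∀ i, Er i / v ≤ (1 / 2) ^ (bb b J i + 1) := by
    intro i
    have h1 : Er i / v = Er i * Real.exp (2 * x0) := by
      rw [hv, Real.exp_neg, div_inv_eq_mul]
    rw [h1]
    refine le_trans (mul_le_mul_of_nonneg_right (hErle i) (Real.exp_pos _).le) ?_
    apply tail_one x0 hL0.le (bb b J i + 1) (by omega)
    have h2 : ((N0 : ℕ) : ℝ) ≤ ((bb b J i + 1 : ℕ) : ℝ) := by
      have : N0 ≤ bb b J i + 1 := by unfold bb; omega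
      exact_mod_cast this
    linarith
  set s : ℝ := ∑ i, Er i / v with hs
  have hs0 : 0 ≤ s := sum_nonneg fun i _ => div_nonneg (hEr0 i) hv0.le
  have hErsum : s ≤ 2 / 3 * (1 / 4) ^ b :=
    le_trans (sum_le_sum fun i _ => hErv i) (tail_b b J)
  have h4b : (1 / 4 : ℝ) ^ b ≤ (1 / 4) ^ 1 := pow_le_pow_of_le_one (by norm_num) (by norm_num) hb1
  have h4b0 : (0 : ℝ) < (1 / 4) ^ b := by positivity
  have hs2 : s ≤ 1 / 4 := by linarith
  have hV0 : ∀ i, 0 < V i := fun i => lt_of_lt_of_le hv0 (hVv i)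
  have hTr0 : ∀ i, 0 < Tr i := fun i => lt_of_lt_of_le (hV0 i) (hbonf i).1
  have hV00 : 0 ≤ ∏ i, V i := prod_nonneg fun i _ => (hV0 i).le
  have hTr00 : 0 ≤ ∏ i, Tr i := prod_nonneg fun i _ => (hTr0 i).le
  have hVpos : 0 < ∏ i, V i := prod_pos fun i _ => hV0 i
  have hTp : ∏ i, V i ≤ ∏ i, Tr i := prod_le_prod (fun i _ => (hV0 i).le) fun i _ => (hbonf i).1
  have hk : ∀ k, Er k * ∏ i ∈ univ.erase k, Tr i ≤ Er k / v * ∏ i, Tr i := by
    intro k
    have h1 : ∏ i, Tr i = Tr k * ∏ i ∈ univ.erase k, Tr i :=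
      (mul_prod_erase univ Tr (mem_univ k)).symm
    have h2 : 0 ≤ ∏ i ∈ univ.erase k, Tr i := prod_nonneg fun i _ => (hTr0 i).le
    rw [h1, div_mul_eq_mul_div, le_div_iff₀ hv0]
    have h3 : v ≤ Tr k := (hVv k).trans (hbonf k).1
    have h4 : Er k * (∏ i ∈ univ.erase k, Tr i) * v ≤
        Er k * (∏ i ∈ univ.erase k, Tr i) * Tr k :=
      mul_le_mul_of_nonneg_left h3 (mul_nonneg (hEr0 k) h2)
    linarith
  have hup : ∏ i, Tr i ≤ (1 + 2 * s) * ∏ i, V i := by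
    have h1 : ∏ i, Tr i ≤ ∏ i, V i * Real.exp (Er i / v) := by
      refine prod_le_prod (fun i _ => (hTr0 i).le) fun i _ => ?_
      refine (hbonf i).2.trans ?_
      have h2 := Real.add_one_le_exp (Er i / v)
      have h3 : V i * (Er i / v + 1) ≤ V i * Real.exp (Er i / v) :=
        mul_le_mul_of_nonneg_left h2 (hV0 i).le
      refine le_trans ?_ h3
      have h4 : Er i ≤ V i * (Er i / v) := by
        rw [← mul_div_assoc, le_div_iff₀ hv0, mul_comm (V i)]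
        exact mul_le_mul_of_nonneg_left (hVv i) (hEr0 i)
      linarith
    rw [prod_mul_distrib, ← Real.exp_sum] at h1
    have hexp : Real.exp s ≤ 1 + 2 * s := by
      have h1 := Real.abs_exp_sub_one_sub_id_le (x := s) (by rw [abs_of_nonneg hs0]; linarith)
      have h2 := (abs_le.1 h1).2
      nlinarith
    calc ∏ i, Tr i ≤ (∏ i, V i) * Real.exp s := h1
      _ ≤ (∏ i, V i) * (1 + 2 * s) := mul_le_mul_of_nonneg_left hexp hV00
      _ = _ := by ring
  rw [hwU, hVeq]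
  refine ⟨hVpos, hTp, ?_, fun k => ?_, ?_⟩
  · refine hup.trans (mul_le_mul_of_nonneg_right ?_ hV00)
    linarith
  · rw [hwK]
    exact mul_nonneg (hEr0 k) (prod_nonneg fun i _ => (hTr0 i).le)
  · rw [sum_congr rfl fun k _ => hwK k]
    have hsum : ∑ k, Er k * ∏ i ∈ univ.erase k, Tr i ≤ s * ∏ i, Tr i := by
      calc ∑ k, Er k * ∏ i ∈ univ.erase k, Tr i ≤ ∑ k, Er k / v * ∏ i, Tr i :=
            sum_le_sum fun k _ => hk k
        _ = s * ∏ i, Tr i := by rw [← sum_mul]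
    refine hsum.trans ?_
    calc s * ∏ i, Tr i ≤ s * ((1 + 2 * s) * ∏ i, V i) := mul_le_mul_of_nonneg_left hup hs0
      _ ≤ s * ((3 / 2) * ∏ i, V i) := by
          apply mul_le_mul_of_nonneg_left _ hs0
          apply mul_le_mul_of_nonneg_right _ hV00
          linarith
      _ ≤ (2 / 3 * (1 / 4) ^ b) * ((3 / 2) * ∏ i, V i) := by
          apply mul_le_mul_of_nonneg_right hErsum
          positivity
      _ = (1 / 4) ^ b * ∏ i, V i := by ring
      _ ≤ 3 * (1 / 4) ^ b * ∏ i, V i := by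
          apply mul_le_mul_of_nonneg_right _ hV00
          linarith

end Pool.Agent.H36.LH
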