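import Mathlib

/-!
Averages of periodic functions over a period and over intervals.
-/

set_option autoImplicit false

open Finset

namespace Pool.Agent.H36.LH

/-- mean value over `0 ≤ n < q` -/
noncomputable def avg (q : ℕ) (f : ℕ → ℝ) : ℝ := (∑ n ∈ range q, f n) / q

/-- functions of period `q` -/
def Per (q : ℕ) (f : ℕ → ℝ) : Prop := ∀ n, f (n % q) = f n

lemma Per.dvd {q Q : ℕ} {f : ℕ → ℝ} (h : Per q f) (hq : q ∣ Q) : Per Q f := by
  intro n
  rw [← h (n % Q), Nat.mod_mod_of_dvd n hq, h n]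

lemma Per.mul {q : ℕ} {f g : ℕ → ℝ} (hf : Per q f) (hg : Per q g) : Per q (fun n => f n * g n) := by
  intro n
  simp only [hf n, hg n]

lemma Per.shift {q : ℕ} {f : ℕ → ℝ} (h : Per q f) (a : ℕ) : Per q (fun n => f (n + a)) := by
  intro n
  simp only
  rw [← h (n % q + a), ← h (n + a)]
  congr 1
  exact Nat.ModEq.add_right a (Nat.mod_modEq n q)

lemma Per.prod {q : ℕ} {ι : Type*} (s : Finset ι) {f : ι → ℕ → ℝ} (h : ∀ i ∈ s, Per q (f i)) :
    Per q (fun n => ∏ i ∈ s, f i n) := by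
  intro n
  simp only
  exact prod_congr rfl fun i hi => h i hi n

lemma Per.sum {q : ℕ} {ι : Type*} (s : Finset ι) {f : ι → ℕ → ℝ} (h : ∀ i ∈ s, Per q (f i)) :
    Per q (fun n => ∑ i ∈ s, f i n) := by
  intro n
  simp only
  exact sum_congr rfl fun i hi => h i hi n

lemma Per.comp {q : ℕ} {f : ℕ → ℝ} (h : Per q f) (F : ℝ → ℝ) : Per q (fun n => F (f n)) := by
  intro n
  simp only [h n]

lemma per_const (q : ℕ) (c : ℝ) : Per q (fun _ => c) := fun _ => rfl

lemma sum_mul_per {q : ℕ} {f : ℕ → ℝ} (h : Per q f) : ∀ a : ℕ, ∑ n ∈ range (q * a), f n = a * ∑ n ∈ range q, f n := by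
  intro a
  induction a with
  | zero => simp
  | succ a ih =>
    rw [Nat.mul_succ, sum_range_add, ih]
    have : ∑ x ∈ range q, f (q * a + x) = ∑ x ∈ range q, f x := by
      apply sum_congr rfl
      intro x _
      rw [← h (q * a + x), ← h x, Nat.mul_add_mod]
    rw [this]
    push_cast
    ring

lemma avg_dvd {q Q : ℕ} {f : ℕ → ℝ} (h : Per q f) (hq : q ∣ Q) (hQ : 0 < Q) : avg Q f = avg q f := by
  obtain ⟨a, rfl⟩ := hq
  unfold avg
  rw [sum_mul_per h a]
  have h1 : (0 : ℝ) < q := by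
    have : q ≠ 0 := by rintro rfl; simp at hQ
    exact_mod_cast Nat.pos_of_ne_zero this
  have h2 : (0 : ℝ) < a := by
    have : a ≠ 0 := by rintro rfl; simp at hQ
    exact_mod_cast Nat.pos_of_ne_zero this
  push_cast
  field_simp

lemma avg_shift {q : ℕ} {f : ℕ → ℝ} (h : Per q f) : ∀ a : ℕ, avg q (fun n => f (n + a)) = avg q f := by
  intro a
  induction a with
  | zero => rfl
  | succ a ih =>
    rw [← ih]
    unfold avg
    congr 1
    have h1 := sum_range_succ (fun n => f (n + a)) q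
    have h2 := sum_range_succ' (fun n => f (n + a)) q
    have h3 : f (q + a) = f (0 + a) := by
      rw [← h (q + a), ← h (0 + a)]
      simp
    have h4 : ∑ k ∈ range q, f (k + (a + 1)) = ∑ k ∈ range q, f (k + 1 + a) := by
      apply sum_congr rfl
      intro k _
      congr 1
      ring
    rw [h4]
    linarith

lemma avg_sum {ι : Type*} (q : ℕ) (s : Finset ι) (f : ι → ℕ → ℝ) :
    avg q (fun n => ∑ i ∈ s, f i n) = ∑ i ∈ s, avg q (f i) := by
  unfold avg
  rw [sum_comm, sum_div]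

lemma avg_const_mul (q : ℕ) (c : ℝ) (f : ℕ → ℝ) : avg q (fun n => c * f n) = c * avg q f := by
  unfold avg
  rw [← mul_sum, mul_div_assoc]

lemma avg_mono {q : ℕ} {f g : ℕ → ℝ} (h : ∀ n, f n ≤ g n) : avg q f ≤ avg q g := by
  unfold avg
  apply div_le_div_of_nonneg_right _ (Nat.cast_nonneg q)
  exact sum_le_sum fun n _ => h n

lemma avg_nonneg {q : ℕ} {f : ℕ → ℝ} (h : ∀ n, 0 ≤ f n) : 0 ≤ avg q f :=
  div_nonneg (sum_nonneg fun n _ => h n) (Nat.cast_nonneg q)

lemma avg_abs {q : ℕ} (f : ℕ → ℝ) : |avg q f| ≤ avg q (fun n => |f n|) := by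
  unfold avg
  rw [abs_div, abs_of_nonneg (Nat.cast_nonneg (α := ℝ) q)]
  exact div_le_div_of_nonneg_right (abs_sum_le_sum_abs _ _) (Nat.cast_nonneg q)

lemma avg_const {q : ℕ} (hq : 0 < q) (c : ℝ) : avg q (fun _ => c) = c := by
  unfold avg
  rw [sum_const, card_range, nsmul_eq_mul]
  have : (0 : ℝ) < q := by exact_mod_cast hq
  field_simp

lemma avg_le_const {q : ℕ} (hq : 0 < q) {f : ℕ → ℝ} {c : ℝ} (h : ∀ n, f n ≤ c) : avg q f ≤ c := by
  rw [← avg_const hq c]
  exact avg_mono h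

/-- two coprime periods -/
lemma avg_mul {q1 q2 : ℕ} (h1 : 0 < q1) (h2 : 0 < q2) (hc : Nat.Coprime q1 q2) {f g : ℕ → ℝ} (hf : Per q1 f) (hg : Per q2 g) :
    avg (q1 * q2) (fun n => f n * g n) = avg q1 f * avg q2 g := by
  have key : ∑ n ∈ range (q1 * q2), f n * g n = (∑ a ∈ range q1, f a) * ∑ b ∈ range q2, g b := by
    rw [sum_mul_sum, ← sum_product']
    have hinj : Set.InjOn (fun n : ℕ => (n % q1, n % q2)) (↑(range (q1 * q2)) : Set ℕ) := by
      intro a ha b hb hab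
      rw [mem_coe, mem_range] at ha hb
      simp only [Prod.mk.injEq] at hab
      have h3 : a ≡ b [MOD q1 * q2] := (Nat.modEq_and_modEq_iff_modEq_mul hc).1 ⟨hab.1, hab.2⟩
      exact Nat.ModEq.eq_of_lt_of_lt h3 ha hb
    have himg : (range (q1 * q2)).image (fun n : ℕ => (n % q1, n % q2)) = range q1 ×ˢ range q2 := by
      apply eq_of_subset_of_card_le
      · intro x hx
        obtain ⟨n, _, rfl⟩ := mem_image.1 hx
        rw [mem_product, mem_range, mem_range]
        exact ⟨Nat.mod_lt _ h1, Nat.mod_lt _ h2⟩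
      · rw [card_product, card_range, card_range, card_image_of_injOn hinj, card_range]
    rw [← himg, sum_image hinj]
    apply sum_congr rfl
    intro n _
    simp only
    rw [hf n, hg n]
  unfold avg
  rw [key]
  push_cast
  rw [div_mul_div_comm]

/-- many coprime periods -/
lemma avg_prod (Q0 : ℕ) (hQ0 : 0 < Q0) {F : ℕ → ℝ} (hF : Per Q0 F) (G : ℕ → ℕ → ℝ) (P : Finset ℕ)
    (hP : ∀ p ∈ P, p.Prime ∧ Nat.Coprime Q0 p) (hG : ∀ p ∈ P, Per p (G p)) :
    avg (Q0 * ∏ p ∈ P, p) (fun n => F n * ∏ p ∈ P, G p n) = avg Q0 F * ∏ p ∈ P, avg p (G p) := by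
  classical
  induction P using Finset.induction_on with
  | empty => simp
  | insert p P hpP ih =>
    rw [prod_insert hpP, prod_insert hpP]
    have hP' : ∀ q ∈ P, q.Prime ∧ Nat.Coprime Q0 q := fun q hq => hP q (mem_insert_of_mem hq)
    have ih' := ih hP' (fun q hq => hG q (mem_insert_of_mem hq))
    have hpp := (hP p (mem_insert_self _ _)).1
    have hpos : 0 < Q0 * ∏ q ∈ P, q := Nat.mul_pos hQ0 (prod_pos fun q hq => (hP' q hq).1.pos)
    have hcop : Nat.Coprime (Q0 * ∏ q ∈ P, q) p := by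
      apply Nat.Coprime.mul_left (hP p (mem_insert_self _ _)).2
      apply Nat.Coprime.prod_left
      intro q hq
      rw [Nat.coprime_primes (hP' q hq).1 hpp]
      rintro rfl
      exact hpP hq
    have hper1 : Per (Q0 * ∏ q ∈ P, q) (fun n => F n * ∏ q ∈ P, G q n) := by
      apply Per.mul (hF.dvd (dvd_mul_right _ _))
      apply Per.prod
      intro q hq
      exact (hG q (mem_insert_of_mem hq)).dvd ((dvd_prod_of_mem _ hq).mul_left _)
    have h1 := avg_mul hpos hpp.pos hcop hper1 (hG p (mem_insert_self _ _))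
    rw [ih'] at h1
    have e1 : Q0 * (p * ∏ q ∈ P, q) = (Q0 * ∏ q ∈ P, q) * p := by ring
    rw [e1]
    have e2 : (fun n => F n * ∏ q ∈ insert p P, G q n) = (fun n => F n * (∏ q ∈ P, G q n) * G p n) := by
      funext n
      rw [prod_insert hpP]
      ring
    rw [e2, h1]
    ring

/-- interval sums -/
lemma sum_Ioc_eq (f : ℕ → ℝ) (N X : ℕ) : ∑ n ∈ Ioc N (N + X), f n = ∑ i ∈ range X, f (i + (N + 1)) := by
  symm
  apply sum_bij (fun i _ => i + (N + 1))
  · intro i hi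
    rw [mem_range] at hi
    rw [mem_Ioc]
    omega
  · intro a _ b _ h
    omega
  · intro b hb
    rw [mem_Ioc] at hb
    exact ⟨b - (N + 1), by rw [mem_range]; omega, by omega⟩
  · intro i _
    rfl

lemma interval_per {q : ℕ} (hq : 0 < q) {f : ℕ → ℝ} (h : Per q f) (B : ℝ) (hB : ∀ n, |f n| ≤ B) (N X : ℕ) :
    |∑ n ∈ Ioc N (N + X), f n - X * avg q f| ≤ 2 * q * B := by
  rw [sum_Ioc_eq]
  have hs := h.shift (N + 1)
  have h1 := avg_shift h (N + 1)
  set g : ℕ → ℝ := fun n => f (n + (N + 1)) with hg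
  have hgB : ∀ n, |g n| ≤ B := fun n => hB _
  have hB0 : 0 ≤ B := (abs_nonneg _).trans (hB 0)
  have hX : X = q * (X / q) + X % q := (Nat.div_add_mod X q).symm
  rw [← h1]
  have h2 : ∑ i ∈ range X, g i = (X / q : ℕ) * ∑ n ∈ range q, g n + ∑ x ∈ range (X % q), g (q * (X / q) + x) := by
    conv_lhs => rw [hX]
    rw [sum_range_add, sum_mul_per hs]
  have hq0 : (0 : ℝ) < q := by exact_mod_cast hq
  have h3 : ∑ n ∈ range q, g n = q * avg q g := by
    unfold avg
    field_simp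
  have h4 : (X : ℝ) = q * (X / q : ℕ) + (X % q : ℕ) := by exact_mod_cast hX
  rw [h2, h3]
  have e : ((X / q : ℕ) : ℝ) * (q * avg q g) + ∑ x ∈ range (X % q), g (q * (X / q) + x) - X * avg q g =
      ∑ x ∈ range (X % q), g (q * (X / q) + x) - (X % q : ℕ) * avg q g := by
    rw [h4]
    ring
  rw [e]
  have h5 : |∑ x ∈ range (X % q), g (q * (X / q) + x)| ≤ (X % q : ℕ) * B := by
    refine (abs_sum_le_sum_abs _ _).trans ?_
    calc ∑ x ∈ range (X % q), |g (q * (X / q) + x)| ≤ ∑ x ∈ range (X % q), B := sum_le_sum fun x _ => hgB _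
      _ = _ := by rw [sum_const, card_range, nsmul_eq_mul]
  have h6 : |avg q g| ≤ B := (avg_abs g).trans (avg_le_const hq hgB)
  have h7 : ((X % q : ℕ) : ℝ) ≤ q := by exact_mod_cast (Nat.mod_lt X hq).le
  have h8 : |((X % q : ℕ) : ℝ) * avg q g| ≤ (X % q : ℕ) * B := by
    rw [abs_mul, abs_of_nonneg (Nat.cast_nonneg (α := ℝ) _)]
    exact mul_le_mul_of_nonneg_left h6 (Nat.cast_nonneg _)
  refine (abs_sub _ _).trans ?_
  have h9 : ((X % q : ℕ) : ℝ) * B ≤ q * B := mul_le_mul_of_nonneg_right h7 hB0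
  linarith

/-- combinations of functions with small periods -/
def Sm (Q D : ℕ) (B : ℝ) (f : ℕ → ℝ) : Prop :=
  ∃ (ι : Type) (_ : Fintype ι) (c : ι → ℝ) (φ : ι → ℕ → ℝ) (q : ι → ℕ),
    (∀ i, q i ∣ Q ∧ 0 < q i ∧ q i ≤ D ∧ Per (q i) (φ i) ∧ ∀ n, |φ i n| ≤ 1) ∧
    ∑ i, |c i| ≤ B ∧ ∀ n, f n = ∑ i, c i * φ i n

lemma Sm.mul {Q D D' : ℕ} {B B' : ℝ} {f g : ℕ → ℝ} (hf : Sm Q D B f) (hg : Sm Q D' B' g) :
    Sm Q (D * D') (B * B') (fun n => f n * g n) := by
  obtain ⟨ι, _, c, φ, q, h1, h2, h3⟩ := hf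
  obtain ⟨ι', _, c', φ', q', h1', h2', h3'⟩ := hg
  refine ⟨ι × ι', inferInstance, fun x => c x.1 * c' x.2, fun x n => φ x.1 n * φ' x.2 n,
    fun x => Nat.lcm (q x.1) (q' x.2), ?_, ?_, ?_⟩
  · rintro ⟨i, i'⟩
    obtain ⟨a1, a2, a3, a4, a5⟩ := h1 i
    obtain ⟨b1, b2, b3, b4, b5⟩ := h1' i'
    refine ⟨Nat.lcm_dvd a1 b1, Nat.lcm_pos a2 b2, ?_, ?_, ?_⟩
    · refine le_trans ?_ (Nat.mul_le_mul a3 b3)
      exact Nat.le_of_dvd (Nat.mul_pos a2 b2) (Nat.lcm_dvd (dvd_mul_right _ _) (dvd_mul_left _ _))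
    · exact (a4.dvd (Nat.dvd_lcm_left _ _)).mul (b4.dvd (Nat.dvd_lcm_right _ _))
    · intro n
      simp only
      rw [abs_mul]
      exact mul_le_one₀ (a5 n) (abs_nonneg _) (b5 n)
  · simp only [abs_mul]
    rw [Fintype.sum_prod_type]
    simp only
    rw [← sum_mul_sum]
    have h4 : 0 ≤ ∑ i, |c i| := sum_nonneg fun _ _ => abs_nonneg _
    have h5 : 0 ≤ ∑ i, |c' i| := sum_nonneg fun _ _ => abs_nonneg _
    exact mul_le_mul h2 h2' h5 (h4.trans h2)
  · intro n
    rw [Fintype.sum_prod_type]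
    simp only
    rw [h3 n, h3' n, sum_mul_sum]
    apply sum_congr rfl
    intro i _
    apply sum_congr rfl
    intro j _
    ring

lemma Sm.pow {Q D : ℕ} {B : ℝ} {f : ℕ → ℝ} (hQ : 0 < Q) (hf : Sm Q D B f) : ∀ m : ℕ, Sm Q (D ^ m) (B ^ m) (fun n => f n ^ m) := by
  intro m
  induction m with
  | zero =>
    refine ⟨Unit, inferInstance, fun _ => 1, fun _ _ => 1, fun _ => 1, ?_, ?_, ?_⟩
    · intro _
      refine ⟨one_dvd _, one_pos, by simp, per_const _ _, ?_⟩
      intro n; simp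
    · simp
    · intro n; simp
  | succ m ih =>
    have h := ih.mul hf
    have e1 : D ^ (m + 1) = D ^ m * D := pow_succ _ _
    have e2 : B ^ (m + 1) = B ^ m * B := pow_succ _ _
    rw [e1, e2]
    simpa only [pow_succ] using h

lemma Sm.avg {Q D : ℕ} {B : ℝ} {f : ℕ → ℝ} (hQ : 0 < Q) (hf : Sm Q D B f) (N X : ℕ) :
    |∑ n ∈ Ioc N (N + X), f n - X * LH.avg Q f| ≤ 2 * D * B := by
  obtain ⟨ι, _, c, φ, q, h1, h2, h3⟩ := hf
  have e1 : f = fun n => ∑ i, c i * φ i n := by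
    funext n
    exact h3 n
  have e2 : ∑ n ∈ Ioc N (N + X), f n = ∑ i, c i * ∑ n ∈ Ioc N (N + X), φ i n := by
    rw [e1]
    simp only
    rw [sum_comm]
    apply sum_congr rfl
    intro i _
    rw [mul_sum]
  have e3 : LH.avg Q f = ∑ i, c i * LH.avg (q i) (φ i) := by
    rw [e1, avg_sum]
    apply sum_congr rfl
    intro i _
    rw [avg_const_mul, avg_dvd (h1 i).2.2.2.1 (h1 i).1 hQ]
  rw [e2, e3, mul_sum, ← sum_sub_distrib]
  refine (abs_sum_le_sum_abs _ _).trans ?_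
  calc ∑ i, |c i * ∑ n ∈ Ioc N (N + X), φ i n - X * (c i * LH.avg (q i) (φ i))| ≤ ∑ i, |c i| * (2 * D) := by
        apply sum_le_sum
        intro i _
        have e4 : c i * ∑ n ∈ Ioc N (N + X), φ i n - X * (c i * LH.avg (q i) (φ i)) =
            c i * (∑ n ∈ Ioc N (N + X), φ i n - X * LH.avg (q i) (φ i)) := by ring
        rw [e4, abs_mul]
        apply mul_le_mul_of_nonneg_left _ (abs_nonneg _)
        obtain ⟨a1, a2, a3, a4, a5⟩ := h1 i
        refine (interval_per a2 a4 1 a5 N X).trans ?_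
        have : ((q i : ℕ) : ℝ) ≤ D := by exact_mod_cast a3
        linarith
    _ = (2 * D) * ∑ i, |c i| := by rw [← sum_mul]; ring
    _ ≤ (2 * D) * B := mul_le_mul_of_nonneg_left h2 (by positivity)

end Pool.Agent.H36.LH
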