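import Mathlib

/-!
Families of sets of primes attached to the factors of a high moment: the primes which cover the factors.
-/

set_option autoImplicit false

open Finset

namespace Pool.Agent.H36.LH

variable {m : ℕ}

/-- tuples of positions -/
def Hs (m T : ℕ) : Finset (Fin m → ℕ) := Fintype.piFinset (fun _ => Icc 1 T)

lemma card_Hs (m T : ℕ) : (Hs m T).card = T ^ m := by
  unfold Hs
  rw [Fintype.card_piFinset]
  simp

/-- the factors whose set contains `p` -/
def Ip (E : Fin m → Finset ℕ) (p : ℕ) : Finset (Fin m) := univ.filter (fun i => p ∈ E i)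

/-- the factors with a nonempty set -/
def Su (E : Fin m → Finset ℕ) : Finset (Fin m) := univ.filter (fun i => (E i).Nonempty)

/-- sum over all families with given support -/
noncomputable def AA (β : ℕ → (Fin m → ℕ) → Finset (Fin m) → ℝ) (P : Finset ℕ) (U : Finset (Fin m)) (h : Fin m → ℕ) : ℝ :=
  ∑ E ∈ (Fintype.piFinset (fun _ : Fin m => P.powerset)).filter (fun E => Su E = U), ∏ p ∈ P, β p h (Ip E p)

lemma AA_insert (β : ℕ → (Fin m → ℕ) → Finset (Fin m) → ℝ) (P : Finset ℕ) (p : ℕ) (hpP : p ∉ P) (U : Finset (Fin m))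
    (h : Fin m → ℕ) :
    AA β (insert p P) U h = ∑ x ∈ (univ ×ˢ Fintype.piFinset (fun _ : Fin m => P.powerset)).filter
      (fun x : Finset (Fin m) × (Fin m → Finset ℕ) => Su x.2 ∪ x.1 = U), β p h x.1 * ∏ q ∈ P, β q h (Ip x.2 q) := by
  classical
  unfold AA
  apply sum_bij' (fun E _ => (Ip E p, fun i => (E i).erase p)) (fun x _ => fun i => if i ∈ x.1 then insert p (x.2 i) else x.2 i)
  · intro E hE
    rw [mem_filter, Fintype.mem_piFinset] at hE
    rw [mem_filter, mem_product, Fintype.mem_piFinset]
    refine ⟨⟨mem_univ _, ?_⟩, ?_⟩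
    · intro i
      have := mem_powerset.1 (hE.1 i)
      simp only
      rw [mem_powerset]
      intro q hq
      rw [mem_erase] at hq
      rcases mem_insert.1 (this hq.2) with h1 | h1
      · exact absurd h1 hq.1
      · exact h1
    · rw [← hE.2]
      ext i
      simp only [Su, Ip, mem_union, mem_filter, mem_univ, true_and]
      constructor
      · rintro (h1 | h1)
        · obtain ⟨q, hq⟩ := h1
          exact ⟨q, (mem_erase.1 hq).2⟩
        · exact ⟨p, h1⟩
      · rintro ⟨q, hq⟩
        by_cases hqp : q = p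
        · right; rwa [← hqp]
        · left; exact ⟨q, mem_erase.2 ⟨hqp, hq⟩⟩
  · rintro ⟨I, E⟩ hx
    rw [mem_filter, mem_product, Fintype.mem_piFinset] at hx
    simp only at hx
    rw [mem_filter, Fintype.mem_piFinset]
    refine ⟨?_, ?_⟩
    · intro i
      rw [mem_powerset]
      have := mem_powerset.1 (hx.1.2 i)
      simp only
      split_ifs
      · exact insert_subset_insert _ this
      · exact this.trans (subset_insert _ _)
    · rw [← hx.2]
      ext i
      simp only [Su, mem_union, mem_filter, mem_univ, true_and]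
      constructor
      · intro h1
        by_cases hi : i ∈ I
        · right; exact hi
        · left
          rwa [if_neg hi] at h1
      · rintro (h1 | h1)
        · by_cases hi : i ∈ I
          · rw [if_pos hi]
            exact insert_nonempty _ _
          · rwa [if_neg hi]
        · rw [if_pos h1]
          exact insert_nonempty _ _
  · intro E hE
    funext i
    simp only [Ip, mem_filter, mem_univ, true_and]
    by_cases hi : p ∈ E i
    · rw [if_pos hi, insert_erase hi]
    · rw [if_neg hi, erase_eq_of_notMem hi]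
  · rintro ⟨I, E⟩ hx
    rw [mem_filter, mem_product, Fintype.mem_piFinset] at hx
    simp only at hx
    have hpE : ∀ i, p ∉ E i := fun i hi => hpP (mem_powerset.1 (hx.1.2 i) hi)
    simp only [Prod.mk.injEq]
    constructor
    · ext i
      simp only [Ip, mem_filter, mem_univ, true_and]
      constructor
      · intro h1
        by_contra hi
        rw [if_neg hi] at h1
        exact hpE i h1
      · intro hi
        rw [if_pos hi]
        exact mem_insert_self _ _
    · funext i
      by_cases hi : i ∈ I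
      · rw [if_pos hi, erase_insert (hpE i)]
      · rw [if_neg hi, erase_eq_of_notMem (hpE i)]
  · intro E hE
    rw [prod_insert hpP]
    simp only
    congr 1
    apply prod_congr rfl
    intro q hq
    congr 1
    ext i
    simp only [Ip, mem_filter, mem_univ, true_and, mem_erase]
    constructor
    · intro h1
      refine ⟨?_, h1⟩
      rintro rfl
      exact hpP hq
    · exact fun h1 => h1.2

lemma AA_nonneg (β : ℕ → (Fin m → ℕ) → Finset (Fin m) → ℝ) (hβ : ∀ p h I, 0 ≤ β p h I) (P : Finset ℕ) (U : Finset (Fin m))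
    (h : Fin m → ℕ) : 0 ≤ AA β P U h :=
  sum_nonneg fun _ _ => prod_nonneg fun _ _ => hβ _ _ _

lemma AA_dep (β : ℕ → (Fin m → ℕ) → Finset (Fin m) → ℝ)
    (dep : ∀ p h h' I, (∀ i ∈ I, h i = h' i) → β p h I = β p h' I) (P : Finset ℕ) (U : Finset (Fin m))
    (h h' : Fin m → ℕ) (hh : ∀ i ∈ U, h i = h' i) : AA β P U h = AA β P U h' := by
  unfold AA
  apply sum_congr rfl
  intro E hE
  rw [mem_filter] at hE
  apply prod_congr rfl
  intro p _
  apply dep
  intro i hi
  apply hh
  rw [← hE.2]
  simp only [Su, Ip, mem_filter, mem_univ, true_and] at hi ⊢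
  exact ⟨p, hi⟩

theorem comb (T : ℕ) (β : ℕ → (Fin m → ℕ) → Finset (Fin m) → ℝ) (K v : ℝ) (hK : 0 ≤ K) (hv : 0 ≤ v)
    (hβ : ∀ p h I, 0 ≤ β p h I) (hβ0 : ∀ p h, β p h ∅ = 1)
    (dep : ∀ p h h' I, (∀ i ∈ I, h i = h' i) → β p h I = β p h' I) (P : Finset ℕ)
    (step : ∀ p ∈ P, ∀ (U' I : Finset (Fin m)), I.Nonempty → ∀ F : (Fin m → ℕ) → ℝ, (∀ h, 0 ≤ F h) →
      (∀ h h', (∀ i ∈ U', h i = h' i) → F h = F h') →
      ∑ h ∈ Hs m T, F h * β p h I ≤ K / p * v ^ (I \ U').card * ∑ h ∈ Hs m T, F h) :
    ∀ U : Finset (Fin m), ∑ h ∈ Hs m T, AA β P U h ≤ T ^ m * v ^ U.card * ∏ p ∈ P, (1 + 4 ^ m * (K / p)) := by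
  classical
  induction P using Finset.induction_on with
  | empty =>
    intro U
    have h1 : ∀ h, AA β ∅ U h = if U = ∅ then 1 else 0 := by
      intro h
      unfold AA
      have e1 : Fintype.piFinset (fun _ : Fin m => (∅ : Finset ℕ).powerset) = {fun _ => ∅} := by
        ext E
        rw [Fintype.mem_piFinset, mem_singleton]
        simp only [powerset_empty, mem_singleton]
        exact ⟨fun h => funext h, fun h i => by rw [h]⟩
      rw [e1, filter_singleton]
      have e2 : Su (fun _ : Fin m => (∅ : Finset ℕ)) = ∅ := by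
        ext i
        simp [Su]
      rw [e2]
      by_cases hU : U = ∅
      · rw [if_pos hU.symm, if_pos hU]
        simp
      · rw [if_neg (fun h => hU h.symm), if_neg hU]
        simp
    simp only [h1, prod_empty, mul_one]
    rw [sum_const, card_Hs, nsmul_eq_mul]
    push_cast
    apply mul_le_mul_of_nonneg_left _ (by positivity)
    by_cases hU : U = ∅
    · rw [if_pos hU, hU]
      simp
    · rw [if_neg hU]
      positivity
  | insert p P hpP ih =>
    intro U
    have ih' := ih (fun q hq => step q (mem_insert_of_mem hq))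
    set Q0 : ℝ := ∏ q ∈ P, (1 + 4 ^ m * (K / q)) with hQ0
    have hQ0p : 0 ≤ Q0 := prod_nonneg fun q _ => by positivity
    -- expansion
    have e1 : ∀ h, AA β (insert p P) U h = ∑ I : Finset (Fin m), ∑ U' : Finset (Fin m),
        if U' ∪ I = U then AA β P U' h * β p h I else 0 := by
      intro h
      rw [AA_insert β P p hpP U h, sum_filter, sum_product]
      apply sum_congr rfl
      intro I _
      simp only
      have e2 : ∀ U' : Finset (Fin m), (if U' ∪ I = U then AA β P U' h * β p h I else 0) =
          ∑ E ∈ (Fintype.piFinset (fun _ : Fin m => P.powerset)).filter (fun E => Su E = U'),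
            if Su E ∪ I = U then β p h I * ∏ q ∈ P, β q h (Ip E q) else 0 := by
        intro U'
        by_cases hU' : U' ∪ I = U
        · rw [if_pos hU']
          unfold AA
          rw [sum_mul]
          apply sum_congr rfl
          intro E hE
          rw [mem_filter] at hE
          rw [hE.2, if_pos hU']
          ring
        · rw [if_neg hU']
          symm
          apply sum_eq_zero
          intro E hE
          rw [mem_filter] at hE
          rw [hE.2, if_neg hU']
      rw [sum_congr rfl fun U' _ => e2 U']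
      exact (sum_fiberwise _ (fun E => Su E) _).symm
    have e3 : ∑ h ∈ Hs m T, AA β (insert p P) U h = ∑ I : Finset (Fin m), ∑ U' : Finset (Fin m),
        if U' ∪ I = U then ∑ h ∈ Hs m T, AA β P U' h * β p h I else 0 := by
      rw [sum_congr rfl fun h _ => e1 h, sum_comm]
      apply sum_congr rfl
      intro I _
      rw [sum_comm]
      apply sum_congr rfl
      intro U' _
      split_ifs
      · rfl
      · simp
    have hp0 : 0 ≤ K / p := by positivity
    -- bounds of the terms
    have e4 : ∀ I U' : Finset (Fin m), I.Nonempty → (if U' ∪ I = U then ∑ h ∈ Hs m T, AA β P U' h * β p h I else 0) ≤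
        K / p * (T ^ m * v ^ U.card * Q0) := by
      intro I U' hI
      split_ifs with hU
      · have h1 := step p (mem_insert_self _ _) U' I hI (AA β P U') (AA_nonneg β hβ P U')
          (fun h h' hh => AA_dep β dep P U' h h' hh)
        refine h1.trans ?_
        have h2 := ih' U'
        have h3 : U.card = U'.card + (I \ U').card := by
          rw [← hU, ← union_sdiff_self_eq_union, card_union_of_disjoint disjoint_sdiff]
        calc K / p * v ^ (I \ U').card * ∑ h ∈ Hs m T, AA β P U' h ≤ K / p * v ^ (I \ U').card * (T ^ m * v ^ U'.card * Q0) :=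
              mul_le_mul_of_nonneg_left h2 (by positivity)
          _ = K / p * (T ^ m * v ^ U.card * Q0) := by rw [h3, pow_add]; ring
      · positivity
    have e5 : ∑ U' : Finset (Fin m), (if U' ∪ (∅ : Finset (Fin m)) = U then ∑ h ∈ Hs m T, AA β P U' h * β p h ∅ else 0) ≤
        T ^ m * v ^ U.card * Q0 := by
      have h1 : ∀ U' : Finset (Fin m), (if U' ∪ (∅ : Finset (Fin m)) = U then ∑ h ∈ Hs m T, AA β P U' h * β p h ∅ else 0) =
          if U' = U then ∑ h ∈ Hs m T, AA β P U' h else 0 := by
        intro U'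
        simp only [union_empty, hβ0, mul_one]
      rw [sum_congr rfl fun U' _ => h1 U', sum_ite_eq' univ U, if_pos (mem_univ _)]
      exact ih' U
    rw [e3, ← add_sum_erase univ _ (mem_univ (∅ : Finset (Fin m)))]
    have e6 : ∑ I ∈ univ.erase (∅ : Finset (Fin m)), ∑ U' : Finset (Fin m),
        (if U' ∪ I = U then ∑ h ∈ Hs m T, AA β P U' h * β p h I else 0) ≤
        4 ^ m * (K / p * (T ^ m * v ^ U.card * Q0)) := by
      calc _ ≤ ∑ I ∈ univ.erase (∅ : Finset (Fin m)), ∑ U' : Finset (Fin m), K / p * (T ^ m * v ^ U.card * Q0) := by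
            apply sum_le_sum
            intro I hI
            apply sum_le_sum
            intro U' _
            exact e4 I U' (nonempty_of_ne_empty (mem_erase.1 hI).1)
        _ = ((univ.erase (∅ : Finset (Fin m))).card * (univ : Finset (Finset (Fin m))).card : ℕ) *
              (K / p * (T ^ m * v ^ U.card * Q0)) := by
            rw [sum_const, sum_const, nsmul_eq_mul, nsmul_eq_mul]
            push_cast
            ring
        _ ≤ (4 ^ m : ℕ) * (K / p * (T ^ m * v ^ U.card * Q0)) := by
            apply mul_le_mul_of_nonneg_right _ (by positivity)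
            have h1 : (univ.erase (∅ : Finset (Fin m))).card ≤ 2 ^ m := by
              refine (card_le_univ _).trans ?_
              rw [Fintype.card_finset, Fintype.card_fin]
            have h2 : (univ : Finset (Finset (Fin m))).card = 2 ^ m := by
              rw [card_univ, Fintype.card_finset, Fintype.card_fin]
            have h3 : (univ.erase (∅ : Finset (Fin m))).card * (univ : Finset (Finset (Fin m))).card ≤ 4 ^ m := by
              rw [h2]
              calc (univ.erase (∅ : Finset (Fin m))).card * 2 ^ m ≤ 2 ^ m * 2 ^ m := Nat.mul_le_mul_right _ h1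
                _ = 4 ^ m := by rw [← mul_pow]; norm_num
            exact_mod_cast h3
        _ = _ := by push_cast; rfl
    rw [prod_insert hpP]
    calc _ ≤ T ^ m * v ^ U.card * Q0 + 4 ^ m * (K / p * (T ^ m * v ^ U.card * Q0)) := add_le_add e5 e6
      _ = _ := by ring

/-- sum over one coordinate -/
lemma sum_one (T : ℕ) (i : Fin m) (Φ : (Fin m → ℕ) → ℝ) (hΦ : ∀ h x, Φ (Function.update h i x) = Φ h) (g : ℕ → ℝ) :
    (T : ℝ) * ∑ h ∈ Hs m T, Φ h * g (h i) = (∑ x ∈ Icc 1 T, g x) * ∑ h ∈ Hs m T, Φ h := by
  classical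
  have h1 : ∑ y ∈ Hs m T ×ˢ Icc 1 T, Φ y.1 * g (y.1 i) = (T : ℝ) * ∑ h ∈ Hs m T, Φ h * g (h i) := by
    rw [sum_product]
    simp only
    rw [mul_sum]
    apply sum_congr rfl
    intro h _
    rw [sum_const, Nat.card_Icc, nsmul_eq_mul]
    simp
  have h2 : ∑ y ∈ Hs m T ×ˢ Icc 1 T, Φ y.1 * g y.2 = (∑ x ∈ Icc 1 T, g x) * ∑ h ∈ Hs m T, Φ h := by
    rw [sum_product, sum_mul_sum, sum_comm]
    apply sum_congr rfl
    intro x _
    apply sum_congr rfl
    intro h _
    ring
  rw [← h1, ← h2]
  refine sum_bij' (fun y _ => (Function.update y.1 i y.2, y.1 i)) (fun y _ => (Function.update y.1 i y.2, y.1 i)) ?_ ?_ ?_ ?_ ?_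
  · rintro ⟨h, x⟩ hy
    rw [mem_product] at hy ⊢
    obtain ⟨h3, h4⟩ := hy
    unfold Hs at h3 ⊢
    rw [Fintype.mem_piFinset] at h3 ⊢
    simp only at h3 h4 ⊢
    refine ⟨?_, h3 i⟩
    intro j
    by_cases hj : j = i
    · subst hj; rw [Function.update_self]; exact h4
    · rw [Function.update_of_ne hj]; exact h3 j
  · rintro ⟨h, x⟩ hy
    rw [mem_product] at hy ⊢
    obtain ⟨h3, h4⟩ := hy
    unfold Hs at h3 ⊢
    rw [Fintype.mem_piFinset] at h3 ⊢
    simp only at h3 h4 ⊢
    refine ⟨?_, h3 i⟩
    intro j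
    by_cases hj : j = i
    · subst hj; rw [Function.update_self]; exact h4
    · rw [Function.update_of_ne hj]; exact h3 j
  · rintro ⟨h, x⟩ _
    simp
  · rintro ⟨h, x⟩ _
    simp
  · rintro ⟨h, x⟩ _
    simp only [hΦ]

/-- sum over many coordinates -/
lemma sum_many (T : ℕ) (g : ℕ → ℝ) (W : Finset (Fin m)) : ∀ (Φ : (Fin m → ℕ) → ℝ),
    (∀ i ∈ W, ∀ h x, Φ (Function.update h i x) = Φ h) →
    (T : ℝ) ^ W.card * ∑ h ∈ Hs m T, Φ h * ∏ i ∈ W, g (h i) = (∑ x ∈ Icc 1 T, g x) ^ W.card * ∑ h ∈ Hs m T, Φ h := by
  classical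
  induction W using Finset.induction_on with
  | empty => intro Φ _; simp
  | insert i W hi ih =>
    intro Φ hΦ
    rw [card_insert_of_notMem hi, pow_succ, pow_succ]
    have h1 := ih Φ (fun j hj => hΦ j (mem_insert_of_mem hj))
    have h2 := sum_one T i (fun h => Φ h * ∏ j ∈ W, g (h j)) (by
      intro h x
      rw [hΦ i (mem_insert_self _ _) h x]
      congr 1
      apply prod_congr rfl
      intro j hj
      rw [Function.update_of_ne]
      rintro rfl
      exact hi hj) g
    have h3 : ∑ h ∈ Hs m T, Φ h * ∏ j ∈ insert i W, g (h j) = ∑ h ∈ Hs m T, Φ h * (∏ j ∈ W, g (h j)) * g (h i) := by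
      apply sum_congr rfl
      intro h _
      rw [prod_insert hi]
      ring
    rw [h3, mul_assoc, h2]
    have h4 : (T : ℝ) ^ W.card * ((∑ x ∈ Icc 1 T, g x) * ∑ h ∈ Hs m T, Φ h * ∏ j ∈ W, g (h j)) =
        (∑ x ∈ Icc 1 T, g x) * ((T : ℝ) ^ W.card * ∑ h ∈ Hs m T, Φ h * ∏ j ∈ W, g (h j)) := by ring
    rw [h4, h1]
    ring

end Pool.Agent.H36.LH
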