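import Mathlib
import Pool.Agent.H36.LH.Avg
import Pool.Agent.H36.LH.Comb
import Pool.Graph.R_seed8.H373R2.T7.SysCount

/-!
Centred indicator functions of residue classes, and sums over families of sets of primes.
-/

set_option autoImplicit false

open Finset

namespace Pool.Agent.H36.LH

open Pool.Agent.H373R2.T7

open Classical in
/-- indicator of the classes modulo `p` -/
noncomputable def ind (R : ℕ → ℕ → Prop) (p x : ℕ) : ℝ := if R p x then 1 else 0

/-- density of the classes -/
noncomputable def gam (R : ℕ → ℕ → Prop) (p : ℕ) : ℝ := (nuB R p : ℝ) / p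

/-- centred indicator -/
noncomputable def eps (R : ℕ → ℕ → Prop) (p x : ℕ) : ℝ := ind R p x - gam R p

variable {R : ℕ → ℕ → Prop} {κ : ℕ}

lemma ind_nonneg (p x : ℕ) : 0 ≤ ind R p x := by
  unfold ind; split_ifs <;> norm_num

lemma ind_le_one (p x : ℕ) : ind R p x ≤ 1 := by
  unfold ind; split_ifs <;> norm_num

lemma ind_per (hR : PerB R κ) (p : ℕ) : Per p (ind R p) := by
  intro n
  unfold ind
  by_cases h : R p n
  · rw [if_pos h, if_pos ((hR.per p n).1 h)]
  · rw [if_neg h, if_neg (fun h' => h ((hR.per p n).2 h'))]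

lemma sum_ind (p : ℕ) : ∑ n ∈ range p, ind R p n = nuB R p := by
  classical
  unfold ind nuB
  rw [← sum_filter, sum_const, nsmul_eq_mul, mul_one]

lemma avg_ind (p : ℕ) : avg p (ind R p) = gam R p := by
  unfold avg gam
  rw [sum_ind]

lemma gam_nonneg (p : ℕ) : 0 ≤ gam R p := by unfold gam; positivity

lemma gam_le_one (p : ℕ) : gam R p ≤ 1 := by
  unfold gam
  apply div_le_one_of_le₀ _ (Nat.cast_nonneg p)
  exact_mod_cast nuB_le R p

lemma gam_le (hR : PerB R κ) (p : ℕ) (hp : p.Prime) : gam R p ≤ κ / p := by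
  unfold gam
  apply div_le_div_of_nonneg_right _ (Nat.cast_nonneg p)
  exact_mod_cast hR.few p hp

lemma eps_per (hR : PerB R κ) (p : ℕ) : Per p (eps R p) := by
  intro n
  unfold eps
  rw [ind_per hR p n]

lemma avg_eps (p : ℕ) (hp : 0 < p) : avg p (eps R p) = 0 := by
  have h1 : avg p (eps R p) = avg p (ind R p) - avg p (fun _ => gam R p) := by
    unfold avg eps
    rw [sum_sub_distrib, sub_div]
  rw [h1, avg_ind, avg_const hp, sub_self]

lemma eps_abs_le_one (p x : ℕ) : |eps R p x| ≤ 1 := by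
  have h1 := ind_nonneg (R := R) p x
  have h2 := ind_le_one (R := R) p x
  have h3 := gam_nonneg (R := R) p
  have h4 := gam_le_one (R := R) p
  unfold eps
  rw [abs_le]
  constructor <;> linarith

lemma eps_abs_le (p x : ℕ) : |eps R p x| ≤ ind R p x + gam R p := by
  have h1 := ind_nonneg (R := R) p x
  have h3 := gam_nonneg (R := R) p
  unfold eps
  rw [abs_le]
  constructor <;> linarith

lemma avg_abs_eps (hR : PerB R κ) (p : ℕ) (hp : p.Prime) (a : ℕ) : avg p (fun n => |eps R p (n + a)|) ≤ 2 * κ / p := by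
  have h0 : avg p (fun n => |eps R p (n + a)|) = avg p (fun n => |eps R p n|) :=
    avg_shift ((eps_per hR p).comp (fun x => |x|)) a
  rw [h0]
  have h1 : avg p (fun n => |eps R p n|) ≤ avg p (fun n => ind R p n + gam R p) := avg_mono fun n => eps_abs_le p n
  have h2 : avg p (fun n => ind R p n + gam R p) = avg p (ind R p) + avg p (fun _ => gam R p) := by
    unfold avg
    rw [sum_add_distrib, add_div]
  rw [h2, avg_ind, avg_const hp.pos] at h1
  have h3 := gam_le hR p hp
  have h4 : 2 * (κ : ℝ) / p = κ / p + κ / p := by ring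
  linarith

lemma sum_Icc_range (T : ℕ) (f : ℕ → ℝ) : ∑ x ∈ Icc 1 T, f x = ∑ i ∈ range T, f (i + 1) := by
  have h := sum_Ioc_eq f 0 T
  rw [zero_add, zero_add] at h
  rw [← h]
  apply sum_congr _ fun _ _ => rfl
  ext x
  rw [mem_Icc, mem_Ioc]
  omega

lemma sum_per_le {p : ℕ} (hp : 0 < p) {g : ℕ → ℝ} (h : Per p g) (h0 : ∀ n, 0 ≤ g n) (T : ℕ) :
    ∑ i ∈ range T, g i ≤ ((T : ℝ) / p + 1) * ∑ i ∈ range p, g i := by
  have hX : T = p * (T / p) + T % p := (Nat.div_add_mod T p).symm
  have h2 : ∑ i ∈ range T, g i = (T / p : ℕ) * ∑ n ∈ range p, g n + ∑ x ∈ range (T % p), g (p * (T / p) + x) := by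
    conv_lhs => rw [hX]
    rw [sum_range_add, sum_mul_per h]
  have h3 : ∑ x ∈ range (T % p), g (p * (T / p) + x) ≤ ∑ x ∈ range p, g x := by
    calc ∑ x ∈ range (T % p), g (p * (T / p) + x) = ∑ x ∈ range (T % p), g x := by
          apply sum_congr rfl
          intro x _
          rw [← h (p * (T / p) + x), ← h x, Nat.mul_add_mod]
      _ ≤ ∑ x ∈ range p, g x := by
          apply sum_le_sum_of_subset_of_nonneg
          · exact range_subset_range.2 (Nat.mod_lt T hp).le
          · intro i _ _; exact h0 i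
  have h4 : ((T / p : ℕ) : ℝ) ≤ (T : ℝ) / p := Nat.cast_div_le
  have h5 : 0 ≤ ∑ x ∈ range p, g x := sum_nonneg fun i _ => h0 i
  rw [h2]
  have h6 := mul_le_mul_of_nonneg_right h4 h5
  linarith

lemma sum_abs_eps (hR : PerB R κ) (p : ℕ) (hp : p.Prime) (T n : ℕ) (hT : 0 < T) :
    ∑ x ∈ Icc 1 T, |eps R p (n + x)| ≤ T * (κ * (2 / p + 1 / T)) := by
  have hp0 : (0 : ℝ) < p := by exact_mod_cast hp.pos
  have hT0 : (0 : ℝ) < T := by exact_mod_cast hT
  have hκν : (nuB R p : ℝ) ≤ κ := by exact_mod_cast hR.few p hp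
  have h1 : ∑ x ∈ Icc 1 T, |eps R p (n + x)| ≤ ∑ x ∈ Icc 1 T, (ind R p (n + x) + gam R p) :=
    sum_le_sum fun x _ => eps_abs_le p (n + x)
  rw [sum_add_distrib, sum_const, Nat.card_Icc, nsmul_eq_mul] at h1
  have h2 : ∑ x ∈ Icc 1 T, ind R p (n + x) ≤ ((T : ℝ) / p + 1) * κ := by
    rw [sum_Icc_range T (fun x => ind R p (n + x))]
    have hper : Per p (fun i => ind R p (n + (i + 1))) := by
      have := (ind_per hR p).shift (n + 1)
      intro i
      have h3 := this i
      simp only at h3 ⊢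
      have e1 : n + (i % p + 1) = i % p + (n + 1) := by ring
      have e2 : n + (i + 1) = i + (n + 1) := by ring
      rw [e1, e2]
      exact h3
    have h3 := sum_per_le hp.pos hper (fun i => ind_nonneg p _) T
    refine h3.trans ?_
    have h4 : ∑ i ∈ range p, ind R p (n + (i + 1)) = nuB R p := by
      have h5 := avg_shift (ind_per hR p) (n + 1)
      unfold avg at h5
      rw [div_left_inj' hp0.ne', sum_ind] at h5
      rw [← h5]
      apply sum_congr rfl
      intro i _
      congr 1
      ring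
    rw [h4]
    apply mul_le_mul_of_nonneg_left hκν (by positivity)
  have h3 := gam_le hR p hp
  have h4 : ((T + 1 - 1 : ℕ) : ℝ) = T := by simp
  rw [h4] at h1
  have h5 : (T : ℝ) * gam R p ≤ T * (κ / p) := mul_le_mul_of_nonneg_left h3 hT0.le
  calc _ ≤ ((T : ℝ) / p + 1) * κ + T * (κ / p) := by linarith
    _ = T * (κ * (2 / p + 1 / T)) := by field_simp; ring

/-- correlation of the centred indicators -/
noncomputable def beta (R : ℕ → ℕ → Prop) (m p : ℕ) (h : Fin m → ℕ) (I : Finset (Fin m)) : ℝ :=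
  |avg p (fun n => ∏ i ∈ I, eps R p (n + h i))|

lemma beta_le (m p : ℕ) (h : Fin m → ℕ) (I J : Finset (Fin m)) (hJ : J ⊆ I) :
    beta R m p h I ≤ avg p (fun n => ∏ i ∈ J, |eps R p (n + h i)|) := by
  classical
  unfold beta
  refine (avg_abs _).trans (avg_mono fun n => ?_)
  rw [abs_prod, ← prod_sdiff hJ]
  apply mul_le_of_le_one_left (prod_nonneg fun _ _ => abs_nonneg _)
  exact prod_le_one (fun _ _ => abs_nonneg _) (fun _ _ => eps_abs_le_one _ _)

lemma beta_empty (m p : ℕ) (hp : 0 < p) (h : Fin m → ℕ) : beta R m p h ∅ = 1 := by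
  unfold beta
  simp only [prod_empty]
  rw [avg_const hp, abs_one]

lemma beta_one (hR : PerB R κ) (m p : ℕ) (hp : 0 < p) (h : Fin m → ℕ) (i : Fin m) : beta R m p h {i} = 0 := by
  unfold beta
  simp only [prod_singleton]
  rw [avg_shift (eps_per hR p) (h i), avg_eps p hp, abs_zero]

set_option maxHeartbeats 1000000 in
theorem step_beta (hR : PerB R κ) (m p T : ℕ) (hp : p.Prime) (hT : 0 < T) (v : ℝ) (hv0 : 0 ≤ v) (hv1 : v ≤ 1)
    (hv : (κ : ℝ) * (2 / p + 1 / T) ≤ v ^ 2) (U' I : Finset (Fin m)) (hI : I.Nonempty) (F : (Fin m → ℕ) → ℝ)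
    (hF : ∀ h, 0 ≤ F h) (hdep : ∀ h h', (∀ i ∈ U', h i = h' i) → F h = F h') :
    ∑ h ∈ Hs m T, F h * beta R m p h I ≤ 2 * κ / p * v ^ (I \ U').card * ∑ h ∈ Hs m T, F h := by
  classical
  have hp0 : (0 : ℝ) < p := by exact_mod_cast hp.pos
  have hT0 : (0 : ℝ) < T := by exact_mod_cast hT
  have hSF : 0 ≤ ∑ h ∈ Hs m T, F h := sum_nonneg fun h _ => hF h
  have hκp : 0 ≤ 2 * (κ : ℝ) / p := by positivity
  have hs : ∀ n, ∑ x ∈ Icc 1 T, |eps R p (n + x)| ≤ T * v ^ 2 := fun n =>
    (sum_abs_eps hR p hp T n hT).trans (mul_le_mul_of_nonneg_left hv hT0.le)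
  have hs0 : ∀ n, 0 ≤ ∑ x ∈ Icc 1 T, |eps R p (n + x)| := fun n => sum_nonneg fun _ _ => abs_nonneg _
  -- exchange of the sums
  have hex : ∀ (G : ℕ → (Fin m → ℕ) → ℝ), ∑ h ∈ Hs m T, F h * avg p (fun n => G n h) =
      avg p (fun n => ∑ h ∈ Hs m T, F h * G n h) := by
    intro G
    rw [avg_sum]
    apply sum_congr rfl
    intro h _
    rw [avg_const_mul]
  have hupd : ∀ i, i ∉ U' → ∀ h x, F (Function.update h i x) = F h := by
    intro i hi h x
    apply hdep
    intro j hj
    rw [Function.update_of_ne]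
    rintro rfl
    exact hi hj
  rcases Nat.lt_or_ge I.card 2 with hc | hc
  · have hc1 : I.card = 1 := by have := hI.card_pos; omega
    obtain ⟨i, rfl⟩ := card_eq_one.1 hc1
    have : ∑ h ∈ Hs m T, F h * beta R m p h {i} = 0 := by
      apply sum_eq_zero
      intro h _
      rw [beta_one hR m p hp.pos, mul_zero]
    rw [this]
    positivity
  set W := I \ U' with hW
  rcases Nat.lt_or_ge W.card 2 with hw | hw
  · rcases Nat.lt_or_ge W.card 1 with hw1 | hw1
    · -- no new index
      have hW0 : W.card = 0 := by omega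
      rw [hW0, pow_zero, mul_one, mul_sum]
      apply sum_le_sum
      intro h _
      obtain ⟨j, hj⟩ := hI
      have h1 := beta_le (R := R) m p h I {j} (singleton_subset_iff.2 hj)
      simp only [prod_singleton] at h1
      have h2 := h1.trans (avg_abs_eps hR p hp (h j))
      rw [mul_comm (2 * (κ : ℝ) / p)]
      exact mul_le_mul_of_nonneg_left h2 (hF h)
    · -- one new index
      have hW1 : W.card = 1 := by omega
      obtain ⟨i0, hi0⟩ := card_eq_one.1 hW1
      have hi0W : i0 ∈ W := by rw [hi0]; exact mem_singleton_self _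
      have hi0I : i0 ∈ I := (mem_sdiff.1 hi0W).1
      have hi0U : i0 ∉ U' := (mem_sdiff.1 hi0W).2
      obtain ⟨j, hj, hji⟩ := exists_mem_ne (by omega : 1 < I.card) i0
      have hjU : j ∈ U' := by
        by_contra hjU
        have : j ∈ W := mem_sdiff.2 ⟨hj, hjU⟩
        rw [hi0, mem_singleton] at this
        exact hji this
      have h1 : ∀ h, beta R m p h I ≤ avg p (fun n => |eps R p (n + h j)| * |eps R p (n + h i0)|) := by
        intro h
        have h2 := beta_le (R := R) m p h I {j, i0} (by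
          intro x hx
          rw [mem_insert, mem_singleton] at hx
          rcases hx with rfl | rfl
          · exact hj
          · exact hi0I)
        simp only [prod_pair hji] at h2
        exact h2
      rw [hW1, pow_one]
      calc ∑ h ∈ Hs m T, F h * beta R m p h I ≤
            ∑ h ∈ Hs m T, F h * avg p (fun n => |eps R p (n + h j)| * |eps R p (n + h i0)|) :=
            sum_le_sum fun h _ => mul_le_mul_of_nonneg_left (h1 h) (hF h)
        _ = avg p (fun n => ∑ h ∈ Hs m T, F h * (|eps R p (n + h j)| * |eps R p (n + h i0)|)) :=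
            hex (fun n h => |eps R p (n + h j)| * |eps R p (n + h i0)|)
        _ ≤ avg p (fun n => v ^ 2 * ∑ h ∈ Hs m T, F h * |eps R p (n + h j)|) := by
            apply avg_mono
            intro n
            have h3 := sum_one T i0 (fun h => F h * |eps R p (n + h j)|) (by
              intro h x
              rw [hupd i0 hi0U h x, Function.update_of_ne hji]) (fun x => |eps R p (n + x)|)
            have h4 : 0 ≤ ∑ h ∈ Hs m T, F h * |eps R p (n + h j)| :=
              sum_nonneg fun h _ => mul_nonneg (hF h) (abs_nonneg _)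
            have h5 : (T : ℝ) * ∑ h ∈ Hs m T, F h * (|eps R p (n + h j)| * |eps R p (n + h i0)|) ≤
                T * (v ^ 2 * ∑ h ∈ Hs m T, F h * |eps R p (n + h j)|) := by
              have e : ∑ h ∈ Hs m T, F h * (|eps R p (n + h j)| * |eps R p (n + h i0)|) =
                  ∑ h ∈ Hs m T, F h * |eps R p (n + h j)| * |eps R p (n + h i0)| :=
                sum_congr rfl fun h _ => by ring
              rw [e, h3]
              have := mul_le_mul_of_nonneg_right (hs n) h4
              linarith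
            exact le_of_mul_le_mul_left h5 hT0
        _ = v ^ 2 * ∑ h ∈ Hs m T, F h * avg p (fun n => |eps R p (n + h j)|) := by
            rw [avg_const_mul, hex (fun n h => |eps R p (n + h j)|)]
        _ ≤ v ^ 2 * ∑ h ∈ Hs m T, F h * (2 * κ / p) := by
            apply mul_le_mul_of_nonneg_left _ (by positivity)
            exact sum_le_sum fun h _ => mul_le_mul_of_nonneg_left (avg_abs_eps hR p hp (h j)) (hF h)
        _ = v ^ 2 * (2 * κ / p * ∑ h ∈ Hs m T, F h) := by rw [← sum_mul]; ring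
        _ ≤ v * (2 * κ / p * ∑ h ∈ Hs m T, F h) := by
            apply mul_le_mul_of_nonneg_right _ (by positivity)
            rw [sq]
            exact mul_le_of_le_one_left hv0 hv1
        _ = _ := by ring
  · -- many new indices
    have hWI : W ⊆ I := sdiff_subset
    have h1 : ∀ h, beta R m p h I ≤ avg p (fun n => ∏ i ∈ W, |eps R p (n + h i)|) := fun h =>
      beta_le (R := R) m p h I W hWI
    obtain ⟨a, ha⟩ : ∃ a, W.card = a + 2 := ⟨W.card - 2, by omega⟩
    calc ∑ h ∈ Hs m T, F h * beta R m p h I ≤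
          ∑ h ∈ Hs m T, F h * avg p (fun n => ∏ i ∈ W, |eps R p (n + h i)|) :=
          sum_le_sum fun h _ => mul_le_mul_of_nonneg_left (h1 h) (hF h)
      _ = avg p (fun n => ∑ h ∈ Hs m T, F h * ∏ i ∈ W, |eps R p (n + h i)|) :=
          hex (fun n h => ∏ i ∈ W, |eps R p (n + h i)|)
      _ ≤ avg p (fun n => (v ^ 2) ^ (a + 1) / T * (∑ h ∈ Hs m T, F h) * ∑ x ∈ Icc 1 T, |eps R p (n + x)|) := by
          apply avg_mono
          intro n
          have h3 := sum_many T (fun x => |eps R p (n + x)|) W F (fun i hi h x => hupd i (mem_sdiff.1 hi).2 h x)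
          rw [ha] at h3
          have hTa : (0 : ℝ) < (T : ℝ) ^ (a + 2) := by positivity
          have h5 : (T : ℝ) ^ (a + 2) * ∑ h ∈ Hs m T, F h * ∏ i ∈ W, |eps R p (n + h i)| ≤
              (T : ℝ) ^ (a + 2) * ((v ^ 2) ^ (a + 1) / T * (∑ h ∈ Hs m T, F h) * ∑ x ∈ Icc 1 T, |eps R p (n + x)|) := by
            rw [h3]
            set s := ∑ x ∈ Icc 1 T, |eps R p (n + x)| with hsdef
            have hs' : s ≤ T * v ^ 2 := hs n
            have hs0' : 0 ≤ s := hs0 n
            have h6 : s ^ (a + 1) ≤ (T * v ^ 2) ^ (a + 1) := pow_le_pow_left₀ hs0' hs' _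
            calc s ^ (a + 2) * ∑ h ∈ Hs m T, F h = s ^ (a + 1) * (s * ∑ h ∈ Hs m T, F h) := by ring
              _ ≤ (T * v ^ 2) ^ (a + 1) * (s * ∑ h ∈ Hs m T, F h) :=
                  mul_le_mul_of_nonneg_right h6 (mul_nonneg hs0' hSF)
              _ = _ := by
                  rw [mul_pow, pow_succ (T : ℝ) (a + 1)]
                  field_simp
          exact le_of_mul_le_mul_left h5 hTa
      _ = (v ^ 2) ^ (a + 1) / T * (∑ h ∈ Hs m T, F h) * ∑ x ∈ Icc 1 T, avg p (fun n => |eps R p (n + x)|) := by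
          rw [avg_const_mul, avg_sum]
      _ ≤ (v ^ 2) ^ (a + 1) / T * (∑ h ∈ Hs m T, F h) * ∑ x ∈ Icc 1 T, (2 * (κ : ℝ) / p) := by
          apply mul_le_mul_of_nonneg_left _ (by positivity)
          exact sum_le_sum fun x _ => avg_abs_eps hR p hp x
      _ = (v ^ 2) ^ (a + 1) * (2 * κ / p * ∑ h ∈ Hs m T, F h) := by
          rw [sum_const, Nat.card_Icc, nsmul_eq_mul]
          have : ((T + 1 - 1 : ℕ) : ℝ) = T := by simp
          rw [this]
          field_simp
      _ ≤ v ^ (a + 2) * (2 * κ / p * ∑ h ∈ Hs m T, F h) := by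
          apply mul_le_mul_of_nonneg_right _ (by positivity)
          rw [← pow_mul]
          exact pow_le_pow_of_le_one hv0 hv1 (by omega)
      _ = _ := by rw [ha]; ring

/-- the sum over all families with full support -/
theorem comb_beta (hR : PerB R κ) (m T w : ℕ) (P : Finset ℕ) (hP : ∀ p ∈ P, p.Prime ∧ w ≤ p) (hw : 0 < w) (hT : w ≤ T)
    (v : ℝ) (hv0 : 0 ≤ v) (hv1 : v ≤ 1) (hv : 3 * (κ : ℝ) / w ≤ v ^ 2) :
    ∑ h ∈ Hs m T, AA (fun p h I => if p ∈ P then beta R m p h I else 1) P univ h ≤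
      T ^ m * v ^ m * ∏ p ∈ P, (1 + 4 ^ m * (2 * (κ : ℝ) / p)) := by
  classical
  have h := comb (m := m) T (fun p h I => if p ∈ P then beta R m p h I else 1) (2 * κ) v (by positivity) hv0 (by
    intro p h I
    split_ifs
    · unfold beta; exact abs_nonneg _
    · norm_num) (by
    intro p h
    split_ifs with hp
    · exact beta_empty m p (hP p hp).1.pos h
    · rfl) (by
    intro p h h' I hh
    split_ifs
    · unfold beta
      congr 2
      funext n
      exact prod_congr rfl fun i hi => by rw [hh i hi]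
    · rfl) P (by
    intro p hp U' I hI F hF hdep
    simp only [if_pos hp]
    apply step_beta hR m p T (hP p hp).1 (by omega) v hv0 hv1 _ U' I hI F hF hdep
    refine le_trans ?_ hv
    have hw0 : (0 : ℝ) < w := by exact_mod_cast hw
    have h1 : (w : ℝ) ≤ p := by exact_mod_cast (hP p hp).2
    have h2 : (w : ℝ) ≤ T := by exact_mod_cast hT
    have h3 : 2 / (p : ℝ) ≤ 2 / w := div_le_div_of_nonneg_left (by norm_num) hw0 h1
    have h4 : 1 / (T : ℝ) ≤ 1 / w := div_le_div_of_nonneg_left (by norm_num) hw0 h2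
    calc (κ : ℝ) * (2 / p + 1 / T) ≤ κ * (2 / w + 1 / w) := mul_le_mul_of_nonneg_left (add_le_add h3 h4) (Nat.cast_nonneg _)
      _ = 3 * κ / w := by ring) univ
  rw [card_univ, Fintype.card_fin] at h
  exact h

end Pool.Agent.H36.LH
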