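import Mathlib
import Pool.Agent.H36.LH.Eps

/-!
High moments over a full period of the sum of a weight times a centred sieve function.
-/

set_option autoImplicit false

open Finset

namespace Pool.Agent.H36.LH

open Pool.Agent.H373R2.T7

/-- a sieve function -/
noncomputable def SV (R : ℕ → ℕ → Prop) (Vs : Finset (Finset ℕ)) (c : Finset ℕ → ℝ) (x : ℕ) : ℝ :=
  ∑ V ∈ Vs, c V * ∏ p ∈ V, ind R p x

/-- its mean -/
noncomputable def MV (R : ℕ → ℕ → Prop) (Vs : Finset (Finset ℕ)) (c : Finset ℕ → ℝ) : ℝ :=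
  ∑ V ∈ Vs, c V * ∏ p ∈ V, gam R p

open Classical in
/-- the coefficients in terms of the centred indicators -/
noncomputable def GE (R : ℕ → ℕ → Prop) (Vs : Finset (Finset ℕ)) (c : Finset ℕ → ℝ) (E : Finset ℕ) : ℝ :=
  ∑ V ∈ Vs, if E ⊆ V then c V * ∏ p ∈ V \ E, gam R p else 0

variable {R : ℕ → ℕ → Prop} {κ : ℕ}

lemma SV_expand (Vs : Finset (Finset ℕ)) (c : Finset ℕ → ℝ) (P : Finset ℕ) (h : ∀ V ∈ Vs, V ⊆ P) (x : ℕ) :
    SV R Vs c x = ∑ E ∈ P.powerset, GE R Vs c E * ∏ p ∈ E, eps R p x := by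
  classical
  unfold SV GE
  have h1 : ∀ E ∈ P.powerset, (∑ V ∈ Vs, if E ⊆ V then c V * ∏ p ∈ V \ E, gam R p else 0) * ∏ p ∈ E, eps R p x =
      ∑ V ∈ Vs, if E ⊆ V then c V * ((∏ p ∈ E, eps R p x) * ∏ p ∈ V \ E, gam R p) else 0 := by
    intro E _
    rw [sum_mul]
    apply sum_congr rfl
    intro V _
    split_ifs
    · ring
    · ring
  rw [sum_congr rfl h1, sum_comm]
  apply sum_congr rfl
  intro V hV
  have h2 : ∏ p ∈ V, ind R p x = ∏ p ∈ V, (eps R p x + gam R p) := by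
    apply prod_congr rfl
    intro p _
    unfold eps
    ring
  rw [h2, prod_add, mul_sum, ← sum_filter]
  apply sum_congr _ fun _ _ => rfl
  ext E
  rw [mem_filter, mem_powerset, mem_powerset]
  constructor
  · intro h3
    exact ⟨h3.trans (h V hV), h3⟩
  · exact fun h3 => h3.2

lemma GE_empty (Vs : Finset (Finset ℕ)) (c : Finset ℕ → ℝ) : GE R Vs c ∅ = MV R Vs c := by
  classical
  unfold GE MV
  apply sum_congr rfl
  intro V _
  rw [if_pos (empty_subset _), sdiff_empty]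

lemma GE_abs (hR : PerB R κ) (Vs : Finset (Finset ℕ)) (c : Finset ℕ → ℝ) (P : Finset ℕ) (h : ∀ V ∈ Vs, V ⊆ P)
    (hP : ∀ p ∈ P, p.Prime) (hc : ∀ V, |c V| ≤ 1) (E : Finset ℕ) :
    |GE R Vs c E| ≤ ∏ p ∈ P, (1 + (κ : ℝ) / p) := by
  classical
  unfold GE
  refine (abs_sum_le_sum_abs _ _).trans ?_
  have hg : ∀ W : Finset ℕ, 0 ≤ ∏ p ∈ W, gam R p := fun W => prod_nonneg fun p _ => gam_nonneg p
  have h1 : ∀ V ∈ Vs, |if E ⊆ V then c V * ∏ p ∈ V \ E, gam R p else 0| ≤
      if E ⊆ V then ∏ p ∈ V \ E, gam R p else 0 := by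
    intro V _
    split_ifs
    · rw [abs_mul, abs_of_nonneg (hg _)]
      exact mul_le_of_le_one_left (hg _) (hc V)
    · simp
  refine (sum_le_sum h1).trans ?_
  rw [← sum_filter]
  have hinj : Set.InjOn (fun V : Finset ℕ => V \ E) (↑(Vs.filter (fun V => E ⊆ V)) : Set (Finset ℕ)) := by
    intro V hV V' hV' hh
    rw [mem_coe, mem_filter] at hV hV'
    simp only at hh
    rw [← sdiff_union_of_subset hV.2, ← sdiff_union_of_subset hV'.2, hh]
  have h2 : ∑ V ∈ Vs.filter (fun V => E ⊆ V), ∏ p ∈ V \ E, gam R p =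
      ∑ W ∈ (Vs.filter (fun V => E ⊆ V)).image (fun V => V \ E), ∏ p ∈ W, gam R p :=
    (sum_image (f := fun W : Finset ℕ => ∏ p ∈ W, gam R p) hinj).symm
  rw [h2]
  calc ∑ W ∈ (Vs.filter (fun V => E ⊆ V)).image (fun V => V \ E), ∏ p ∈ W, gam R p ≤ ∑ W ∈ P.powerset, ∏ p ∈ W, gam R p := by
        apply sum_le_sum_of_subset_of_nonneg
        · intro W hW
          obtain ⟨V, hV, rfl⟩ := mem_image.1 hW
          rw [mem_powerset]
          exact sdiff_subset.trans (h V (mem_filter.1 hV).1)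
        · intro W _ _
          exact hg W
    _ = ∏ p ∈ P, (1 + gam R p) := (prod_one_add P).symm
    _ ≤ ∏ p ∈ P, (1 + (κ : ℝ) / p) := by
        apply prod_le_prod
        · intro p _
          have := gam_nonneg (R := R) p
          linarith
        · intro p hp
          have := gam_le hR p (hP p hp)
          linarith

set_option maxHeartbeats 1000000 in
/-- the moment over a full period -/
theorem mom (hR : PerB R κ) (m T w : ℕ) (P : Finset ℕ) (hP : ∀ p ∈ P, p.Prime ∧ w ≤ p) (hw : 0 < w) (hT : w ≤ T)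
    (v : ℝ) (hv0 : 0 ≤ v) (hv1 : v ≤ 1) (hv : 3 * (κ : ℝ) / w ≤ v ^ 2) (Q0 : ℕ) (hQ0 : 0 < Q0)
    (hco : ∀ p ∈ P, Nat.Coprime Q0 p) (F0 : ℕ → ℝ) (hF0 : Per Q0 F0) (Th : ℝ) (hTh0 : 0 ≤ Th)
    (hTh : ∀ h : Fin m → ℕ, avg Q0 (fun n => ∏ i, |F0 (n + h i)|) ≤ Th)
    (Vs : Finset (Finset ℕ)) (c : Finset ℕ → ℝ) (hVs : ∀ V ∈ Vs, V ⊆ P) (hc : ∀ V, |c V| ≤ 1) :
    avg (Q0 * ∏ p ∈ P, p) (fun n => (∑ x ∈ Icc 1 T, F0 (n + x) * (SV R Vs c (n + x) - MV R Vs c)) ^ m) ≤
      (∏ p ∈ P, (1 + (κ : ℝ) / p)) ^ m * Th * (T ^ m * v ^ m * ∏ p ∈ P, (1 + 4 ^ m * (2 * (κ : ℝ) / p))) := by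
  classical
  set G0 : ℝ := ∏ p ∈ P, (1 + (κ : ℝ) / p) with hG0
  have hG00 : 0 ≤ G0 := prod_nonneg fun p _ => by positivity
  set Es := P.powerset.erase ∅ with hEs
  have hdiff : ∀ x, SV R Vs c x - MV R Vs c = ∑ E ∈ Es, GE R Vs c E * ∏ p ∈ E, eps R p x := by
    intro x
    rw [SV_expand Vs c P hVs x, ← add_sum_erase P.powerset _ (empty_mem_powerset P), GE_empty, prod_empty, mul_one]
    ring
  -- expansion of the power
  have hexp : ∀ n, (∑ x ∈ Icc 1 T, F0 (n + x) * (SV R Vs c (n + x) - MV R Vs c)) ^ m =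
      ∑ h ∈ Hs m T, ∑ E ∈ Fintype.piFinset (fun _ : Fin m => Es), (∏ i, GE R Vs c (E i)) *
        ((∏ i, F0 (n + h i)) * ∏ p ∈ P, ∏ i ∈ Ip E p, eps R p (n + h i)) := by
    intro n
    have e1 : (∑ x ∈ Icc 1 T, F0 (n + x) * (SV R Vs c (n + x) - MV R Vs c)) ^ m =
        ∏ _i : Fin m, ∑ x ∈ Icc 1 T, F0 (n + x) * (SV R Vs c (n + x) - MV R Vs c) := by
      rw [prod_const, card_univ, Fintype.card_fin]
    rw [e1, prod_univ_sum]
    unfold Hs
    apply sum_congr rfl
    intro h _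
    rw [prod_mul_distrib]
    have e2 : ∏ i : Fin m, (SV R Vs c (n + h i) - MV R Vs c) =
        ∑ E ∈ Fintype.piFinset (fun _ : Fin m => Es), ∏ i, (GE R Vs c (E i) * ∏ p ∈ E i, eps R p (n + h i)) := by
      have e5 := prod_univ_sum (fun _ : Fin m => Es) (fun (i : Fin m) (E : Finset ℕ) => GE R Vs c E * ∏ p ∈ E, eps R p (n + h i))
      rw [← e5]
      apply prod_congr rfl
      intro i _
      exact hdiff _
    rw [e2, mul_sum]
    apply sum_congr rfl
    intro E hE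
    rw [prod_mul_distrib]
    have e3 : ∏ i : Fin m, ∏ p ∈ E i, eps R p (n + h i) = ∏ p ∈ P, ∏ i ∈ Ip E p, eps R p (n + h i) := by
      have e4 : ∀ i, ∏ p ∈ E i, eps R p (n + h i) = ∏ p ∈ P, if p ∈ E i then eps R p (n + h i) else 1 := by
        intro i
        rw [← prod_filter]
        apply prod_congr _ fun _ _ => rfl
        ext p
        rw [mem_filter]
        constructor
        · intro hp
          refine ⟨?_, hp⟩
          rw [Fintype.mem_piFinset] at hE
          have := (mem_erase.1 (hE i)).2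
          exact mem_powerset.1 this hp
        · exact fun hp => hp.2
      rw [prod_congr rfl fun i _ => e4 i, prod_comm]
      apply prod_congr rfl
      intro p _
      unfold Ip
      rw [prod_filter]
    rw [e3]
    ring
  have havg : avg (Q0 * ∏ p ∈ P, p) (fun n => (∑ x ∈ Icc 1 T, F0 (n + x) * (SV R Vs c (n + x) - MV R Vs c)) ^ m) =
      ∑ h ∈ Hs m T, ∑ E ∈ Fintype.piFinset (fun _ : Fin m => Es), (∏ i, GE R Vs c (E i)) *
        (avg Q0 (fun n => ∏ i, F0 (n + h i)) * ∏ p ∈ P, avg p (fun n => ∏ i ∈ Ip E p, eps R p (n + h i))) := by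
    rw [funext hexp, avg_sum]
    apply sum_congr rfl
    intro h _
    rw [avg_sum]
    apply sum_congr rfl
    intro E _
    rw [avg_const_mul]
    congr 1
    have h1 : Per Q0 (fun n => ∏ i, F0 (n + h i)) := Per.prod _ fun i _ => hF0.shift (h i)
    exact avg_prod Q0 hQ0 h1 (fun p n => ∏ i ∈ Ip E p, eps R p (n + h i)) P
      (fun p hp => ⟨(hP p hp).1, hco p hp⟩) (fun p _ => Per.prod _ fun i _ => (eps_per hR p).shift (h i))
  rw [havg]
  have hterm : ∀ h ∈ Hs m T, ∀ E ∈ Fintype.piFinset (fun _ : Fin m => Es), (∏ i, GE R Vs c (E i)) *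
        (avg Q0 (fun n => ∏ i, F0 (n + h i)) * ∏ p ∈ P, avg p (fun n => ∏ i ∈ Ip E p, eps R p (n + h i))) ≤
      G0 ^ m * Th * ∏ p ∈ P, (if p ∈ P then beta R m p h (Ip E p) else 1) := by
    intro h _ E _
    refine (le_abs_self _).trans ?_
    rw [abs_mul, abs_mul, abs_prod, abs_prod]
    have h1 : ∏ i, |GE R Vs c (E i)| ≤ G0 ^ m := by
      calc ∏ i, |GE R Vs c (E i)| ≤ ∏ _i : Fin m, G0 :=
            prod_le_prod (fun _ _ => abs_nonneg _) fun i _ => GE_abs hR Vs c P hVs (fun p hp => (hP p hp).1) hc (E i)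
        _ = G0 ^ m := by rw [prod_const, card_univ, Fintype.card_fin]
    have h2 : |avg Q0 (fun n => ∏ i, F0 (n + h i))| ≤ Th := by
      refine (avg_abs _).trans ?_
      simp only [abs_prod]
      exact hTh h
    have h3 : ∏ p ∈ P, |avg p (fun n => ∏ i ∈ Ip E p, eps R p (n + h i))| =
        ∏ p ∈ P, (if p ∈ P then beta R m p h (Ip E p) else 1) := by
      apply prod_congr rfl
      intro p hp
      rw [if_pos hp]
      rfl
    rw [h3]
    have h4 : 0 ≤ ∏ p ∈ P, (if p ∈ P then beta R m p h (Ip E p) else 1) := by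
      rw [← h3]
      exact prod_nonneg fun _ _ => abs_nonneg _
    rw [mul_assoc]
    exact mul_le_mul h1 (mul_le_mul_of_nonneg_right h2 h4) (mul_nonneg (abs_nonneg _) h4) (pow_nonneg hG00 m)
  have hfam : ∀ h : Fin m → ℕ, ∑ E ∈ Fintype.piFinset (fun _ : Fin m => Es), ∏ p ∈ P, (if p ∈ P then beta R m p h (Ip E p) else 1) =
      AA (fun p h I => if p ∈ P then beta R m p h I else 1) P univ h := by
    intro h
    unfold AA
    apply sum_congr _ fun _ _ => rfl
    ext E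
    rw [Fintype.mem_piFinset, mem_filter, Fintype.mem_piFinset]
    constructor
    · intro h1
      refine ⟨fun i => (mem_erase.1 (h1 i)).2, ?_⟩
      ext i
      simp only [Su, mem_filter, mem_univ, true_and, iff_true]
      exact nonempty_of_ne_empty (mem_erase.1 (h1 i)).1
    · rintro ⟨h1, h2⟩ i
      rw [hEs, mem_erase]
      refine ⟨?_, h1 i⟩
      have : i ∈ Su E := by rw [h2]; exact mem_univ _
      simp only [Su, mem_filter, mem_univ, true_and] at this
      exact this.ne_empty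
  calc _ ≤ ∑ h ∈ Hs m T, ∑ E ∈ Fintype.piFinset (fun _ : Fin m => Es),
        G0 ^ m * Th * ∏ p ∈ P, (if p ∈ P then beta R m p h (Ip E p) else 1) :=
        sum_le_sum fun h hh => sum_le_sum fun E hE => hterm h hh E hE
    _ = G0 ^ m * Th * ∑ h ∈ Hs m T, AA (fun p h I => if p ∈ P then beta R m p h I else 1) P univ h := by
        rw [mul_sum]
        apply sum_congr rfl
        intro h _
        rw [← mul_sum, hfam h]
    _ ≤ _ := by
        apply mul_le_mul_of_nonneg_left _ (by positivity)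
        exact comb_beta hR m T w P hP hw hT v hv0 hv1 hv

end Pool.Agent.H36.LH
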