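import Mathlib
import Pool.Agent.H36.LH.Mom
import Pool.Agent.H36.LH.MeanG
import Pool.Agent.H36.KT.Lab

/-!
The sieve functions for general residue classes.
-/

set_option autoImplicit false

open Finset

namespace Pool.Agent.H36.LH

open Pool.Agent.Helper112.LP Pool.Agent.Helper112.LP.Kba Pool.Agent.Helper112.LP.Kbh
open Pool.Agent.H483R2.BHKD Pool.Agent.H20R2.FL Pool.Agent.H36.RW Pool.Agent.H373R2.T7 Pool.Agent.H36.BF
open Pool.Agent.H36.KT

/-- coefficients -/
noncomputable def cf {J : ℕ} (C : Fin J → Finset ℕ → ℝ) (V : Finset ℕ) : ℝ := ∏ i, C i (grp J V i)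

lemma cf_abs {J : ℕ} (C : Fin J → Finset ℕ → ℝ) (hC : ∀ i V, |C i V| ≤ 1) (V : Finset ℕ) : |cf C V| ≤ 1 := by
  unfold cf
  rw [abs_prod]
  exact prod_le_one (fun _ _ => abs_nonneg _) (fun i _ => hC i _)

open Classical in
/-- the product of the primes whose classes contain `x` -/
noncomputable def pr (R : ℕ → ℕ → Prop) (P : Finset ℕ) (x : ℕ) : ℕ := ∏ p ∈ P.filter (fun p => R p x), p

variable {R : ℕ → ℕ → Prop} {κ : ℕ}

lemma dvd_pr (P : Finset ℕ) (hP : ∀ p ∈ P, p.Prime) (x : ℕ) {p : ℕ} (hp : p ∈ P) : p ∣ pr R P x ↔ R p x := by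
  classical
  unfold pr
  constructor
  · intro h
    rw [Prime.dvd_finsetProd_iff (hP p hp).prime] at h
    obtain ⟨q, hq, h1⟩ := h
    rw [mem_filter] at hq
    have : p = q := (Nat.prime_dvd_prime_iff_eq (hP p hp) (hP q hq.1)).1 h1
    rw [this]
    exact hq.2
  · intro h
    exact dvd_prod_of_mem (fun p => p) (mem_filter.2 ⟨hp, h⟩)

lemma ind_prod (V : Finset ℕ) (x : ℕ) [Decidable (∀ p ∈ V, R p x)] :
    ∏ p ∈ V, ind R p x = if ∀ p ∈ V, R p x then 1 else 0 := by
  classical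
  unfold ind
  rw [Finset.prod_ite_zero, prod_const_one]
  congr

variable (b J : ℕ) (P : Finset ℕ)

lemma VV_sub {V : Finset ℕ} (hV : V ∈ VV b J P) : V ⊆ P := by
  obtain ⟨T, hT, rfl⟩ := (mem_VV b J P).1 hV
  exact UU_bhU b J P hT

open Classical in
/-- the sieve functions of the product -/
lemma SV_GG (hP : ∀ p ∈ P, p.Prime) (C : Fin J → Finset ℕ → ℝ) (x : ℕ) :
    SV R (VV b J P) (cf C) x = GG (FF b J P) C (pr R P x) := by
  unfold SV
  have h1 : ∀ V ∈ VV b J P, cf C V * ∏ p ∈ V, ind R p x = if ∀ p ∈ V, p ∣ pr R P x then cf C V else 0 := by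
    intro V hV
    rw [ind_prod]
    have h2 : (∀ p ∈ V, R p x) ↔ ∀ p ∈ V, p ∣ pr R P x := by
      constructor
      · exact fun h p hp => (dvd_pr P hP x (VV_sub b J P hV hp)).2 (h p hp)
      · exact fun h p hp => (dvd_pr P hP x (VV_sub b J P hV hp)).1 (h p hp)
    by_cases h3 : ∀ p ∈ V, R p x
    · rw [if_pos h3, if_pos (h2.1 h3), mul_one]
    · rw [if_neg h3, if_neg (fun h => h3 (h2.2 h)), mul_zero]
  rw [sum_congr rfl h1, sum_VV]
  unfold GG
  rw [prod_univ_sum]
  apply sum_congr rfl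
  intro T hT
  rw [Fintype.prod_ite_zero]
  by_cases h : ∀ p ∈ bhU T, p ∣ pr R P x
  · rw [if_pos h, if_pos ((all_bhU T (fun l => l ∣ pr R P x)).2 h)]
    unfold cf
    rw [grp_bhU b J P hT]
  · rw [if_neg h, if_neg (fun h' => h ((all_bhU T (fun l => l ∣ pr R P x)).1 h'))]

lemma MV_wg (C : Fin J → Finset ℕ → ℝ) : MV R (VV b J P) (cf C) = wg (gam R) (FF b J P) C := by
  unfold MV
  rw [sum_VV]
  unfold wg
  rw [prod_univ_sum]
  apply sum_congr rfl
  intro T hT
  unfold cf
  rw [grp_bhU b J P hT, prod_mul_distrib, bh_pT_eq T (UU_G b J P hT) (gam R)]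

open Classical in
/-- the sieve inequalities -/
theorem sieve_R (hP : ∀ p ∈ P, p.Prime ∧ 12 < p ∧ p ≤ 2 ^ 2 ^ J) (x : ℕ) :
    (if ∀ p ∈ P, ¬ R p x then (1 : ℝ) else 0) ≤ SV R (VV b J P) (cf (cU b J)) x ∧
    SV R (VV b J P) (cf (cU b J)) x - ∑ k, SV R (VV b J P) (cf (cK b J k)) x ≤
      (if ∀ p ∈ P, ¬ R p x then (1 : ℝ) else 0) := by
  have hP1 : ∀ p ∈ P, p.Prime := fun p hp => (hP p hp).1
  have h := sieve_ptw b J P hP (pr R P x)
  have h2 : (∀ p ∈ P, ¬ R p x) ↔ ∀ p ∈ P, ¬ p ∣ pr R P x := by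
    constructor
    · exact fun h p hp h1 => h p hp ((dvd_pr P hP1 x hp).1 h1)
    · exact fun h p hp h1 => h p hp ((dvd_pr P hP1 x hp).2 h1)
  rw [SV_GG b J P hP1]
  simp only [SV_GG b J P hP1]
  by_cases h3 : ∀ p ∈ P, ¬ R p x
  · rw [if_pos h3]
    rw [if_pos (h2.1 h3)] at h
    exact h
  · rw [if_neg h3]
    rw [if_neg (fun h' => h3 (h2.2 h'))] at h
    exact h

lemma VV_level {V : Finset ℕ} (hV : V ∈ VV b J P) (hb : 1 ≤ b) :
    ∏ p ∈ V, p ≤ (2 ^ 2 ^ J) ^ (10 * b) := by
  obtain ⟨T, hT, rfl⟩ := (mem_VV b J P).1 hV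
  have h3 := bh_level T (UU_G b J P hT) (b0 := 2 * b) (fun i => by
    have := UU_card b J P hT i
    unfold bb at this
    exact this)
  refine h3.trans ?_
  apply Nat.pow_le_pow_right (by positivity)
  omega

lemma VV_card (hP : ∀ p ∈ P, p.Prime) (hb : 1 ≤ b) : (VV b J P).card ≤ (2 ^ 2 ^ J) ^ (10 * b) := by
  classical
  unfold VV
  exact card_image_le.trans (UU_cardU b J P hb hP)

variable {b J P}

/-- bound of the sieve functions by a product -/
lemma SV_abs (Vs : Finset (Finset ℕ)) (c : Finset ℕ → ℝ) (hc : ∀ V, |c V| ≤ 1) (hV : ∀ V ∈ Vs, V ⊆ P) (x : ℕ) :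
    |SV R Vs c x| ≤ ∏ p ∈ P, (1 + ind R p x) := by
  classical
  unfold SV
  refine (abs_sum_le_sum_abs _ _).trans ?_
  have hg : ∀ W : Finset ℕ, 0 ≤ ∏ p ∈ W, ind R p x := fun W => prod_nonneg fun p _ => ind_nonneg p x
  rw [prod_one_add]
  calc ∑ V ∈ Vs, |c V * ∏ p ∈ V, ind R p x| ≤ ∑ V ∈ Vs, ∏ p ∈ V, ind R p x := by
        apply sum_le_sum
        intro V _
        rw [abs_mul, abs_of_nonneg (hg V)]
        exact mul_le_of_le_one_left (hg V) (hc V)
    _ ≤ ∑ V ∈ P.powerset, ∏ p ∈ V, ind R p x := by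
        apply sum_le_sum_of_subset_of_nonneg
        · intro V h
          exact mem_powerset.2 (hV V h)
        · intro V _ _
          exact hg V

/-- averages of products of the sieve functions -/
lemma SV_corr (hR : PerB R κ) (Vs : Finset (Finset ℕ)) (c : Finset ℕ → ℝ) (hc : ∀ V, |c V| ≤ 1) (hV : ∀ V ∈ Vs, V ⊆ P)
    (hP : ∀ p ∈ P, p.Prime) (Qt : ℕ) (hQt : 0 < Qt) (τ : ℕ → ℝ) (hτ : ∀ n, |τ n| ≤ 1) (m : ℕ) (h : Fin m → ℕ) :
    avg (Qt * ∏ p ∈ P, p) (fun n => ∏ i, |τ (n + h i) * SV R Vs c (n + h i)|) ≤ ∏ p ∈ P, (1 + 2 ^ m * m * ((κ : ℝ) / p)) := by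
  classical
  have hQ1 : 0 < ∏ p ∈ P, p := prod_pos fun p hp => (hP p hp).pos
  set G : ℕ → ℕ → ℝ := fun p n => ∏ i, (1 + ind R p (n + h i)) with hG
  have hGper : ∀ p, Per p (G p) := by
    intro p
    apply Per.prod
    intro i _ n
    have := ((ind_per hR p).shift (h i)) n
    simp only at this ⊢
    rw [this]
  have h1 : ∀ n, ∏ i, |τ (n + h i) * SV R Vs c (n + h i)| ≤ ∏ p ∈ P, G p n := by
    intro n
    rw [hG]
    simp only
    rw [prod_comm]
    apply prod_le_prod (fun _ _ => abs_nonneg _)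
    intro i _
    rw [abs_mul]
    have h2 := SV_abs (P := P) (R := R) Vs c hc hV (n + h i)
    calc |τ (n + h i)| * |SV R Vs c (n + h i)| ≤ 1 * |SV R Vs c (n + h i)| :=
          mul_le_mul_of_nonneg_right (hτ _) (abs_nonneg _)
      _ ≤ _ := by rw [one_mul]; exact h2
  refine (avg_mono h1).trans ?_
  have h2 : Per (∏ p ∈ P, p) (fun n => ∏ p ∈ P, G p n) :=
    Per.prod _ fun p hp => (hGper p).dvd (dvd_prod_of_mem _ hp)
  rw [avg_dvd h2 (dvd_mul_left _ _) (Nat.mul_pos hQt hQ1)]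
  have h3 := avg_prod 1 one_pos (F := fun _ => 1) (per_const 1 1) G P (fun p hp => ⟨hP p hp, Nat.coprime_one_left p⟩)
    (fun p _ => hGper p)
  simp only [one_mul] at h3
  rw [h3, avg_const one_pos, one_mul]
  apply prod_le_prod
  · intro p _
    apply avg_nonneg
    intro n
    apply prod_nonneg
    intro i _
    have := ind_nonneg (R := R) p (n + h i)
    linarith
  · intro p hp
    have hp0 : (0 : ℝ) < p := by exact_mod_cast (hP p hp).pos
    -- pointwise
    have h4 : ∀ n, G p n ≤ 1 + 2 ^ m * ∑ i, ind R p (n + h i) := by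
      intro n
      by_cases h5 : ∀ i, ind R p (n + h i) = 0
      · rw [hG]
        simp only [h5]
        simp
      · push Not at h5
        obtain ⟨i0, hi0⟩ := h5
        have h6 : ind R p (n + h i0) = 1 := by
          unfold ind at hi0 ⊢
          split_ifs at hi0 ⊢ with h7
          · rfl
          · exact absurd rfl hi0
        have h7 : (1 : ℝ) ≤ ∑ i, ind R p (n + h i) := by
          rw [← h6]
          exact single_le_sum (f := fun i => ind R p (n + h i)) (fun i _ => ind_nonneg p _) (mem_univ i0)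
        have h8 : G p n ≤ 2 ^ m := by
          calc G p n ≤ ∏ _i : Fin m, (2 : ℝ) := by
                apply prod_le_prod
                · intro i _
                  have := ind_nonneg (R := R) p (n + h i)
                  linarith
                · intro i _
                  have := ind_le_one (R := R) p (n + h i)
                  linarith
            _ = 2 ^ m := by rw [prod_const, card_univ, Fintype.card_fin]
        have h9 : (2 : ℝ) ^ m * 1 ≤ 2 ^ m * ∑ i, ind R p (n + h i) := mul_le_mul_of_nonneg_left h7 (by positivity)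
        linarith
    refine (avg_mono h4).trans ?_
    have h5 : avg p (fun n => 1 + 2 ^ m * ∑ i, ind R p (n + h i)) = 1 + 2 ^ m * (m * gam R p) := by
      have e1 : avg p (fun n => 1 + 2 ^ m * ∑ i, ind R p (n + h i)) =
          avg p (fun _ => 1) + avg p (fun n => 2 ^ m * ∑ i, ind R p (n + h i)) := by
        unfold avg
        rw [sum_add_distrib, add_div]
      rw [e1, avg_const (hP p hp).pos, avg_const_mul, avg_sum]
      congr 2
      have e2 : ∀ i : Fin m, avg p (fun n => ind R p (n + h i)) = gam R p := by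
        intro i
        rw [avg_shift (ind_per hR p) (h i), avg_ind]
      rw [sum_congr rfl fun i _ => e2 i, sum_const, card_univ, Fintype.card_fin, nsmul_eq_mul]
    rw [h5]
    have h6 := gam_le hR p (hP p hp)
    have h7 : 2 ^ m * (m * gam R p) ≤ 2 ^ m * (m * ((κ : ℝ) / p)) := by gcongr
    linarith

/-- mean of a sieve function with an independent weight -/
lemma SV_mean (hR : PerB R κ) (Vs : Finset (Finset ℕ)) (c : Finset ℕ → ℝ) (hV : ∀ V ∈ Vs, V ⊆ P)
    (hP : ∀ p ∈ P, p.Prime) (Qt : ℕ) (hQt : 0 < Qt) (hco : ∀ p ∈ P, Nat.Coprime Qt p) (τ : ℕ → ℝ) (hτ : Per Qt τ) :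
    avg (Qt * ∏ p ∈ P, p) (fun n => τ n * SV R Vs c n) = avg Qt τ * MV R Vs c := by
  classical
  have h1 : (fun n => τ n * SV R Vs c n) = fun n => ∑ V ∈ Vs, c V * (τ n * ∏ p ∈ P, if p ∈ V then ind R p n else 1) := by
    funext n
    unfold SV
    rw [mul_sum]
    apply sum_congr rfl
    intro V h
    have h2 : ∏ p ∈ V, ind R p n = ∏ p ∈ P, if p ∈ V then ind R p n else 1 := by
      rw [← prod_filter]
      apply prod_congr _ fun _ _ => rfl
      ext p
      rw [mem_filter]
      exact ⟨fun hp => ⟨hV V h hp, hp⟩, fun hp => hp.2⟩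
    rw [h2]
    ring
  rw [h1, avg_sum]
  unfold MV
  rw [mul_sum]
  apply sum_congr rfl
  intro V h
  rw [avg_const_mul, avg_prod Qt hQt hτ (fun p n => if p ∈ V then ind R p n else 1) P
    (fun p hp => ⟨hP p hp, hco p hp⟩) (by
      intro p _ n
      by_cases h2 : p ∈ V
      · simp only [if_pos h2]
        exact ind_per hR p n
      · simp only [if_neg h2])]
  have h3 : ∏ p ∈ P, avg p (fun n => if p ∈ V then ind R p n else 1) = ∏ p ∈ V, gam R p := by
    have h4 : ∀ p ∈ P, avg p (fun n => if p ∈ V then ind R p n else 1) = if p ∈ V then gam R p else 1 := by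
      intro p hp
      by_cases h2 : p ∈ V
      · simp only [if_pos h2]
        exact avg_ind p
      · simp only [if_neg h2]
        exact avg_const (hP p hp).pos 1
    rw [prod_congr rfl h4, ← prod_filter]
    apply prod_congr _ fun _ _ => rfl
    ext p
    rw [mem_filter]
    exact ⟨fun hp => hp.2, fun hp => ⟨hV V h hp, hp⟩⟩
  rw [h3]
  ring

end Pool.Agent.H36.LH
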