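import Mathlib
import Pool.Agent.H36.LH.Sv

/-!
Closure properties of combinations of functions with small periods.
-/

set_option autoImplicit false

open Finset

namespace Pool.Agent.H36.LH

open Pool.Agent.H373R2.T7

lemma Sm.mono {Q D D' : ℕ} {B B' : ℝ} {f : ℕ → ℝ} (hf : Sm Q D B f) (hD : D ≤ D') (hB : B ≤ B') : Sm Q D' B' f := by
  obtain ⟨ι, i0, c, φ, q, h1, h2, h3⟩ := hf
  refine ⟨ι, i0, c, φ, q, fun i => ?_, h2.trans hB, h3⟩
  obtain ⟨a1, a2, a3, a4, a5⟩ := h1 i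
  exact ⟨a1, a2, a3.trans hD, a4, a5⟩

lemma Sm.shift {Q D : ℕ} {B : ℝ} {f : ℕ → ℝ} (hf : Sm Q D B f) (a : ℕ) : Sm Q D B (fun n => f (n + a)) := by
  obtain ⟨ι, i0, c, φ, q, h1, h2, h3⟩ := hf
  refine ⟨ι, i0, c, fun i n => φ i (n + a), q, fun i => ?_, h2, fun n => h3 (n + a)⟩
  obtain ⟨a1, a2, a3, a4, a5⟩ := h1 i
  exact ⟨a1, a2, a3, a4.shift a, fun n => a5 (n + a)⟩

lemma Sm.add {Q D : ℕ} {B B' : ℝ} {f g : ℕ → ℝ} (hf : Sm Q D B f) (hg : Sm Q D B' g) :
    Sm Q D (B + B') (fun n => f n + g n) := by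
  obtain ⟨ι, i0, c, φ, q, h1, h2, h3⟩ := hf
  obtain ⟨ι', i0', c', φ', q', h1', h2', h3'⟩ := hg
  refine ⟨ι ⊕ ι', inferInstance, Sum.elim c c', Sum.elim φ φ', Sum.elim q q', ?_, ?_, ?_⟩
  · rintro (i | i)
    · exact h1 i
    · exact h1' i
  · rw [Fintype.sum_sum_type]
    simp only [Sum.elim_inl, Sum.elim_inr]
    exact add_le_add h2 h2'
  · intro n
    rw [Fintype.sum_sum_type]
    simp only [Sum.elim_inl, Sum.elim_inr]
    rw [h3 n, h3' n]

lemma Sm.zero (Q D : ℕ) : Sm Q D 0 (fun _ => 0) := by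
  refine ⟨Empty, inferInstance, fun x => x.elim, fun x => x.elim, fun x => x.elim, fun x => x.elim, ?_, ?_⟩
  · simp
  · intro n; simp

lemma Sm.sum {ι : Type} {Q D : ℕ} {B : ℝ} (s : Finset ι) (f : ι → ℕ → ℝ) (h : ∀ i ∈ s, Sm Q D B (f i)) :
    Sm Q D (s.card * B) (fun n => ∑ i ∈ s, f i n) := by
  classical
  induction s using Finset.induction_on with
  | empty => simpa using Sm.zero Q D
  | insert i s hi ih =>
    have h1 := ih fun j hj => h j (mem_insert_of_mem hj)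
    have h2 := (h i (mem_insert_self _ _)).add h1
    have e1 : B + s.card * B = ((insert i s).card : ℝ) * B := by
      rw [card_insert_of_notMem hi]
      push_cast
      ring
    rw [e1] at h2
    have e2 : (fun n => ∑ j ∈ insert i s, f j n) = fun n => f i n + ∑ j ∈ s, f j n := by
      funext n
      rw [sum_insert hi]
    rw [e2]
    exact h2

lemma sm_per {Q D q : ℕ} {f : ℕ → ℝ} (hq : 0 < q) (hqQ : q ∣ Q) (hqD : q ≤ D) (hf : Per q f) (h1 : ∀ n, |f n| ≤ 1) :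
    Sm Q D 1 f := by
  refine ⟨Unit, inferInstance, fun _ => 1, fun _ => f, fun _ => q, fun _ => ⟨hqQ, hq, hqD, hf, h1⟩, ?_, ?_⟩
  · simp
  · intro n; simp

lemma sm_const {Q D : ℕ} (c : ℝ) (hD : 1 ≤ D) : Sm Q D |c| (fun _ => c) := by
  refine ⟨Unit, inferInstance, fun _ => c, fun _ _ => 1, fun _ => 1,
    fun _ => ⟨one_dvd _, one_pos, hD, per_const _ _, fun n => by simp⟩, ?_, ?_⟩
  · simp
  · intro n; simp

variable {R : ℕ → ℕ → Prop} {κ : ℕ}

lemma sm_SV (hR : PerB R κ) {Q D : ℕ} (Vs : Finset (Finset ℕ)) (c : Finset ℕ → ℝ) (hc : ∀ V, |c V| ≤ 1)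
    (h : ∀ V ∈ Vs, ∏ p ∈ V, p ∣ Q ∧ 0 < ∏ p ∈ V, p ∧ ∏ p ∈ V, p ≤ D) : Sm Q D Vs.card (SV R Vs c) := by
  classical
  refine ⟨Vs, inferInstance, fun V => c V, fun V n => ∏ p ∈ (V : Finset ℕ), ind R p n, fun V => ∏ p ∈ (V : Finset ℕ), p, ?_, ?_, ?_⟩
  · rintro ⟨V, hV⟩
    obtain ⟨h1, h2, h3⟩ := h V hV
    refine ⟨h1, h2, h3, ?_, ?_⟩
    · exact Per.prod _ fun p hp => (ind_per hR p).dvd (dvd_prod_of_mem _ hp)
    · intro n
      simp only
      rw [abs_prod]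
      apply prod_le_one (fun _ _ => abs_nonneg _)
      intro p _
      rw [abs_of_nonneg (ind_nonneg p n)]
      exact ind_le_one p n
  · calc ∑ i : Vs, |c (i : Finset ℕ)| ≤ ∑ _i : Vs, (1 : ℝ) := sum_le_sum fun i _ => hc _
      _ = Vs.card := by rw [sum_const, card_univ, Fintype.card_coe]; simp
  · intro n
    unfold SV
    exact (sum_coe_sort Vs (fun V => c V * ∏ p ∈ V, ind R p n)).symm

/-- the exact indicator for few primes -/
noncomputable def tau (R : ℕ → ℕ → Prop) (Pt : Finset ℕ) (x : ℕ) : ℝ := ∏ p ∈ Pt, (1 - ind R p x)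

lemma tau_nonneg (Pt : Finset ℕ) (x : ℕ) : 0 ≤ tau R Pt x := by
  unfold tau
  apply prod_nonneg
  intro p _
  have := ind_le_one (R := R) p x
  linarith

lemma tau_le_one (Pt : Finset ℕ) (x : ℕ) : tau R Pt x ≤ 1 := by
  unfold tau
  apply prod_le_one
  · intro p _
    have := ind_le_one (R := R) p x
    linarith
  · intro p _
    have := ind_nonneg (R := R) p x
    linarith

open Classical in
lemma tau_ite (Pt : Finset ℕ) (x : ℕ) : tau R Pt x = if ∀ p ∈ Pt, ¬ R p x then 1 else 0 := by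
  unfold tau
  have h1 : ∀ p ∈ Pt, 1 - ind R p x = if ¬ R p x then 1 else 0 := by
    intro p _
    unfold ind
    by_cases h : R p x
    · rw [if_pos h, if_neg (not_not.2 h)]
      ring
    · rw [if_neg h, if_pos h]
      ring
  rw [prod_congr rfl h1, Finset.prod_ite_zero, prod_const_one]

lemma tau_per (hR : PerB R κ) (Pt : Finset ℕ) : Per (∏ p ∈ Pt, p) (tau R Pt) := by
  unfold tau
  exact Per.prod _ fun p hp => ((ind_per hR p).comp (fun x => 1 - x)).dvd (dvd_prod_of_mem _ hp)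

lemma tau_avg (hR : PerB R κ) (Pt : Finset ℕ) (hP : ∀ p ∈ Pt, p.Prime) : avg (∏ p ∈ Pt, p) (tau R Pt) = Wg (gam R) Pt := by
  have h3 := avg_prod 1 one_pos (F := fun _ => 1) (per_const 1 1) (fun p n => 1 - ind R p n) Pt
    (fun p hp => ⟨hP p hp, Nat.coprime_one_left p⟩)
    (fun p _ => (ind_per hR p).comp (fun x => 1 - x))
  simp only [one_mul] at h3
  unfold tau Wg
  rw [h3, avg_const one_pos, one_mul]
  apply prod_congr rfl
  intro p hp
  have e1 : avg p (fun n => 1 - ind R p n) = avg p (fun _ => 1) - avg p (ind R p) := by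
    unfold avg
    rw [sum_sub_distrib, sub_div]
  rw [e1, avg_const (hP p hp).pos, avg_ind]

lemma sum_Icc_Ioc (f : ℕ → ℝ) (n T : ℕ) : ∑ x ∈ Icc 1 T, f (n + x) = ∑ y ∈ Ioc n (n + T), f y := by
  rw [sum_Ioc_eq, sum_Icc_range T (fun x => f (n + x))]
  apply sum_congr rfl
  intro i _
  congr 1
  ring

end Pool.Agent.H36.LH
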