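import Mathlib
import Pool.Agent.H36.LH.SmL

/-!
The number of windows with a large deviation, for one and for all pairs of sieve functions.
-/

set_option autoImplicit false

open Finset

namespace Pool.Agent.H36.LH

open Pool.Agent.Helper112.LP Pool.Agent.Helper112.LP.Kba Pool.Agent.Helper112.LP.Kbh
open Pool.Agent.H483R2.BHKD Pool.Agent.H20R2.FL Pool.Agent.H36.RW Pool.Agent.H373R2.T7 Pool.Agent.H36.BF
open Pool.Agent.H36.KT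

variable {R : ℕ → ℕ → Prop} {κ : ℕ}

/-- the fluctuation -/
noncomputable def Fl (R : ℕ → ℕ → Prop) (Pt : Finset ℕ) (T : ℕ) (Vs1 : Finset (Finset ℕ)) (c1 : Finset ℕ → ℝ)
    (Vs2 : Finset (Finset ℕ)) (c2 : Finset ℕ → ℝ) (n : ℕ) : ℝ :=
  ∑ x ∈ Icc 1 T, (tau R Pt (n + x) * SV R Vs1 c1 (n + x)) * (SV R Vs2 c2 (n + x) - MV R Vs2 c2)

/-- sizes -/
structure Sz (κ : ℕ) (Pt P1 P2 : Finset ℕ) (w L1 L2 : ℕ) (Vs1 Vs2 : Finset (Finset ℕ)) : Prop where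
  pt : ∀ p ∈ Pt, p.Prime
  p1 : ∀ p ∈ P1, p.Prime
  p2 : ∀ p ∈ P2, p.Prime ∧ w ≤ p
  d01 : Disjoint Pt P1
  d02 : Disjoint Pt P2
  d12 : Disjoint P1 P2
  s1 : ∀ V ∈ Vs1, V ⊆ P1
  s2 : ∀ V ∈ Vs2, V ⊆ P2
  l1 : ∀ V ∈ Vs1, ∏ p ∈ V, p ≤ L1
  l2 : ∀ V ∈ Vs2, ∏ p ∈ V, p ≤ L2
  n1 : Vs1.card ≤ L1
  n2 : Vs2.card ≤ L2
  L1p : 1 ≤ L1
  L2p : 1 ≤ L2

lemma coprime_prods {P P' : Finset ℕ} (hP : ∀ p ∈ P, p.Prime) {p : ℕ} (hp : p.Prime) (hpP : p ∉ P) :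
    Nat.Coprime (∏ q ∈ P, q) p := by
  apply Nat.Coprime.prod_left
  intro q hq
  rw [Nat.coprime_primes (hP q hq) hp]
  rintro rfl
  exact hpP hq

/-- one pair of sieve functions -/
theorem fl_bound (hR : PerB R κ) (k T w N X : ℕ) (Pt P1 P2 : Finset ℕ) (L1 L2 : ℕ) (Vs1 Vs2 : Finset (Finset ℕ))
    (hS : Sz κ Pt P1 P2 w L1 L2 Vs1 Vs2) (c1 c2 : Finset ℕ → ℝ) (hc1 : ∀ V, |c1 V| ≤ 1) (hc2 : ∀ V, |c2 V| ≤ 1)
    (hM : |MV R Vs2 c2| ≤ 2) (hw : 0 < w) (hwκ : 3 * κ ≤ w) (hT : w ≤ T) (t : ℝ) (ht : 0 ≤ t) :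
    (((Ioc N (N + X)).filter (fun n => t < |Fl R Pt T Vs1 c1 Vs2 c2 n|)).card : ℝ) * t ^ (2 * k) ≤
      X * ((∏ p ∈ P2, (1 + (κ : ℝ) / p)) ^ (2 * k) * (∏ p ∈ P1, (1 + 2 ^ (2 * k) * (2 * k : ℕ) * ((κ : ℝ) / p))) *
        (T ^ (2 * k) * (3 * (κ : ℝ) / w) ^ k * ∏ p ∈ P2, (1 + 4 ^ (2 * k) * (2 * (κ : ℝ) / p)))) +
      2 * ((((∏ p ∈ Pt, p) * L1 * L2 : ℕ) : ℝ)) ^ (2 * k) * (T * (L1 * (L2 + 2))) ^ (2 * k) := by
  classical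
  set Qt := ∏ p ∈ Pt, p with hQt
  have hQt0 : 0 < Qt := prod_pos fun p hp => (hS.pt p hp).pos
  have hQ10 : 0 < ∏ p ∈ P1, p := prod_pos fun p hp => (hS.p1 p hp).pos
  have hQ20 : 0 < ∏ p ∈ P2, p := prod_pos fun p hp => (hS.p2 p hp).1.pos
  set Q0 := Qt * ∏ p ∈ P1, p with hQ0
  have hQ00 : 0 < Q0 := Nat.mul_pos hQt0 hQ10
  set Q := Q0 * ∏ p ∈ P2, p with hQ
  have hQpos : 0 < Q := Nat.mul_pos hQ00 hQ20
  set F0 : ℕ → ℝ := fun n => tau R Pt n * SV R Vs1 c1 n with hF0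
  have hSV1per : Per (∏ p ∈ P1, p) (SV R Vs1 c1) := by
    unfold SV
    apply Per.sum
    intro V hV
    apply (per_const _ _).mul
    apply Per.prod
    intro p hp
    exact (ind_per hR p).dvd (dvd_prod_of_mem _ (hS.s1 V hV hp))
  have hF0per : Per Q0 F0 := ((tau_per hR Pt).dvd (dvd_mul_right _ _)).mul (hSV1per.dvd (dvd_mul_left _ _))
  have hco : ∀ p ∈ P2, Nat.Coprime Q0 p := by
    intro p hp
    apply Nat.Coprime.mul_left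
    · exact coprime_prods (P' := P1) hS.pt (hS.p2 p hp).1 fun h => disjoint_left.1 hS.d02 h hp
    · exact coprime_prods (P' := P1) hS.p1 (hS.p2 p hp).1 fun h => disjoint_left.1 hS.d12 h hp
  have hτ1 : ∀ n, |tau R Pt n| ≤ 1 := fun n => by
    rw [abs_of_nonneg (tau_nonneg Pt n)]
    exact tau_le_one Pt n
  have hw0 : (0 : ℝ) < w := by exact_mod_cast hw
  set v : ℝ := Real.sqrt (3 * (κ : ℝ) / w) with hv
  have hv2 : v ^ 2 = 3 * (κ : ℝ) / w := Real.sq_sqrt (by positivity)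
  have hv0 : 0 ≤ v := Real.sqrt_nonneg _
  have hv1 : v ≤ 1 := by
    rw [hv]
    refine Real.sqrt_le_iff.2 ⟨zero_le_one, ?_⟩
    rw [one_pow, div_le_one hw0]
    exact_mod_cast hwκ
  have key := mom hR (2 * k) T w P2 hS.p2 hw hT v hv0 hv1 hv2.ge Q0 hQ00 hco F0 hF0per
    (∏ p ∈ P1, (1 + 2 ^ (2 * k) * (2 * k : ℕ) * ((κ : ℝ) / p))) (prod_nonneg fun p _ => by positivity)
    (fun h => SV_corr hR Vs1 c1 hc1 hS.s1 hS.p1 Qt hQt0 (tau R Pt) hτ1 (2 * k) h) Vs2 c2 hS.s2 hc2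
  rw [pow_mul v 2 k, hv2] at key
  -- small periods
  have hSm : Sm Q (Qt * L1 * L2) (T * (L1 * (L2 + 2))) (Fl R Pt T Vs1 c1 Vs2 c2) := by
    have hD1 : 1 ≤ Qt * L1 * L2 := Nat.mul_pos (Nat.mul_pos hQt0 hS.L1p) hS.L2p
    have s0 : Sm Q Qt 1 (tau R Pt) := sm_per hQt0 (by
      rw [hQ, hQ0, mul_assoc]
      exact dvd_mul_right _ _) le_rfl (tau_per hR Pt) hτ1
    have s1 : Sm Q L1 Vs1.card (SV R Vs1 c1) := sm_SV hR Vs1 c1 hc1 (by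
      intro V hV
      refine ⟨?_, prod_pos fun p hp => (hS.p1 p (hS.s1 V hV hp)).pos, hS.l1 V hV⟩
      have : ∏ p ∈ V, p ∣ ∏ p ∈ P1, p := prod_dvd_prod_of_subset _ _ _ (hS.s1 V hV)
      exact (this.mul_left Qt).mul_right _)
    have s2 : Sm Q L2 Vs2.card (SV R Vs2 c2) := sm_SV hR Vs2 c2 hc2 (by
      intro V hV
      refine ⟨?_, prod_pos fun p hp => (hS.p2 p (hS.s2 V hV hp)).1.pos, hS.l2 V hV⟩
      have : ∏ p ∈ V, p ∣ ∏ p ∈ P2, p := prod_dvd_prod_of_subset _ _ _ (hS.s2 V hV)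
      exact this.mul_left Q0)
    have s3 : Sm Q L2 (Vs2.card + 2) (fun n => SV R Vs2 c2 n - MV R Vs2 c2) := by
      have h1 := s2.add (sm_const (Q := Q) (D := L2) (-(MV R Vs2 c2)) hS.L2p)
      rw [abs_neg] at h1
      refine Sm.mono ?_ le_rfl (add_le_add le_rfl hM)
      simpa only [sub_eq_add_neg] using h1
    have s4 := (s0.mul s1).mul s3
    have s5 : ∀ x ∈ Icc 1 T, Sm Q (Qt * L1 * L2) (L1 * (L2 + 2))
        (fun n => (tau R Pt (n + x) * SV R Vs1 c1 (n + x)) * (SV R Vs2 c2 (n + x) - MV R Vs2 c2)) := by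
      intro x _
      refine (s4.shift x).mono le_rfl ?_
      rw [one_mul]
      have h1 : (Vs1.card : ℝ) ≤ L1 := by exact_mod_cast hS.n1
      have h2 : (Vs2.card : ℝ) ≤ L2 := by exact_mod_cast hS.n2
      apply mul_le_mul h1 (by linarith) (by positivity) (by positivity)
    have s6 := Sm.sum (Icc 1 T) _ s5
    rw [Nat.card_Icc] at s6
    unfold Fl
    have e1 : ((T + 1 - 1 : ℕ) : ℝ) = T := by simp
    rw [e1] at s6
    exact s6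
  have hpow := (hSm.pow hQpos (2 * k)).avg hQpos N X
  have h1 := (abs_le.1 hpow).2
  have h2 : ∑ n ∈ Ioc N (N + X), Fl R Pt T Vs1 c1 Vs2 c2 n ^ (2 * k) ≤
      X * avg Q (fun n => Fl R Pt T Vs1 c1 Vs2 c2 n ^ (2 * k)) +
        2 * (((Qt * L1 * L2) ^ (2 * k) : ℕ) : ℝ) * (T * (L1 * (L2 + 2))) ^ (2 * k) := by linarith
  set Bd := (Ioc N (N + X)).filter (fun n => t < |Fl R Pt T Vs1 c1 Vs2 c2 n|) with hBd
  have h3 : (Bd.card : ℝ) * t ^ (2 * k) ≤ ∑ n ∈ Ioc N (N + X), Fl R Pt T Vs1 c1 Vs2 c2 n ^ (2 * k) := by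
    calc (Bd.card : ℝ) * t ^ (2 * k) = ∑ n ∈ Bd, t ^ (2 * k) := by rw [sum_const, nsmul_eq_mul]
      _ ≤ ∑ n ∈ Bd, Fl R Pt T Vs1 c1 Vs2 c2 n ^ (2 * k) := by
          apply sum_le_sum
          intro n hn
          rw [hBd, mem_filter] at hn
          have e : Fl R Pt T Vs1 c1 Vs2 c2 n ^ (2 * k) = |Fl R Pt T Vs1 c1 Vs2 c2 n| ^ (2 * k) := by
            rw [pow_mul, pow_mul, sq_abs]
          rw [e]
          exact pow_le_pow_left₀ ht hn.2.le _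
      _ ≤ _ := by
          apply sum_le_sum_of_subset_of_nonneg (filter_subset _ _)
          intro n _ _
          rw [pow_mul]
          positivity
  refine h3.trans (h2.trans ?_)
  have h4 : avg Q (fun n => Fl R Pt T Vs1 c1 Vs2 c2 n ^ (2 * k)) ≤
      (∏ p ∈ P2, (1 + (κ : ℝ) / p)) ^ (2 * k) * (∏ p ∈ P1, (1 + 2 ^ (2 * k) * (2 * k : ℕ) * ((κ : ℝ) / p))) *
        (T ^ (2 * k) * (3 * (κ : ℝ) / w) ^ k * ∏ p ∈ P2, (1 + 4 ^ (2 * k) * (2 * (κ : ℝ) / p))) := key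
  have h5 := mul_le_mul_of_nonneg_left h4 (Nat.cast_nonneg (α := ℝ) X)
  push_cast at h5 ⊢
  linarith

/-- the main term -/
theorem main_bound (hR : PerB R κ) (T w : ℕ) (Pt P1 P2 : Finset ℕ) (L1 L2 : ℕ) (Vs1 Vs2 : Finset (Finset ℕ))
    (hS : Sz κ Pt P1 P2 w L1 L2 Vs1 Vs2) (c1 : Finset ℕ → ℝ) (hc1 : ∀ V, |c1 V| ≤ 1) (n : ℕ) :
    |∑ x ∈ Icc 1 T, tau R Pt (n + x) * SV R Vs1 c1 (n + x) - T * (Wg (gam R) Pt * MV R Vs1 c1)| ≤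
      2 * (((∏ p ∈ Pt, p) * L1 : ℕ) : ℝ) * L1 := by
  classical
  set Qt := ∏ p ∈ Pt, p with hQt
  have hQt0 : 0 < Qt := prod_pos fun p hp => (hS.pt p hp).pos
  have hQ10 : 0 < ∏ p ∈ P1, p := prod_pos fun p hp => (hS.p1 p hp).pos
  set Q0 := Qt * ∏ p ∈ P1, p with hQ0
  have hQ00 : 0 < Q0 := Nat.mul_pos hQt0 hQ10
  have hτ1 : ∀ n, |tau R Pt n| ≤ 1 := fun n => by
    rw [abs_of_nonneg (tau_nonneg Pt n)]
    exact tau_le_one Pt n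
  have s0 : Sm Q0 Qt 1 (tau R Pt) := sm_per hQt0 (by
    rw [hQ0]
    exact dvd_mul_right _ _) le_rfl (tau_per hR Pt) hτ1
  have s1 : Sm Q0 L1 Vs1.card (SV R Vs1 c1) := sm_SV hR Vs1 c1 hc1 (by
    intro V hV
    refine ⟨?_, prod_pos fun p hp => (hS.p1 p (hS.s1 V hV hp)).pos, hS.l1 V hV⟩
    have : ∏ p ∈ V, p ∣ ∏ p ∈ P1, p := prod_dvd_prod_of_subset _ _ _ (hS.s1 V hV)
    exact this.mul_left Qt)
  have s2 : Sm Q0 (Qt * L1) L1 (fun n => tau R Pt n * SV R Vs1 c1 n) := by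
    refine (s0.mul s1).mono le_rfl ?_
    rw [one_mul]
    exact_mod_cast hS.n1
  have h1 := s2.avg hQ00 n T
  rw [← sum_Icc_Ioc (fun y => tau R Pt y * SV R Vs1 c1 y)] at h1
  have h2 := SV_mean hR Vs1 c1 hS.s1 hS.p1 Qt hQt0 (fun p hp =>
    coprime_prods (P' := P1) hS.pt (hS.p1 p hp) fun h => disjoint_left.1 hS.d01 h hp) (tau R Pt) (tau_per hR Pt)
  rw [tau_avg hR Pt hS.pt] at h2
  rw [h2] at h1
  exact h1

end Pool.Agent.H36.LH
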