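import Mathlib
import Pool.Agent.H36.LH.Fin

/-!
The number of windows in which the number of survivors is far from its expected value.
-/

set_option autoImplicit false

open Finset

namespace Pool.Agent.H36.LH

open Pool.Agent.Helper112.LP Pool.Agent.Helper112.LP.Kba Pool.Agent.Helper112.LP.Kbh
open Pool.Agent.H483R2.BHKD Pool.Agent.H20R2.FL Pool.Agent.H36.RW Pool.Agent.H373R2.T7 Pool.Agent.H36.BF
open Pool.Agent.H36.KT

open Classical in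
/-- the number of survivors in a window -/
noncomputable def SC (R : ℕ → ℕ → Prop) (P : Finset ℕ) (n T : ℕ) : ℕ :=
  ((Icc 1 T).filter (fun h => ∀ p ∈ P, ¬ R p (n + h))).card

/-- the bound for the moment -/
noncomputable def BM (κ k T w X L1 L2 : ℕ) (Pt P1 P2 : Finset ℕ) : ℝ :=
  X * ((∏ p ∈ P2, (1 + (κ : ℝ) / p)) ^ (2 * k) * (∏ p ∈ P1, (1 + 2 ^ (2 * k) * (2 * k : ℕ) * ((κ : ℝ) / p))) *
        (T ^ (2 * k) * (3 * (κ : ℝ) / w) ^ k * ∏ p ∈ P2, (1 + 4 ^ (2 * k) * (2 * (κ : ℝ) / p)))) +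
      2 * ((((∏ p ∈ Pt, p) * L1 * L2 : ℕ) : ℝ)) ^ (2 * k) * (T * (L1 * (L2 + 2))) ^ (2 * k)

variable {R : ℕ → ℕ → Prop} {κ : ℕ}

/-- the sum with both sieve functions -/
noncomputable def Pr2 (R : ℕ → ℕ → Prop) (Pt : Finset ℕ) (T : ℕ) (Vs1 : Finset (Finset ℕ)) (c1 : Finset ℕ → ℝ)
    (Vs2 : Finset (Finset ℕ)) (c2 : Finset ℕ → ℝ) (n : ℕ) : ℝ :=
  ∑ x ∈ Icc 1 T, tau R Pt (n + x) * (SV R Vs1 c1 (n + x) * SV R Vs2 c2 (n + x))

lemma Pr2_bound (hR : PerB R κ) (T w : ℕ) (Pt P1 P2 : Finset ℕ) (L1 L2 : ℕ) (Vs1 Vs2 : Finset (Finset ℕ))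
    (hS : Sz κ Pt P1 P2 w L1 L2 Vs1 Vs2) (c1 c2 : Finset ℕ → ℝ) (hc1 : ∀ V, |c1 V| ≤ 1)
    (hM : |MV R Vs2 c2| ≤ 2) (n : ℕ) (t : ℝ) (h : |Fl R Pt T Vs1 c1 Vs2 c2 n| ≤ t) :
    |Pr2 R Pt T Vs1 c1 Vs2 c2 n - T * (Wg (gam R) Pt * (MV R Vs1 c1 * MV R Vs2 c2))| ≤
      4 * (((∏ p ∈ Pt, p) * L1 : ℕ) : ℝ) * L1 + t := by
  have h1 := main_bound hR T w Pt P1 P2 L1 L2 Vs1 Vs2 hS c1 hc1 n
  set A := ∑ x ∈ Icc 1 T, tau R Pt (n + x) * SV R Vs1 c1 (n + x) with hA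
  set e := 2 * (((∏ p ∈ Pt, p) * L1 : ℕ) : ℝ) * L1 with he
  have h2 : Pr2 R Pt T Vs1 c1 Vs2 c2 n = MV R Vs2 c2 * A + Fl R Pt T Vs1 c1 Vs2 c2 n := by
    unfold Pr2 Fl
    rw [hA, mul_sum, ← sum_add_distrib]
    apply sum_congr rfl
    intro x _
    ring
  have h3 : Pr2 R Pt T Vs1 c1 Vs2 c2 n - T * (Wg (gam R) Pt * (MV R Vs1 c1 * MV R Vs2 c2)) =
      MV R Vs2 c2 * (A - T * (Wg (gam R) Pt * MV R Vs1 c1)) + Fl R Pt T Vs1 c1 Vs2 c2 n := by
    rw [h2]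
    ring
  rw [h3]
  refine (abs_add_le _ _).trans ?_
  rw [abs_mul]
  have h4 : |MV R Vs2 c2| * |A - T * (Wg (gam R) Pt * MV R Vs1 c1)| ≤ 2 * e :=
    mul_le_mul hM h1 (abs_nonneg _) (by norm_num)
  have h5 : 2 * e = 4 * (((∏ p ∈ Pt, p) * L1 : ℕ) : ℝ) * L1 := by rw [he]; ring
  linarith

open Classical in
set_option maxHeartbeats 2000000 in
/-- all pairs -/
theorem fin_all (κ : ℕ) (hκ : 1 ≤ κ) : ∃ C0 : ℕ, 1 ≤ C0 ∧ ∀ (b J1 J2 k T w N X : ℕ) (Pt P1 P2 : Finset ℕ)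
    (R : ℕ → ℕ → Prop) (t : ℝ), PerB R κ → C0 ≤ b → 2 ≤ b → (∀ p ∈ Pt, p.Prime) →
    (∀ p ∈ P1, p.Prime ∧ 12 < p ∧ p ≤ 2 ^ 2 ^ J1 ∧ 2 * κ ≤ p) →
    (∀ p ∈ P2, p.Prime ∧ 12 < p ∧ p ≤ 2 ^ 2 ^ J2 ∧ 2 * κ ≤ p ∧ w ≤ p) →
    Disjoint Pt P1 → Disjoint Pt P2 → Disjoint P1 P2 → 0 < w → 3 * κ ≤ w → w ≤ T → 0 ≤ t →
    (((Ioc N (N + X)).filter (fun n => 9 * (1 / 4 : ℝ) ^ b * (T * Wg (gam R) (Pt ∪ P1 ∪ P2)) +
      (1 + J1 + J2) * (4 * (((∏ p ∈ Pt, p) * (2 ^ 2 ^ J1) ^ (10 * b) : ℕ) : ℝ) * (((2 ^ 2 ^ J1) ^ (10 * b) : ℕ) : ℝ) + t) <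
      |(SC R (Pt ∪ P1 ∪ P2) n T : ℝ) - T * Wg (gam R) (Pt ∪ P1 ∪ P2)|)).card : ℝ) * t ^ (2 * k) ≤
      (1 + J1 + J2) * BM κ k T w X ((2 ^ 2 ^ J1) ^ (10 * b)) ((2 ^ 2 ^ J2) ^ (10 * b)) Pt P1 P2 := by
  obtain ⟨C0, hC0, hmean⟩ := mean_G κ hκ
  refine ⟨C0, hC0, ?_⟩
  intro b J1 J2 k T w N X Pt P1 P2 R t hR hb hb2 hPt hP1 hP2 d01 d02 d12 hw hwκ hT ht
  set L1 := (2 ^ 2 ^ J1) ^ (10 * b) with hL1
  set L2 := (2 ^ 2 ^ J2) ^ (10 * b) with hL2
  have hb1 : 1 ≤ b := by omega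
  have hP1p : ∀ p ∈ P1, p.Prime := fun p hp => (hP1 p hp).1
  have hP2p : ∀ p ∈ P2, p.Prime := fun p hp => (hP2 p hp).1
  have hS : Sz κ Pt P1 P2 w L1 L2 (VV b J1 P1) (VV b J2 P2) :=
    { pt := hPt, p1 := hP1p, p2 := fun p hp => ⟨(hP2 p hp).1, (hP2 p hp).2.2.2.2⟩, d01 := d01, d02 := d02, d12 := d12,
      s1 := fun V hV => VV_sub b J1 P1 hV, s2 := fun V hV => VV_sub b J2 P2 hV,
      l1 := fun V hV => VV_level b J1 P1 hV hb1, l2 := fun V hV => VV_level b J2 P2 hV hb1,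
      n1 := VV_card b J1 P1 hP1p hb1, n2 := VV_card b J2 P2 hP2p hb1,
      L1p := Nat.one_le_pow _ _ (by positivity), L2p := Nat.one_le_pow _ _ (by positivity) }
  obtain ⟨m1, m2, m3, m4, m5⟩ := hmean b J1 P1 (gam R) hb hb2 (fun p hp => ⟨(hP1 p hp).1, (hP1 p hp).2.1, (hP1 p hp).2.2.1,
    (hP1 p hp).2.2.2, gam_nonneg p, gam_le hR p (hP1 p hp).1⟩)
  obtain ⟨n1, n2, n3, n4, n5⟩ := hmean b J2 P2 (gam R) hb hb2 (fun p hp => ⟨(hP2 p hp).1, (hP2 p hp).2.1, (hP2 p hp).2.2.1,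
    (hP2 p hp).2.2.2.1, gam_nonneg p, gam_le hR p (hP2 p hp).1⟩)
  set ρ : ℝ := 3 * (1 / 4) ^ b with hρ
  have hρ0 : 0 ≤ ρ := by positivity
  have hρ1 : ρ ≤ 3 / 16 := by
    have : (1 / 4 : ℝ) ^ b ≤ (1 / 4) ^ 2 := pow_le_pow_of_le_one (by norm_num) (by norm_num) hb2
    rw [hρ]
    norm_num at this ⊢
    linarith
  set Wt := Wg (gam R) Pt with hWt
  set W1 := Wg (gam R) P1 with hW1
  set W2 := Wg (gam R) P2 with hW2
  have hWle : ∀ P : Finset ℕ, 0 ≤ Wg (gam R) P ∧ Wg (gam R) P ≤ 1 := by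
    intro P
    unfold Wg
    constructor
    · apply prod_nonneg
      intro p _
      have := gam_le_one (R := R) p
      linarith
    · apply prod_le_one
      · intro p _
        have := gam_le_one (R := R) p
        linarith
      · intro p _
        have := gam_nonneg (R := R) p
        linarith
  have hW2le := (hWle P2).2
  have hW1le := (hWle P1).2
  have hWt0 := (hWle Pt).1
  have hV : Wg (gam R) (Pt ∪ P1 ∪ P2) = Wt * (W1 * W2) := by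
    rw [hWt, hW1, hW2]
    unfold Wg
    rw [prod_union (by
      rw [disjoint_union_left]
      exact ⟨d02, d12⟩), prod_union d01]
    ring
  set TU := MV R (VV b J1 P1) (cf (cU b J1)) with hTU
  set GU := MV R (VV b J2 P2) (cf (cU b J2)) with hGU
  set TK : Fin J1 → ℝ := fun k => MV R (VV b J1 P1) (cf (cK b J1 k)) with hTK
  set GK : Fin J2 → ℝ := fun k => MV R (VV b J2 P2) (cf (cK b J2 k)) with hGK
  have hTUe : TU = wg (gam R) (FF b J1 P1) (cU b J1) := MV_wg b J1 P1 _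
  have hGUe : GU = wg (gam R) (FF b J2 P2) (cU b J2) := MV_wg b J2 P2 _
  have hTKe : ∀ k, TK k = wg (gam R) (FF b J1 P1) (cK b J1 k) := fun k => MV_wg b J1 P1 _
  have hGKe : ∀ k, GK k = wg (gam R) (FF b J2 P2) (cK b J2 k) := fun k => MV_wg b J2 P2 _
  rw [← hTUe] at m2 m3
  rw [← hGUe] at n2 n3
  simp only [← hTKe] at m4 m5
  simp only [← hGKe] at n4 n5
  have hGU2 : |GU| ≤ 2 := by
    rw [abs_of_nonneg (by linarith)]
    have : (1 + ρ) * W2 ≤ 2 * 1 := mul_le_mul (by linarith) hW2le n1.le (by norm_num)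
    linarith
  have hGK2 : ∀ k, |GK k| ≤ 2 := by
    intro k
    rw [abs_of_nonneg (n4 k)]
    have h1 : GK k ≤ ∑ k, GK k := single_le_sum (fun i _ => n4 i) (mem_univ k)
    have h2 : ρ * W2 ≤ 1 * 1 := mul_le_mul (by linarith) hW2le n1.le (by norm_num)
    linarith
  set e : ℝ := 4 * (((∏ p ∈ Pt, p) * L1 : ℕ) : ℝ) * (L1 : ℝ) + t with he
  have he0 : 0 ≤ e := by positivity
  have hcU1 : ∀ V, |cf (cU b J1) V| ≤ 1 := cf_abs _ (cU_abs b J1)
  have hcU2 : ∀ V, |cf (cU b J2) V| ≤ 1 := cf_abs _ (cU_abs b J2)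
  have hcK1 : ∀ k V, |cf (cK b J1 k) V| ≤ 1 := fun k => cf_abs _ (cK_abs b J1 k)
  have hcK2 : ∀ k V, |cf (cK b J2 k) V| ≤ 1 := fun k => cf_abs _ (cK_abs b J2 k)
  -- the bad sets
  set B0 := (Ioc N (N + X)).filter (fun n => t < |Fl R Pt T (VV b J1 P1) (cf (cU b J1)) (VV b J2 P2) (cf (cU b J2)) n|) with hB0
  set B1 : Fin J1 → Finset ℕ := fun k => (Ioc N (N + X)).filter (fun n =>
    t < |Fl R Pt T (VV b J1 P1) (cf (cK b J1 k)) (VV b J2 P2) (cf (cU b J2)) n|) with hB1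
  set B2 : Fin J2 → Finset ℕ := fun k => (Ioc N (N + X)).filter (fun n =>
    t < |Fl R Pt T (VV b J1 P1) (cf (cU b J1)) (VV b J2 P2) (cf (cK b J2 k)) n|) with hB2
  have hB0c : (B0.card : ℝ) * t ^ (2 * k) ≤ BM κ k T w X L1 L2 Pt P1 P2 :=
    fl_bound hR k T w N X Pt P1 P2 L1 L2 _ _ hS _ _ hcU1 hcU2 hGU2 hw hwκ hT t ht
  have hB1c : ∀ i, ((B1 i).card : ℝ) * t ^ (2 * k) ≤ BM κ k T w X L1 L2 Pt P1 P2 := fun i =>
    fl_bound hR k T w N X Pt P1 P2 L1 L2 _ _ hS _ _ (hcK1 i) hcU2 hGU2 hw hwκ hT t ht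
  have hB2c : ∀ i, ((B2 i).card : ℝ) * t ^ (2 * k) ≤ BM κ k T w X L1 L2 Pt P1 P2 := fun i =>
    fl_bound hR k T w N X Pt P1 P2 L1 L2 _ _ hS _ _ hcU1 (hcK2 i) (hGK2 i) hw hwκ hT t ht
  set Bd := (Ioc N (N + X)).filter (fun n => 9 * (1 / 4 : ℝ) ^ b * (T * Wg (gam R) (Pt ∪ P1 ∪ P2)) +
      (1 + J1 + J2) * e < |(SC R (Pt ∪ P1 ∪ P2) n T : ℝ) - T * Wg (gam R) (Pt ∪ P1 ∪ P2)|) with hBd
  have hsub : Bd ⊆ B0 ∪ (univ.biUnion B1 ∪ univ.biUnion B2) := by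
    intro n hn
    rw [hBd, mem_filter] at hn
    by_contra hcon
    rw [mem_union, mem_union, mem_biUnion, mem_biUnion] at hcon
    push Not at hcon
    obtain ⟨h0, h1, h2⟩ := hcon
    have g0 : |Fl R Pt T (VV b J1 P1) (cf (cU b J1)) (VV b J2 P2) (cf (cU b J2)) n| ≤ t := by
      by_contra h
      exact h0 (mem_filter.2 ⟨hn.1, lt_of_not_ge h⟩)
    have g1 : ∀ i, |Fl R Pt T (VV b J1 P1) (cf (cK b J1 i)) (VV b J2 P2) (cf (cU b J2)) n| ≤ t := by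
      intro i
      by_contra h
      exact h1 i (mem_univ i) (mem_filter.2 ⟨hn.1, lt_of_not_ge h⟩)
    have g2 : ∀ i, |Fl R Pt T (VV b J1 P1) (cf (cU b J1)) (VV b J2 P2) (cf (cK b J2 i)) n| ≤ t := by
      intro i
      by_contra h
      exact h2 i (mem_univ i) (mem_filter.2 ⟨hn.1, lt_of_not_ge h⟩)
    have p0 := Pr2_bound hR T w Pt P1 P2 L1 L2 _ _ hS _ _ hcU1 hGU2 n t g0
    have p1 := fun i => Pr2_bound hR T w Pt P1 P2 L1 L2 _ _ hS _ _ (hcK1 i) hGU2 n t (g1 i)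
    have p2 := fun i => Pr2_bound hR T w Pt P1 P2 L1 L2 _ _ hS _ _ hcU1 (hGK2 i) n t (g2 i)
    set a : ℕ → ℝ := fun x => if ∀ p ∈ P1, ¬ R p x then 1 else 0 with ha
    set bb' : ℕ → ℝ := fun x => if ∀ p ∈ P2, ¬ R p x then 1 else 0 with hbb
    have hsv1 : ∀ x, a x ≤ SV R (VV b J1 P1) (cf (cU b J1)) x ∧ SV R (VV b J1 P1) (cf (cU b J1)) x -
        ∑ k, SV R (VV b J1 P1) (cf (cK b J1 k)) x ≤ a x := fun x =>
      sieve_R b J1 P1 (fun p hp => ⟨(hP1 p hp).1, (hP1 p hp).2.1, (hP1 p hp).2.2.1⟩) x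
    have hsv2 : ∀ x, bb' x ≤ SV R (VV b J2 P2) (cf (cU b J2)) x ∧ SV R (VV b J2 P2) (cf (cU b J2)) x -
        ∑ k, SV R (VV b J2 P2) (cf (cK b J2 k)) x ≤ bb' x := fun x =>
      sieve_R b J2 P2 (fun p hp => ⟨(hP2 p hp).1, (hP2 p hp).2.1, (hP2 p hp).2.2.1⟩) x
    have ha0 : ∀ x, 0 ≤ a x := fun x => by rw [ha]; simp only; split_ifs <;> norm_num
    have hb0 : ∀ x, 0 ≤ bb' x := fun x => by rw [hbb]; simp only; split_ifs <;> norm_num
    have hSC : (SC R (Pt ∪ P1 ∪ P2) n T : ℝ) = ∑ x ∈ Icc 1 T, tau R Pt (n + x) * (a (n + x) * bb' (n + x)) := by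
      unfold SC
      rw [card_filter]
      push_cast
      apply sum_congr rfl
      intro x _
      rw [tau_ite]
      rw [ha, hbb]
      simp only
      by_cases q0 : ∀ p ∈ Pt, ¬ R p (n + x)
      · rw [if_pos q0]
        by_cases q1 : ∀ p ∈ P1, ¬ R p (n + x)
        · rw [if_pos q1]
          by_cases q2 : ∀ p ∈ P2, ¬ R p (n + x)
          · rw [if_pos q2, if_pos, one_mul, one_mul]
            intro p hp
            rcases mem_union.1 hp with hp | hp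
            · rcases mem_union.1 hp with hp | hp
              · exact q0 p hp
              · exact q1 p hp
            · exact q2 p hp
          · rw [if_neg q2, if_neg, mul_zero, mul_zero]
            exact fun h => q2 fun p hp => h p (mem_union_right _ hp)
        · rw [if_neg q1, if_neg, zero_mul, mul_zero]
          exact fun h => q1 fun p hp => h p (mem_union_left _ (mem_union_right _ hp))
      · rw [if_neg q0, if_neg, zero_mul]
        exact fun h => q0 fun p hp => h p (mem_union_left _ (mem_union_left _ hp))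
    -- upper bound
    have hup : (SC R (Pt ∪ P1 ∪ P2) n T : ℝ) ≤
        Pr2 R Pt T (VV b J1 P1) (cf (cU b J1)) (VV b J2 P2) (cf (cU b J2)) n := by
      rw [hSC]
      unfold Pr2
      apply sum_le_sum
      intro x _
      apply mul_le_mul_of_nonneg_left _ (tau_nonneg Pt _)
      exact mul_le_mul (hsv1 _).1 (hsv2 _).1 (hb0 _) ((ha0 _).trans (hsv1 _).1)
    have hlo : Pr2 R Pt T (VV b J1 P1) (cf (cU b J1)) (VV b J2 P2) (cf (cU b J2)) n -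
        ∑ i, Pr2 R Pt T (VV b J1 P1) (cf (cK b J1 i)) (VV b J2 P2) (cf (cU b J2)) n -
        ∑ i, Pr2 R Pt T (VV b J1 P1) (cf (cU b J1)) (VV b J2 P2) (cf (cK b J2 i)) n ≤ (SC R (Pt ∪ P1 ∪ P2) n T : ℝ) := by
      have e1 : ∑ i, Pr2 R Pt T (VV b J1 P1) (cf (cK b J1 i)) (VV b J2 P2) (cf (cU b J2)) n =
          ∑ x ∈ Icc 1 T, tau R Pt (n + x) * ((∑ i, SV R (VV b J1 P1) (cf (cK b J1 i)) (n + x)) *
            SV R (VV b J2 P2) (cf (cU b J2)) (n + x)) := by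
        unfold Pr2
        rw [sum_comm]
        apply sum_congr rfl
        intro x _
        rw [sum_mul, mul_sum]
      have e2 : ∑ i, Pr2 R Pt T (VV b J1 P1) (cf (cU b J1)) (VV b J2 P2) (cf (cK b J2 i)) n =
          ∑ x ∈ Icc 1 T, tau R Pt (n + x) * (SV R (VV b J1 P1) (cf (cU b J1)) (n + x) *
            ∑ i, SV R (VV b J2 P2) (cf (cK b J2 i)) (n + x)) := by
        unfold Pr2
        rw [sum_comm]
        apply sum_congr rfl
        intro x _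
        rw [← mul_sum, ← mul_sum]
      rw [hSC, e1, e2]
      unfold Pr2
      rw [← sum_sub_distrib, ← sum_sub_distrib]
      apply sum_le_sum
      intro x _
      rw [← mul_sub, ← mul_sub]
      apply mul_le_mul_of_nonneg_left _ (tau_nonneg Pt _)
      have q1 := hsv1 (n + x)
      have q2 := hsv2 (n + x)
      have q3 := ha0 (n + x)
      have q4 := hb0 (n + x)
      set A := SV R (VV b J1 P1) (cf (cU b J1)) (n + x)
      set B := SV R (VV b J2 P2) (cf (cU b J2)) (n + x)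
      set EA := ∑ i, SV R (VV b J1 P1) (cf (cK b J1 i)) (n + x)
      set EB := ∑ i, SV R (VV b J2 P2) (cf (cK b J2 i)) (n + x)
      have q5 : (A - a (n + x)) * B ≤ EA * B := mul_le_mul_of_nonneg_right (by linarith) (by linarith)
      have q6 : a (n + x) * (B - bb' (n + x)) ≤ A * EB :=
        mul_le_mul q1.1 (by linarith) (by linarith) (by linarith)
      nlinarith
    -- the main terms
    set Tw : ℝ := (T : ℝ) * Wt with hTw
    have hTw0 : 0 ≤ Tw := by positivity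
    have hTV : (T : ℝ) * Wg (gam R) (Pt ∪ P1 ∪ P2) = Tw * (W1 * W2) := by rw [hV, hTw]; ring
    have hW12 : 0 ≤ W1 * W2 := by positivity
    have r0 := abs_le.1 p0
    have s1 : TU * GU ≤ (1 + ρ) * W1 * ((1 + ρ) * W2) := mul_le_mul m3 n3 (by linarith) (by positivity)
    have s2 : W1 * W2 ≤ TU * GU := mul_le_mul m2 n2 n1.le (by linarith)
    have s3 : (∑ i, TK i) * GU ≤ ρ * W1 * ((1 + ρ) * W2) := mul_le_mul m5 n3 (by linarith) (by positivity)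
    have s4 : TU * ∑ i, GK i ≤ (1 + ρ) * W1 * (ρ * W2) :=
      mul_le_mul m3 n5 (sum_nonneg fun i _ => n4 i) (by positivity)
    have t1 : Tw * (TU * GU) ≤ Tw * ((1 + ρ) * W1 * ((1 + ρ) * W2)) := mul_le_mul_of_nonneg_left s1 hTw0
    have t2 : Tw * (W1 * W2) ≤ Tw * (TU * GU) := mul_le_mul_of_nonneg_left s2 hTw0
    have t3 : Tw * ((∑ i, TK i) * GU) ≤ Tw * (ρ * W1 * ((1 + ρ) * W2)) := mul_le_mul_of_nonneg_left s3 hTw0
    have t4 : Tw * (TU * ∑ i, GK i) ≤ Tw * ((1 + ρ) * W1 * (ρ * W2)) := mul_le_mul_of_nonneg_left s4 hTw0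
    have e0 : (T : ℝ) * (Wt * (TU * GU)) = Tw * (TU * GU) := by rw [hTw]; ring
    have hq : (1 + ρ) ^ 2 ≤ 1 + 3 * ρ := by nlinarith
    have hq2 : 2 * ρ * (1 + ρ) ≤ 3 * ρ := by nlinarith
    have hTVn : 0 ≤ Tw * (W1 * W2) := by positivity
    have hq' : Tw * ((1 + ρ) * W1 * ((1 + ρ) * W2)) ≤ (1 + 3 * ρ) * (Tw * (W1 * W2)) := by
      have e1 : Tw * ((1 + ρ) * W1 * ((1 + ρ) * W2)) = (1 + ρ) ^ 2 * (Tw * (W1 * W2)) := by ring
      rw [e1]
      exact mul_le_mul_of_nonneg_right hq hTVn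
    have hq2' : Tw * (ρ * W1 * ((1 + ρ) * W2)) + Tw * ((1 + ρ) * W1 * (ρ * W2)) ≤ 3 * ρ * (Tw * (W1 * W2)) := by
      have e1 : Tw * (ρ * W1 * ((1 + ρ) * W2)) + Tw * ((1 + ρ) * W1 * (ρ * W2)) = 2 * ρ * (1 + ρ) * (Tw * (W1 * W2)) := by
        ring
      rw [e1]
      exact mul_le_mul_of_nonneg_right hq2 hTVn
    have u1 : ∑ i, Pr2 R Pt T (VV b J1 P1) (cf (cK b J1 i)) (VV b J2 P2) (cf (cU b J2)) n ≤
        Tw * ((∑ i, TK i) * GU) + J1 * e := by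
      calc _ ≤ ∑ i, (T * (Wt * (TK i * GU)) + e) := by
            apply sum_le_sum
            intro i _
            have := (abs_le.1 (p1 i)).2
            linarith
        _ = _ := by
            rw [sum_add_distrib, sum_const, card_univ, Fintype.card_fin, nsmul_eq_mul, ← mul_sum, ← mul_sum, ← sum_mul, hTw]
            ring
    have u2 : ∑ i, Pr2 R Pt T (VV b J1 P1) (cf (cU b J1)) (VV b J2 P2) (cf (cK b J2 i)) n ≤
        Tw * (TU * ∑ i, GK i) + J2 * e := by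
      calc _ ≤ ∑ i, (T * (Wt * (TU * GK i)) + e) := by
            apply sum_le_sum
            intro i _
            have := (abs_le.1 (p2 i)).2
            linarith
        _ = _ := by
            rw [sum_add_distrib, sum_const, card_univ, Fintype.card_fin, nsmul_eq_mul, ← mul_sum, ← mul_sum, ← mul_sum, hTw]
            ring
    have hlt := hn.2
    rw [hTV] at hlt
    have h9 : 9 * (1 / 4 : ℝ) ^ b = 3 * ρ := by rw [hρ]; ring
    rw [h9] at hlt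
    have hJe : 0 ≤ ((J1 : ℝ) + J2) * e := by positivity
    have hle : |(SC R (Pt ∪ P1 ∪ P2) n T : ℝ) - Tw * (W1 * W2)| ≤ 3 * ρ * (Tw * (W1 * W2)) + (1 + J1 + J2) * e := by
      rw [abs_le]
      constructor <;> linarith [r0.1, r0.2]
    linarith
  have hcard : (Bd.card : ℝ) ≤ B0.card + (∑ i, ((B1 i).card : ℝ) + ∑ i, ((B2 i).card : ℝ)) := by
    have h1 : Bd.card ≤ B0.card + (∑ i, (B1 i).card + ∑ i, (B2 i).card) := by
      refine (card_le_card hsub).trans ?_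
      refine (card_union_le _ _).trans ?_
      apply Nat.add_le_add_left
      refine (card_union_le _ _).trans ?_
      exact Nat.add_le_add card_biUnion_le card_biUnion_le
    exact_mod_cast h1
  have htk : 0 ≤ t ^ (2 * k) := by positivity
  calc (Bd.card : ℝ) * t ^ (2 * k) ≤ (B0.card + (∑ i, ((B1 i).card : ℝ) + ∑ i, ((B2 i).card : ℝ))) * t ^ (2 * k) :=
        mul_le_mul_of_nonneg_right hcard htk
    _ = B0.card * t ^ (2 * k) + (∑ i, ((B1 i).card : ℝ) * t ^ (2 * k) + ∑ i, ((B2 i).card : ℝ) * t ^ (2 * k)) := by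
        rw [← sum_mul, ← sum_mul]
        ring
    _ ≤ BM κ k T w X L1 L2 Pt P1 P2 + (∑ _i : Fin J1, BM κ k T w X L1 L2 Pt P1 P2 +
          ∑ _i : Fin J2, BM κ k T w X L1 L2 Pt P1 P2) := by
        apply add_le_add hB0c
        exact add_le_add (sum_le_sum fun i _ => hB1c i) (sum_le_sum fun i _ => hB2c i)
    _ = _ := by
        rw [sum_const, sum_const, card_univ, card_univ, Fintype.card_fin, Fintype.card_fin, nsmul_eq_mul, nsmul_eq_mul]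
        ring

end Pool.Agent.H36.LH
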