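import Mathlib
import Pool.Agent.H36.LH.FinA
import Pool.Agent.H36.KT.EvA

/-!
The law for long windows: the number of exceptions is smaller than any power of the length.
-/

set_option autoImplicit false

open Finset Filter

namespace Pool.Agent.H36.LH

open Pool.Agent.H36.RW Pool.Agent.H373R2.T7 Pool.Agent.H36.BF Pool.Agent.H36.BE
open Pool.Agent.H36.KT

variable {R : ℕ → ℕ → Prop} {κ : ℕ}

/-- lower bound for the density -/
lemma Wg_lower (hκ : 1 ≤ κ) (hR : PerB R κ) (hA : ∀ p : ℕ, p.Prime → nuB R p < p) (b : ℕ) (P : Finset ℕ)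
    (hP : ∀ p ∈ P, p.Prime ∧ p ≤ b) :
    (1 / (2 * κ : ℝ)) ^ (2 * κ) * Vz b ^ (2 * κ) ≤ Wg (gam R) P := by
  classical
  have hκr : (1 : ℝ) ≤ κ := by exact_mod_cast hκ
  have hκ0 : (0 : ℝ) < 2 * κ := by linarith
  have hκ1 : 1 / (2 * κ : ℝ) ≤ 1 := by
    rw [div_le_one hκ0]
    linarith
  have hfac : ∀ p ∈ P, (if p ≤ 2 * κ then 1 / (2 * κ : ℝ) else 1) * (1 - 1 / (p : ℝ)) ^ (2 * κ) ≤ 1 - gam R p := by
    intro p hp
    obtain ⟨h1, _⟩ := hP p hp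
    have hp0 : (0 : ℝ) < p := by exact_mod_cast h1.pos
    have hfb := fac_bounds h1
    unfold gam
    split_ifs with h3
    · have h4 : (nuB R p : ℝ) + 1 ≤ p := by exact_mod_cast hA p h1
      have h5 : 1 / (p : ℝ) ≤ 1 - (nuB R p : ℝ) / p := by
        rw [le_sub_iff_add_le, ← add_div, div_le_one hp0]
        linarith
      have h6 : 1 / (2 * κ : ℝ) ≤ 1 / (p : ℝ) := by
        apply one_div_le_one_div_of_le hp0
        exact_mod_cast h3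
      have h7 : (1 - 1 / (p : ℝ)) ^ (2 * κ) ≤ 1 := pow_le_one₀ hfb.1 hfb.2
      calc 1 / (2 * κ : ℝ) * (1 - 1 / (p : ℝ)) ^ (2 * κ) ≤ 1 / (2 * κ : ℝ) * 1 :=
            mul_le_mul_of_nonneg_left h7 (by positivity)
        _ ≤ _ := by linarith
    · rw [one_mul]
      refine (fac_pow p κ hκ (by omega)).trans ?_
      have h4 : (nuB R p : ℝ) ≤ κ := by exact_mod_cast hR.few p h1
      have h5 : (nuB R p : ℝ) / p ≤ (κ : ℝ) / p := div_le_div_of_nonneg_right h4 hp0.le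
      linarith
  have h1 : ∏ p ∈ P, ((if p ≤ 2 * κ then 1 / (2 * κ : ℝ) else 1) * (1 - 1 / (p : ℝ)) ^ (2 * κ)) ≤ Wg (gam R) P := by
    unfold Wg
    apply prod_le_prod _ hfac
    intro p hp
    have hfb := fac_bounds (hP p hp).1
    apply mul_nonneg
    · split_ifs <;> positivity
    · exact pow_nonneg hfb.1 _
  refine le_trans ?_ h1
  rw [prod_mul_distrib]
  have h2 : (1 / (2 * κ : ℝ)) ^ (2 * κ) ≤ ∏ p ∈ P, (if p ≤ 2 * κ then 1 / (2 * κ : ℝ) else 1) := by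
    rw [← prod_filter, prod_const]
    apply pow_le_pow_of_le_one (by positivity) hκ1
    calc (P.filter (fun p => p ≤ 2 * κ)).card ≤ (Icc 1 (2 * κ)).card := by
          apply card_le_card
          intro p hp
          rw [mem_filter] at hp
          rw [mem_Icc]
          exact ⟨(hP p hp.1).1.one_le, hp.2⟩
      _ = 2 * κ := by rw [Nat.card_Icc]; omega
  have h3 : Vz b ^ (2 * κ) ≤ ∏ p ∈ P, (1 - 1 / (p : ℝ)) ^ (2 * κ) := by
    rw [prod_pow]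
    apply pow_le_pow_left₀ (Vz_pos b).le
    have : Vz b = Wp (pz b) := rfl
    rw [this]
    exact Wp_mono P (pz b) (fun p hp => mem_pz.2 ⟨(hP p hp).2, (hP p hp).1⟩) fun p hp => (mem_pz.1 hp).2
  exact mul_le_mul h2 h3 (pow_nonneg (Vz_pos b).le _) (le_trans (by positivity) h2)

/-- products over primes -/
lemma prod_bd (n z : ℕ) (L : ℝ) (P : Finset ℕ) (hP : P ⊆ pz z) (hz : 1 / Vz z ≤ L ^ 2) :
    ∏ p ∈ P, (1 + (n : ℝ) / p) ≤ L ^ (2 * n) := by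
  have h1 := W_sub P (pz z) hP (fun p hp => (mem_pz.1 hp).2) n
  refine h1.trans ?_
  have h2 : Wp (pz z) = Vz z := rfl
  rw [h2, pow_mul]
  apply pow_le_pow_left₀ _ hz
  have := Vz_pos z
  positivity

/-- the moment bound with explicit powers -/
lemma BM_le (κ k T w z X p0' L1 L2 : ℕ) (L : ℝ) (hw : w ≤ z) (hz : 1 / Vz z ≤ L ^ 2) (hL : 0 ≤ L) :
    BM κ k T w X L1 L2 (pz p0') (Pyz p0' w) (Pyz w z) ≤
      X * (L ^ (2 * κ * (2 * k)) * L ^ (2 * (2 ^ (2 * k) * (2 * k) * κ)) *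
        (T ^ (2 * k) * (3 * (κ : ℝ) / w) ^ k * L ^ (2 * (4 ^ (2 * k) * (2 * κ))))) +
      2 * (((Qy p0' * L1 * L2 : ℕ) : ℝ)) ^ (2 * k) * (T * (L1 * (L2 + 2))) ^ (2 * k) := by
  have hs1 : Pyz p0' w ⊆ pz z := by
    intro p hp
    obtain ⟨h1, h2, h3⟩ := mem_Pyz.1 hp
    exact mem_pz.2 ⟨by omega, h3⟩
  have hs2 : Pyz w z ⊆ pz z := by
    intro p hp
    obtain ⟨h1, h2, h3⟩ := mem_Pyz.1 hp
    exact mem_pz.2 ⟨h2, h3⟩
  have b1 := prod_bd κ z L (Pyz w z) hs2 hz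
  have b2 := prod_bd (2 ^ (2 * k) * (2 * k) * κ) z L (Pyz p0' w) hs1 hz
  have b3 := prod_bd (4 ^ (2 * k) * (2 * κ)) z L (Pyz w z) hs2 hz
  have e2 : ∏ p ∈ Pyz p0' w, (1 + (((2 ^ (2 * k) * (2 * k) * κ : ℕ)) : ℝ) / p) =
      ∏ p ∈ Pyz p0' w, (1 + 2 ^ (2 * k) * (2 * k : ℕ) * ((κ : ℝ) / p)) := by
    apply prod_congr rfl
    intro p _
    push_cast
    ring
  have e3 : ∏ p ∈ Pyz w z, (1 + (((4 ^ (2 * k) * (2 * κ) : ℕ)) : ℝ) / p) =
      ∏ p ∈ Pyz w z, (1 + 4 ^ (2 * k) * (2 * (κ : ℝ) / p)) := by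
    apply prod_congr rfl
    intro p _
    push_cast
    ring
  rw [e2] at b2
  rw [e3] at b3
  have n1 : 0 ≤ ∏ p ∈ Pyz w z, (1 + (κ : ℝ) / p) := prod_nonneg fun p _ => by positivity
  have n2 : 0 ≤ ∏ p ∈ Pyz p0' w, (1 + 2 ^ (2 * k) * (2 * k : ℕ) * ((κ : ℝ) / p)) := prod_nonneg fun p _ => by positivity
  have n3 : 0 ≤ ∏ p ∈ Pyz w z, (1 + 4 ^ (2 * k) * (2 * (κ : ℝ) / p)) := prod_nonneg fun p _ => by positivity
  have hpow : (∏ p ∈ Pyz w z, (1 + (κ : ℝ) / p)) ^ (2 * k) ≤ L ^ (2 * κ * (2 * k)) := by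
    rw [pow_mul L (2 * κ) (2 * k)]
    exact pow_le_pow_left₀ n1 b1 _
  unfold BM Qy
  apply add_le_add _ le_rfl
  gcongr

end Pool.Agent.H36.LH
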