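import Mathlib
import Pool.Agent.H36.LH.EvL

/-!
The law for long windows: choice of the parameters.
-/

set_option autoImplicit false

open Finset Filter

namespace Pool.Agent.H36.LH

open Pool.Agent.H36.RW Pool.Agent.H373R2.T7 Pool.Agent.H36.BF Pool.Agent.H36.BE
open Pool.Agent.H36.KT

lemma root_nat (m T : ℕ) (hm : 1 ≤ m) : ∃ w : ℕ, w ^ m ≤ T ∧ T < (w + 1) ^ m := by
  have h : ∃ w : ℕ, T < (w + 1) ^ m := ⟨T, (Nat.lt_succ_self T).trans_le (Nat.le_self_pow (by omega) _)⟩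
  refine ⟨Nat.find h, ?_, Nat.find_spec h⟩
  rcases Nat.eq_zero_or_pos (Nat.find h) with h0 | h0
  · rw [h0, zero_pow (by omega)]
    exact Nat.zero_le _
  · obtain ⟨u, hu⟩ : ∃ u, Nat.find h = u + 1 := ⟨Nat.find h - 1, by omega⟩
    have := Nat.find_min h (m := u) (by omega)
    rw [hu]
    exact not_lt.1 this

lemma dev_le (T V L Qt L1 Jn ε η : ℝ) (κ : ℕ) (hT : 0 < T) (hV : 1 / L ^ (2 * κ + 1) ≤ V) (hL : 1 ≤ L) (hε : 0 < ε)
    (hη0 : η ≤ ε / 2) (hQt : 0 ≤ Qt) (hL10 : 0 ≤ L1) (hL1 : L1 ^ 4 ≤ T) (hJ : Jn ≤ L)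
    (hTL : L ^ (4 * κ + 6) ≤ T) (h1 : 16 * Qt / ε ≤ L) (h2 : 4 / ε ≤ L ^ 2) :
    η * (T * V) + Jn * (4 * (Qt * L1) * L1 + T / L ^ (2 * κ + 4)) ≤ ε * (T * V) := by
  have hL0 : 0 < L := by linarith
  have hV0 : 0 < V := lt_of_lt_of_le (by positivity) hV
  have hTV : T / L ^ (2 * κ + 1) ≤ T * V := by
    calc T / L ^ (2 * κ + 1) = T * (1 / L ^ (2 * κ + 1)) := by ring
      _ ≤ T * V := mul_le_mul_of_nonneg_left hV hT.le
  set r := √T with hr
  have hr0 : 0 < r := Real.sqrt_pos.2 hT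
  have hrr : r * r = T := Real.mul_self_sqrt hT.le
  have hL1r : L1 * L1 ≤ r := by
    apply Real.le_sqrt_of_sq_le
    calc (L1 * L1) ^ 2 = L1 ^ 4 := by ring
      _ ≤ T := hL1
  have hrL : L ^ (2 * κ + 3) ≤ r := by
    apply Real.le_sqrt_of_sq_le
    rw [← pow_mul]
    calc L ^ ((2 * κ + 3) * 2) = L ^ (4 * κ + 6) := by congr 1; ring
      _ ≤ T := hTL
  have hTr : r * L ^ 2 ≤ T / L ^ (2 * κ + 1) := by
    rw [le_div_iff₀ (by positivity)]
    calc r * L ^ 2 * L ^ (2 * κ + 1) = r * L ^ (2 * κ + 3) := by rw [mul_assoc, ← pow_add]; congr 2; ring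
      _ ≤ r * r := mul_le_mul_of_nonneg_left hrL hr0.le
      _ = T := hrr
  have hin0 : 0 ≤ 4 * (Qt * L1) * L1 + T / L ^ (2 * κ + 4) := by positivity
  have a1 : L * (4 * (Qt * L1) * L1) ≤ ε / 4 * (T * V) := by
    have h3 : 16 * Qt ≤ L * ε := by rwa [div_le_iff₀ hε] at h1
    calc L * (4 * (Qt * L1) * L1) = 4 * Qt * L * (L1 * L1) := by ring
      _ ≤ 4 * Qt * L * r := mul_le_mul_of_nonneg_left hL1r (by positivity)
      _ = (16 * Qt) * (L * r) / 4 := by ring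
      _ ≤ (L * ε) * (L * r) / 4 := by
          apply div_le_div_of_nonneg_right _ (by norm_num)
          exact mul_le_mul_of_nonneg_right h3 (by positivity)
      _ = ε / 4 * (r * L ^ 2) := by ring
      _ ≤ ε / 4 * (T * V) := mul_le_mul_of_nonneg_left (hTr.trans hTV) (by positivity)
  have a2 : L * (T / L ^ (2 * κ + 4)) ≤ ε / 4 * (T * V) := by
    have h3 : 4 ≤ L ^ 2 * ε := by rwa [div_le_iff₀ hε] at h2
    have e1 : L ^ (2 * κ + 4) = L ^ (2 * κ + 1) * L * L ^ 2 := by ring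
    calc L * (T / L ^ (2 * κ + 4)) = (T / L ^ (2 * κ + 1)) * (1 / L ^ 2) := by
          rw [e1]; field_simp
      _ ≤ (T / L ^ (2 * κ + 1)) * (ε / 4) := by
          apply mul_le_mul_of_nonneg_left _ (by positivity)
          rw [div_le_div_iff₀ (by positivity) (by norm_num)]
          linarith
      _ = ε / 4 * (T / L ^ (2 * κ + 1)) := by ring
      _ ≤ ε / 4 * (T * V) := mul_le_mul_of_nonneg_left hTV (by positivity)
  have a3 : Jn * (4 * (Qt * L1) * L1 + T / L ^ (2 * κ + 4)) ≤ L * (4 * (Qt * L1) * L1 + T / L ^ (2 * κ + 4)) :=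
    mul_le_mul_of_nonneg_right hJ hin0
  have a4 : η * (T * V) ≤ ε / 2 * (T * V) := mul_le_mul_of_nonneg_right hη0 (by positivity)
  have e2 : L * (4 * (Qt * L1) * L1 + T / L ^ (2 * κ + 4)) = L * (4 * (Qt * L1) * L1) + L * (T / L ^ (2 * κ + 4)) := by ring
  rw [e2] at a3
  linarith

lemma cnt_le (T L cd Jn BMv X κr wr Dm : ℝ) (k s A E b m : ℕ) (hT : 1 ≤ T) (hL : 1 ≤ L) (hX : 0 ≤ X) (hJ : Jn ≤ L)
    (hJ0 : 0 ≤ Jn) (hw : 1 ≤ wr) (hκr : 0 ≤ κr) (hTw : T ≤ (wr + 1) ^ m) (hk : k = m * (A + 2))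
    (hBM : BMv ≤ X * (L ^ E * (T ^ (2 * k) * (3 * κr / wr) ^ k)) + 2 * (Dm * T) ^ (2 * k))
    (hcd : cd * (T / L ^ s) ^ (2 * k) ≤ Jn * BMv)
    (h1 : 2 * (6 * κr) ^ k ≤ L) (h2 : L ^ (E + 2 * k * s + 2) ≤ T ^ 2)
    (h3 : 4 * L * L ^ (2 * k * s) * Dm ^ (2 * k) * T ^ A ≤ X) : cd ≤ X / T ^ A := by
  have hL0 : 0 < L := by linarith
  have hT0 : 0 < T := by linarith
  have hTk : 0 < T ^ (2 * k) := by positivity
  have hLk : 0 < L ^ (2 * k * s) := by positivity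
  have hW : (3 * κr / wr) ^ k ≤ (6 * κr) ^ k / T ^ (A + 2) := by
    have h4 : 3 * κr / wr ≤ 6 * κr / (wr + 1) := by
      rw [div_le_div_iff₀ (by linarith) (by linarith)]
      nlinarith
    calc (3 * κr / wr) ^ k ≤ (6 * κr / (wr + 1)) ^ k := pow_le_pow_left₀ (by positivity) h4 _
      _ = (6 * κr) ^ k / (wr + 1) ^ k := by rw [div_pow]
      _ ≤ (6 * κr) ^ k / T ^ (A + 2) := by
          apply div_le_div_of_nonneg_left (by positivity) (by positivity)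
          rw [hk, pow_mul]
          exact pow_le_pow_left₀ hT0.le hTw _
  have e1 : (T / L ^ s) ^ (2 * k) = T ^ (2 * k) / L ^ (2 * k * s) := by
    rw [div_pow, ← pow_mul]
    congr 2
    ring
  rw [e1] at hcd
  have h5 : cd * T ^ (2 * k) ≤ Jn * BMv * L ^ (2 * k * s) := by
    have h6 := mul_le_mul_of_nonneg_right hcd hLk.le
    have e2 : cd * (T ^ (2 * k) / L ^ (2 * k * s)) * L ^ (2 * k * s) = cd * T ^ (2 * k) := by field_simp
    rwa [e2] at h6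
  have h6 : Jn * BMv ≤ L * (X * (L ^ E * (T ^ (2 * k) * ((6 * κr) ^ k / T ^ (A + 2)))) + 2 * (Dm * T) ^ (2 * k)) := by
    have h7 : BMv ≤ X * (L ^ E * (T ^ (2 * k) * ((6 * κr) ^ k / T ^ (A + 2)))) + 2 * (Dm * T) ^ (2 * k) := by
      refine hBM.trans ?_
      gcongr
    have h8 : 0 ≤ X * (L ^ E * (T ^ (2 * k) * ((6 * κr) ^ k / T ^ (A + 2)))) + 2 * (Dm * T) ^ (2 * k) := by
      have : 0 ≤ (Dm * T) ^ (2 * k) := by rw [pow_mul]; positivity
      positivity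
    calc Jn * BMv ≤ Jn * (X * (L ^ E * (T ^ (2 * k) * ((6 * κr) ^ k / T ^ (A + 2)))) + 2 * (Dm * T) ^ (2 * k)) :=
          mul_le_mul_of_nonneg_left h7 hJ0
      _ ≤ _ := mul_le_mul_of_nonneg_right hJ h8
  have h7 : cd * T ^ (2 * k) ≤ X / T ^ A * T ^ (2 * k) := by
    refine (h5.trans (mul_le_mul_of_nonneg_right h6 hLk.le)).trans ?_
    have a1 : L * (X * (L ^ E * (T ^ (2 * k) * ((6 * κr) ^ k / T ^ (A + 2))))) * L ^ (2 * k * s) ≤
        X / T ^ A / 2 * T ^ (2 * k) := by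
      have e2 : L * (X * (L ^ E * (T ^ (2 * k) * ((6 * κr) ^ k / T ^ (A + 2))))) * L ^ (2 * k * s) =
          (X / T ^ A * T ^ (2 * k)) * ((6 * κr) ^ k * (L * L ^ E * L ^ (2 * k * s)) / T ^ 2) := by
        rw [pow_add T A 2]
        field_simp
      rw [e2]
      have e3 : X / T ^ A / 2 * T ^ (2 * k) = (X / T ^ A * T ^ (2 * k)) * (1 / 2) := by ring
      rw [e3]
      apply mul_le_mul_of_nonneg_left _ (by positivity)
      rw [div_le_div_iff₀ (by positivity) (by norm_num), one_mul]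
      calc (6 * κr) ^ k * (L * L ^ E * L ^ (2 * k * s)) * 2 = 2 * (6 * κr) ^ k * (L * L ^ E * L ^ (2 * k * s)) := by ring
        _ ≤ L * (L * L ^ E * L ^ (2 * k * s)) := mul_le_mul_of_nonneg_right h1 (by positivity)
        _ = L ^ (E + 2 * k * s + 2) := by ring
        _ ≤ T ^ 2 := h2
    have a2 : L * (2 * (Dm * T) ^ (2 * k)) * L ^ (2 * k * s) ≤ X / T ^ A / 2 * T ^ (2 * k) := by
      have e2 : L * (2 * (Dm * T) ^ (2 * k)) * L ^ (2 * k * s) =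
          (4 * L * L ^ (2 * k * s) * Dm ^ (2 * k) * T ^ A) / T ^ A / 2 * T ^ (2 * k) := by
        rw [mul_pow]
        field_simp
        ring
      rw [e2]
      gcongr
    have e4 : L * (X * (L ^ E * (T ^ (2 * k) * ((6 * κr) ^ k / T ^ (A + 2)))) + 2 * (Dm * T) ^ (2 * k)) * L ^ (2 * k * s) =
        L * (X * (L ^ E * (T ^ (2 * k) * ((6 * κr) ^ k / T ^ (A + 2))))) * L ^ (2 * k * s) +
          L * (2 * (Dm * T) ^ (2 * k)) * L ^ (2 * k * s) := by ring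
    rw [e4]
    linarith
  exact le_of_mul_le_mul_right h7 hTk

end Pool.Agent.H36.LH
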