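import Mathlib
import Pool.Agent.H36.LH.EvM
import Pool.Agent.H36.BF.EvC

/-!
The law for long windows: power saving for the number of exceptions.
-/

set_option autoImplicit false

open Finset Filter

namespace Pool.Agent.H36.LH

open Pool.Agent.H36.RW Pool.Agent.H373R2.T7 Pool.Agent.H36.BF Pool.Agent.H36.BE
open Pool.Agent.H36.KT

lemma V_low (κ z : ℕ) (hκ : 1 ≤ κ) (R : ℕ → ℕ → Prop) (hR : PerB R κ) (hA : ∀ p : ℕ, p.Prime → nuB R p < p) (cl L : ℝ)
    (hcl : 0 < cl) (hL : 0 < L) (hz : cl / L ≤ Vz z) (h : (2 * κ / cl) ^ (2 * κ) ≤ L) :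
    1 / L ^ (2 * κ + 1) ≤ Wg (gam R) (pz z) := by
  have hκr : (1 : ℝ) ≤ κ := by exact_mod_cast hκ
  have h1 := Wg_lower hκ hR hA z (pz z) (fun p hp => ⟨(mem_pz.1 hp).2, (mem_pz.1 hp).1⟩)
  refine le_trans ?_ h1
  have h2 : (cl / L) ^ (2 * κ) ≤ Vz z ^ (2 * κ) := pow_le_pow_left₀ (by positivity) hz _
  refine le_trans ?_ (mul_le_mul_of_nonneg_left h2 (by positivity))
  rw [← mul_pow]
  have e1 : 1 / (2 * (κ : ℝ)) * (cl / L) = 1 / (2 * κ / cl * L) := by field_simp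
  rw [e1, div_pow, one_pow, mul_pow]
  apply div_le_div_of_nonneg_left (by norm_num) (by positivity)
  rw [pow_succ]
  calc (2 * κ / cl) ^ (2 * κ) * L ^ (2 * κ) ≤ L * L ^ (2 * κ) := mul_le_mul_of_nonneg_right h (by positivity)
    _ = L ^ (2 * κ) * L := by ring

open Classical in
set_option maxHeartbeats 2000000 in
theorem lh_mid (κ : ℕ) (hκ : 1 ≤ κ) (ε : ℝ) (hε : 0 < ε) (b0 : ℕ) : ∃ b : ℕ, b0 ≤ b ∧ 1 ≤ b ∧ ∀ A : ℕ, ∃ B : ℕ,
    ∃ c0 : ℝ, 0 < c0 ∧ c0 ≤ 1 / 2 ∧ ∀ c : ℝ, 0 < c → c ≤ c0 → ∀ᶠ L : ℝ in atTop, ∀ X : ℕ, Real.exp L ≤ X →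
    ∀ T : ℕ, L ^ B ≤ T → (T : ℝ) ≤ Real.exp (40 * b * c * L) →
    ∀ R : ℕ → ℕ → Prop, PerB R κ → (∀ p : ℕ, p.Prime → nuB R p < p) → ∀ N : ℕ,
    (((Ioc N (N + X)).filter (fun n => ε * (T * Wg (gam R) (pz (zE c L))) <
      |(SC R (pz (zE c L)) n T : ℝ) - T * Wg (gam R) (pz (zE c L))|)).card : ℝ) ≤ X / (T : ℝ) ^ A := by
  obtain ⟨C0, hC0, hfin⟩ := fin_all κ hκ
  obtain ⟨b1, hb1⟩ := exists_pow_lt_of_lt_one (show 0 < ε / 18 by positivity) (show (1 / 4 : ℝ) < 1 by norm_num)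
  obtain ⟨cl, hcl, hVl⟩ := Vz_lower
  set b := max (max C0 b0) (max b1 2) with hb
  have hbC0 : C0 ≤ b := (le_max_left _ _).trans (le_max_left _ _)
  have hbb0 : b0 ≤ b := (le_max_right _ _).trans (le_max_left _ _)
  have hbb1 : b1 ≤ b := (le_max_left _ _).trans (le_max_right _ _)
  have hb2 : 2 ≤ b := (le_max_right _ _).trans (le_max_right _ _)
  have hη : 9 * (1 / 4 : ℝ) ^ b ≤ ε / 2 := by
    have : (1 / 4 : ℝ) ^ b ≤ (1 / 4) ^ b1 := pow_le_pow_of_le_one (by norm_num) (by norm_num) hbb1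
    linarith
  refine ⟨b, hbb0, by omega, fun A => ?_⟩
  set k := 80 * b * (A + 2) with hk
  set s := 2 * κ + 4 with hs
  set E := 2 * κ * (2 * k) + 2 * (2 ^ (2 * k) * (2 * k) * κ) + 2 * (4 ^ (2 * k) * (2 * κ)) with hE
  set B := E + 2 * k * s + 2 + (4 * κ + 6) + 80 * b with hB
  have hbr : (0 : ℝ) < b := by exact_mod_cast (by omega : 0 < b)
  have hκr : (1 : ℝ) ≤ κ := by exact_mod_cast hκ
  set c0 : ℝ := 1 / (400 * b * (k + A + 1)) with hc0
  have hc0pos : 0 < c0 := by positivity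
  have hc0half : c0 ≤ 1 / 2 := by
    rw [hc0]
    apply one_div_le_one_div_of_le (by norm_num)
    have h1 : (1 : ℝ) ≤ b := by exact_mod_cast (by omega : 1 ≤ b)
    have h2 : (0 : ℝ) ≤ (k : ℝ) + A := by positivity
    nlinarith
  refine ⟨B, c0, hc0pos, hc0half, fun c hc hcc0 => ?_⟩
  set p0' := 12 + 2 * κ with hp0
  set Qt : ℕ := Qy p0' with hQt
  have hQt1 : 1 ≤ Qt := Qy_pos p0'
  have hQtr : (1 : ℝ) ≤ Qt := by exact_mod_cast hQt1
  filter_upwards [ev_pow_exp 3 (c / 2) (by positivity) 0, ev_log_add 8 1 1 one_pos,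
    ev_pow_exp (4 * (3 * Qt) ^ (2 * k)) (1 / 2) (by norm_num) (2 * k * s + 1),
    eventually_ge_atTop (Real.exp 1), eventually_ge_atTop (1 / cl), eventually_ge_atTop ((p0' : ℝ) + 3 * κ + 2),
    eventually_ge_atTop (2 * (6 * (κ : ℝ)) ^ k), eventually_ge_atTop (4 / ε), eventually_ge_atTop (16 * (Qt : ℝ) / ε),
    eventually_ge_atTop ((2 * κ / cl) ^ (2 * κ)), eventually_ge_atTop (3 : ℝ)] with L g1 g2 g3 g4 g5 g6 g7 g8 g9 g10 g11
  intro X hX T hTL hTU R hR hAd N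
  rw [pow_zero, mul_one] at g1
  rw [Real.rpow_one] at g2
  have hL1 : 1 ≤ L := by linarith
  have hL0 : 0 < L := by linarith
  set z := zE c L with hz
  have hzle : (z : ℝ) ≤ Real.exp (c * L) := zE_le c L
  have hlog1 : c * L / 2 ≤ Real.log z := log_floor_ge (c * L) (by
    have : c / 2 * L = c * L / 2 := by ring
    rw [this] at g1
    exact g1)
  have hlog0 : 0 < Real.log z := lt_of_lt_of_le (by positivity) hlog1
  have hz2 : 2 ≤ z := by
    by_contra h1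
    push Not at h1
    have h2 : z = 0 ∨ z = 1 := by omega
    rcases h2 with h2 | h2 <;> rw [h2] at hlog0 <;> simp at hlog0
  have hz0 : (0 : ℝ) < z := by exact_mod_cast (by omega : 0 < z)
  have hc1 : c ≤ 1 := by linarith
  have hlogz : Real.log z ≤ L := by
    have h1 := Real.log_le_log hz0 hzle
    rw [Real.log_exp] at h1
    nlinarith
  have hX0 : (0 : ℝ) < X := (Real.exp_pos L).trans_le hX
  have hLB : (1 : ℝ) ≤ L ^ B := one_le_pow₀ hL1
  have hT1r : (1 : ℝ) ≤ T := hLB.trans hTL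
  have hT1 : 1 ≤ T := by exact_mod_cast hT1r
  have hT0 : (0 : ℝ) < T := by linarith
  obtain ⟨w, hw1, hw2⟩ := root_nat (80 * b) T (by omega)
  have hw1r : (w : ℝ) ^ (80 * b) ≤ T := by exact_mod_cast hw1
  have hw2r : (T : ℝ) < ((w : ℝ) + 1) ^ (80 * b) := by exact_mod_cast hw2
  have hpowT : ∀ j : ℕ, j ≤ B → L ^ j ≤ (T : ℝ) := fun j hj => (pow_le_pow_right₀ hL1 hj).trans hTL
  have hLw : L < (w : ℝ) + 1 := by
    have h1 : L ^ (80 * b) < ((w : ℝ) + 1) ^ (80 * b) := (hpowT (80 * b) (by omega)).trans_lt hw2r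
    exact lt_of_pow_lt_pow_left₀ _ (by positivity) h1
  have hwbig : p0' + 3 * κ < w := by
    have : ((p0' + 3 * κ + 2 : ℕ) : ℝ) < ((w + 1 : ℕ) : ℝ) := by
      push_cast
      linarith
    have h2 : p0' + 3 * κ + 2 < w + 1 := by exact_mod_cast this
    omega
  have hwz : w ≤ z := by
    have h1 : (w : ℝ) ^ (80 * b) ≤ (Real.exp (c * L / 2)) ^ (80 * b) := by
      rw [← Real.exp_nat_mul]
      refine (hw1r.trans hTU).trans (Real.exp_le_exp.2 ?_)
      push_cast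
      apply le_of_eq
      ring
    have h2 : (w : ℝ) ≤ Real.exp (c * L / 2) := (pow_le_pow_iff_left₀ (Nat.cast_nonneg _) (Real.exp_pos _).le (by omega)).1 h1
    have h3 : Real.exp (c * L / 2) ≤ z := by
      rw [← Real.exp_log hz0]
      exact Real.exp_le_exp.2 hlog1
    exact_mod_cast h2.trans h3
  have hwT : w ≤ T := (Nat.le_self_pow (by omega) w).trans hw1
  have hset : pz p0' ∪ Pyz p0' w ∪ Pyz w z = pz z := by
    rw [← pz_split p0' w (by omega), ← pz_split w z hwz]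
  have hd01 : Disjoint (pz p0') (Pyz p0' w) := pz_disj p0' w
  have hd02 : Disjoint (pz p0') (Pyz w z) := by
    rw [disjoint_left]
    intro p h1 h2
    have := (mem_pz.1 h1).1
    have := (mem_Pyz.1 h2).1
    omega
  have hd12 : Disjoint (Pyz p0' w) (Pyz w z) := by
    rw [disjoint_left]
    intro p h1 h2
    have := (mem_Pyz.1 h1).2.1
    have := (mem_Pyz.1 h2).1
    omega
  have key := hfin b (JJ w) (JJ z) k T w N X (pz p0') (Pyz p0' w) (Pyz w z) R ((T : ℝ) / L ^ s) hR hbC0 hb2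
    (fun p hp => (mem_pz.1 hp).2) (by
      intro p hp
      obtain ⟨h1, h2, h3⟩ := mem_Pyz.1 hp
      exact ⟨h3, by omega, h2.trans (JJ_lt w).le, by omega⟩) (by
      intro p hp
      obtain ⟨h1, h2, h3⟩ := mem_Pyz.1 hp
      exact ⟨h3, by omega, h2.trans (JJ_lt z).le, by omega, by omega⟩) hd01 hd02 hd12 (by omega) (by omega) hwT (by positivity)
  rw [hset] at key
  set L1 : ℕ := (2 ^ 2 ^ JJ w) ^ (10 * b) with hL1d
  set L2 : ℕ := (2 ^ 2 ^ JJ z) ^ (10 * b) with hL2d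
  have hL1w : (L1 : ℝ) ≤ (w : ℝ) ^ (20 * b) := by
    rw [hL1d]
    push_cast
    calc ((2 : ℝ) ^ 2 ^ JJ w) ^ (10 * b) ≤ ((w : ℝ) ^ 2) ^ (10 * b) := pow_le_pow_left₀ (by positivity) (pow_JJ w (by omega)) _
      _ = _ := by rw [← pow_mul]; congr 1; ring
  have hL2z : (L2 : ℝ) ≤ Real.exp (20 * b * c * L) := by
    rw [hL2d]
    push_cast
    apply pow_JJ' z (10 * b) hz2 (c * L) _ hzle
    push_cast
    apply le_of_eq
    ring
  have hL1T : (L1 : ℝ) ^ 4 ≤ T := by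
    calc (L1 : ℝ) ^ 4 ≤ ((w : ℝ) ^ (20 * b)) ^ 4 := pow_le_pow_left₀ (Nat.cast_nonneg _) hL1w _
      _ = (w : ℝ) ^ (80 * b) := by rw [← pow_mul]; congr 1; ring
      _ ≤ T := hw1r
  have hJw : (JJ w : ℝ) ≤ 4 * Real.log L := J_bound w L (by omega) g4 (by
    have : Real.log w ≤ Real.log z := Real.log_le_log (by exact_mod_cast (by omega : 0 < w)) (by exact_mod_cast hwz)
    linarith)
  have hJz : (JJ z : ℝ) ≤ 4 * Real.log L := J_bound z L hz2 g4 hlogz
  have hJ : (1 : ℝ) + JJ w + JJ z ≤ L := by linarith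
  have hVz : cl / L ≤ Vz z := by
    refine le_trans ?_ (hVl z hz2)
    exact div_le_div_of_nonneg_left hcl.le hlog0 hlogz
  have hVz0 : 0 < Vz z := Vz_pos z
  have hVzinv : 1 / Vz z ≤ L ^ 2 := by
    rw [div_le_iff₀ hVz0]
    have h1 : L ^ 2 * (cl / L) ≤ L ^ 2 * Vz z := mul_le_mul_of_nonneg_left hVz (by positivity)
    have h2 : 1 ≤ L * cl := by rwa [div_le_iff₀ hcl] at g5
    have h3 : L ^ 2 * (cl / L) = L * cl := by field_simp
    linarith
  have hV := V_low κ z hκ R hR hAd cl L hcl hL0 hVz g10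
  have hdev := dev_le (T : ℝ) (Wg (gam R) (pz z)) L Qt L1 (1 + JJ w + JJ z) ε (9 * (1 / 4 : ℝ) ^ b) κ hT0 hV hL1 hε hη
    (by positivity) (Nat.cast_nonneg _) hL1T hJ (hpowT _ (by omega)) g9 (by nlinarith)
  set Bd := (Ioc N (N + X)).filter (fun n => ε * (T * Wg (gam R) (pz z)) <
      |(SC R (pz z) n T : ℝ) - T * Wg (gam R) (pz z)|) with hBd
  have hcd : (Bd.card : ℝ) * ((T : ℝ) / L ^ s) ^ (2 * k) ≤ (1 + JJ w + JJ z) *
      BM κ k T w X L1 L2 (pz p0') (Pyz p0' w) (Pyz w z) := by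
    refine le_trans ?_ key
    apply mul_le_mul_of_nonneg_right _ (by positivity)
    apply Nat.cast_le.2
    apply card_le_card
    intro n hn
    rw [hBd, mem_filter] at hn
    rw [mem_filter]
    refine ⟨hn.1, lt_of_le_of_lt ?_ hn.2⟩
    refine le_trans (le_of_eq ?_) hdev
    have : ((∏ p ∈ pz p0', p) * L1 : ℕ) = Qt * L1 := rfl
    rw [this]
    push_cast
    ring
  have hBM := BM_le κ k T w z X p0' L1 L2 L hwz hVzinv hL0.le
  set Dm : ℝ := (Qt : ℝ) * L1 * L2 * (L1 * (L2 + 2)) with hDm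
  have hDm0 : 0 ≤ Dm := by positivity
  have hBM' : BM κ k T w X L1 L2 (pz p0') (Pyz p0' w) (Pyz w z) ≤
      X * (L ^ E * (T ^ (2 * k) * (3 * (κ : ℝ) / w) ^ k)) + 2 * (Dm * T) ^ (2 * k) := by
    refine hBM.trans (le_of_eq ?_)
    have e1 : L ^ E = L ^ (2 * κ * (2 * k)) * L ^ (2 * (2 ^ (2 * k) * (2 * k) * κ)) * L ^ (2 * (4 ^ (2 * k) * (2 * κ))) := by
      rw [hE, pow_add, pow_add]
    have e2 : (((Qy p0' * L1 * L2 : ℕ) : ℝ)) ^ (2 * k) * ((T : ℝ) * (L1 * (L2 + 2))) ^ (2 * k) = (Dm * T) ^ (2 * k) := by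
      rw [← mul_pow]
      congr 1
      rw [hDm]
      push_cast
      ring
    have e3 : 2 * (((Qy p0' * L1 * L2 : ℕ) : ℝ)) ^ (2 * k) * ((T : ℝ) * (L1 * (L2 + 2))) ^ (2 * k) =
        2 * (Dm * T) ^ (2 * k) := by
      rw [mul_assoc, e2]
    rw [e3, e1]
    ring
  have hw1' : (1 : ℝ) ≤ w := by exact_mod_cast (by omega : 1 ≤ w)
  have hL2one : (1 : ℝ) ≤ L2 := by
    have : 1 ≤ L2 := Nat.one_le_pow _ _ (by positivity)
    exact_mod_cast this
  have hDmle : Dm ^ (2 * k) ≤ (3 * Qt) ^ (2 * k) * (T ^ k * Real.exp (80 * b * c * k * L)) := by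
    have h1 : Dm ≤ 3 * Qt * ((L1 : ℝ) ^ 2 * (L2 : ℝ) ^ 2) := by
      rw [hDm]
      have h2 : (L2 : ℝ) + 2 ≤ 3 * L2 := by linarith
      calc (Qt : ℝ) * L1 * L2 * (L1 * (L2 + 2)) ≤ (Qt : ℝ) * L1 * L2 * (L1 * (3 * L2)) := by gcongr
        _ = _ := by ring
    calc Dm ^ (2 * k) ≤ (3 * Qt * ((L1 : ℝ) ^ 2 * (L2 : ℝ) ^ 2)) ^ (2 * k) := pow_le_pow_left₀ hDm0 h1 _
      _ = (3 * Qt) ^ (2 * k) * (((L1 : ℝ) ^ 4) ^ k * ((L2 : ℝ) ^ 4) ^ k) := by
          rw [mul_pow (3 * (Qt : ℝ)), mul_pow ((L1 : ℝ) ^ 2), ← pow_mul, ← pow_mul, ← pow_mul, ← pow_mul]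
          have e3 : 2 * (2 * k) = 4 * k := by ring
          rw [e3]
      _ ≤ (3 * Qt) ^ (2 * k) * (T ^ k * Real.exp (80 * b * c * k * L)) := by
          apply mul_le_mul_of_nonneg_left _ (by positivity)
          apply mul_le_mul (pow_le_pow_left₀ (by positivity) hL1T k) _ (by positivity) (by positivity)
          calc ((L2 : ℝ) ^ 4) ^ k ≤ ((Real.exp (20 * b * c * L)) ^ 4) ^ k := by
                apply pow_le_pow_left₀ (by positivity)
                exact pow_le_pow_left₀ (by positivity) hL2z 4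
            _ = Real.exp (80 * b * c * k * L) := by
                rw [← pow_mul, ← Real.exp_nat_mul]
                congr 1
                push_cast
                ring
  have hX3 : 4 * L * L ^ (2 * k * s) * Dm ^ (2 * k) * (T : ℝ) ^ A ≤ X := by
    have h1 : (T : ℝ) ^ (k + A) ≤ Real.exp (40 * b * c * (k + A) * L) := by
      calc (T : ℝ) ^ (k + A) ≤ (Real.exp (40 * b * c * L)) ^ (k + A) := pow_le_pow_left₀ hT0.le hTU _
        _ = _ := by
            rw [← Real.exp_nat_mul]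
            congr 1
            push_cast
            ring
    have h2 : 120 * b * c * (k + A) * L ≤ L / 2 := by
      have h3 : c * (400 * b * (k + A + 1)) ≤ 1 := by
        rw [hc0, le_div_iff₀ (by positivity)] at hcc0
        exact hcc0
      have h4 : 120 * b * c * ((k : ℝ) + A) ≤ 1 / 2 := by
        have h5 : 0 ≤ b * c * ((k : ℝ) + A) := by positivity
        have h6 : 0 ≤ b * c := by positivity
        nlinarith
      calc 120 * b * c * ((k : ℝ) + A) * L ≤ 1 / 2 * L := mul_le_mul_of_nonneg_right h4 hL0.le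
        _ = L / 2 := by ring
    calc 4 * L * L ^ (2 * k * s) * Dm ^ (2 * k) * (T : ℝ) ^ A ≤
        4 * L * L ^ (2 * k * s) * ((3 * Qt) ^ (2 * k) * (T ^ k * Real.exp (80 * b * c * k * L))) * (T : ℝ) ^ A := by
          gcongr
      _ = (4 * (3 * Qt) ^ (2 * k) * L ^ (2 * k * s + 1)) * ((T : ℝ) ^ (k + A) * Real.exp (80 * b * c * k * L)) := by
          rw [pow_add, pow_add]
          ring
      _ ≤ Real.exp (1 / 2 * L) * (Real.exp (40 * b * c * (k + A) * L) * Real.exp (80 * b * c * k * L)) := by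
          apply mul_le_mul g3 _ (by positivity) (Real.exp_pos _).le
          exact mul_le_mul_of_nonneg_right h1 (Real.exp_pos _).le
      _ = Real.exp (1 / 2 * L + (40 * b * c * (k + A) * L + 80 * b * c * k * L)) := by
          rw [Real.exp_add, Real.exp_add]
      _ ≤ Real.exp L := by
          apply Real.exp_le_exp.2
          have h3 : 80 * b * c * k * L ≤ 80 * b * c * (k + A) * L := by
            have : (k : ℝ) ≤ k + A := by
              have : (0 : ℝ) ≤ A := Nat.cast_nonneg _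
              linarith
            gcongr
          have h4 : 120 * b * c * (k + A) * L = 40 * b * c * (k + A) * L + 80 * b * c * (k + A) * L := by ring
          linarith
      _ ≤ X := hX
  exact cnt_le (T : ℝ) L (Bd.card : ℝ) (1 + JJ w + JJ z) _ X κ w Dm k s A E b (80 * b) hT1r hL1 hX0.le hJ (by positivity) hw1'
    (Nat.cast_nonneg _) hw2r.le hk hBM' hcd g7 ((hpowT _ (by omega)).trans (by nlinarith)) hX3

end Pool.Agent.H36.LH
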