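import Mathlib
import Pool.Agent.H36.LH.EvN
import Pool.Graph.R_seed8.H373R2.T7.Fund

/-!
The law for all long windows at the same time.
-/

set_option autoImplicit false

open Finset Filter

namespace Pool.Agent.H36.LH

open Pool.Agent.H36.RW Pool.Agent.H373R2.T7 Pool.Agent.H36.BF Pool.Agent.H36.BE
open Pool.Agent.H36.KT

variable {R : ℕ → ℕ → Prop} {κ : ℕ}

lemma ind_shift (p n h : ℕ) : ind (fun p h => R p (n + h)) p h = ind R p (n + h) := by
  unfold ind
  rfl

lemma nuB_shift (hR : PerB R κ) (p n : ℕ) (hp : 0 < p) : nuB (fun p h => R p (n + h)) p = nuB R p := by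
  have h1 : ∑ h ∈ range p, ind R p (n + h) = (nuB (fun p h => R p (n + h)) p : ℝ) := by
    rw [← sum_ind]
    rfl
  have h2 := avg_shift (ind_per hR p) n
  have hp0 : (0 : ℝ) < p := by exact_mod_cast hp
  unfold avg at h2
  rw [div_left_inj' hp0.ne', sum_ind] at h2
  have h3 : ∑ h ∈ range p, ind R p (n + h) = ∑ h ∈ range p, ind R p (h + n) :=
    sum_congr rfl fun h _ => by rw [add_comm]
  rw [h3, h2] at h1
  exact_mod_cast h1.symm

lemma perB_shift (hR : PerB R κ) (n : ℕ) : PerB (fun p h => R p (n + h)) κ := by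
  refine ⟨fun p h => ?_, fun p hp => ?_⟩
  · constructor
    · intro h1
      rw [hR.per] at h1 ⊢
      rwa [Nat.add_mod, Nat.mod_mod, ← Nat.add_mod]
    · intro h1
      rw [hR.per] at h1 ⊢
      rwa [Nat.add_mod, Nat.mod_mod, ← Nat.add_mod] at h1
  · rw [nuB_shift hR p n hp.pos]
    exact hR.few p hp

lemma V_prod (z : ℕ) : ∏ p ∈ pz z, (1 - (nuB R p : ℝ) / p) = Wg (gam R) (pz z) := rfl

lemma Wg_le_one' (P : Finset ℕ) : Wg (gam R) P ≤ 1 := by
  unfold Wg
  apply prod_le_one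
  · intro p _
    have := gam_le_one (R := R) p
    linarith
  · intro p _
    have := gam_nonneg (R := R) p
    linarith

/-- tail sums -/
lemma tail_sum (lam : ℝ) (hlam : 2 ≤ lam) (M : ℕ) (A : ℕ) :
    ∑ T ∈ (Icc 1 M).filter (fun T : ℕ => lam ≤ T), (1 : ℝ) / (T : ℝ) ^ (A + 2) ≤ 1 / lam ^ A := by
  have h1 : ∀ T ∈ (Icc 1 M).filter (fun T : ℕ => lam ≤ T), (1 : ℝ) / (T : ℝ) ^ (A + 2) ≤ 1 / lam ^ A * (1 / (T : ℝ) ^ 2) := by
    intro T hT
    rw [mem_filter] at hT
    have h2 : 0 < (T : ℝ) := by linarith [hT.2]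
    rw [pow_add, ← one_div_mul_one_div]
    apply mul_le_mul_of_nonneg_right _ (by positivity)
    apply one_div_le_one_div_of_le (by positivity)
    exact pow_le_pow_left₀ (by linarith) hT.2 _
  refine (sum_le_sum h1).trans ?_
  rw [← mul_sum]
  have h3 : ∑ T ∈ (Icc 1 M).filter (fun T : ℕ => lam ≤ T), (1 : ℝ) / (T : ℝ) ^ 2 ≤ 1 := by
    calc ∑ T ∈ (Icc 1 M).filter (fun T : ℕ => lam ≤ T), (1 : ℝ) / (T : ℝ) ^ 2 ≤ ∑ T ∈ Ioc 1 M, (1 : ℝ) / (T : ℝ) ^ 2 := by
          apply sum_le_sum_of_subset_of_nonneg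
          · intro T hT
            rw [mem_filter, mem_Icc] at hT
            rw [mem_Ioc]
            have : (2 : ℝ) ≤ T := hlam.trans hT.2
            have h4 : 2 ≤ T := by exact_mod_cast this
            exact ⟨by omega, hT.1.2⟩
          · intro _ _ _; positivity
      _ ≤ 1 / ((1 : ℕ) : ℝ) := sum_inv_sq_aux 1 M le_rfl
      _ = 1 := by norm_num
  have h4 : 0 ≤ 1 / lam ^ A := by positivity
  calc 1 / lam ^ A * _ ≤ 1 / lam ^ A * 1 := mul_le_mul_of_nonneg_left h3 h4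
    _ = _ := mul_one _

open Classical in
set_option maxHeartbeats 2000000 in
/-- all long windows -/
theorem lh_all (κ : ℕ) (hκ : 1 ≤ κ) (ε : ℝ) (hε : 0 < ε) (A : ℕ) : ∃ B : ℕ, 1 ≤ B ∧
    ∃ c0 : ℝ, 0 < c0 ∧ c0 ≤ 1 / 2 ∧ ∀ c : ℝ, 0 < c → c ≤ c0 → ∀ᶠ L : ℝ in atTop, ∀ X : ℕ, Real.exp L ≤ X →
    ∀ R : ℕ → ℕ → Prop, PerB R κ → (∀ p : ℕ, p.Prime → nuB R p < p) → ∀ N : ℕ, ∀ lam : ℝ, L ^ B ≤ lam →
    (((Ioc N (N + X)).filter (fun n => ∃ T : ℕ, lam ≤ T ∧ ε * (T * Wg (gam R) (pz (zE c L))) <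
      |(SC R (pz (zE c L)) n T : ℝ) - T * Wg (gam R) (pz (zE c L))|)).card : ℝ) ≤ X / lam ^ A := by
  obtain ⟨K, x0, hK, hsys⟩ := sys_fund κ hκ (ε / 2) (by positivity)
  obtain ⟨b, hbK, hb1, hmid⟩ := lh_mid κ hκ ε hε K
  obtain ⟨B, c0, hc0, hc02, hmid⟩ := hmid (A + 2)
  obtain ⟨cl, hcl, hVl⟩ := Vz_lower
  refine ⟨B + 1, by omega, c0, hc0, hc02, fun c hc hcc0 => ?_⟩
  have hbr : (1 : ℝ) ≤ b := by exact_mod_cast hb1
  have hκr : (1 : ℝ) ≤ κ := by exact_mod_cast hκ
  filter_upwards [hmid c hc hcc0, ev_pow_exp 3 (c / 2) (by positivity) 0,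
    ev_pow_exp (x0 : ℝ) (c / 2) (by positivity) 0,
    ev_pow_exp (4 / ε ^ 2) (40 * b * c) (by positivity) (2 * (2 * κ + 1)),
    eventually_ge_atTop ((2 * κ / cl) ^ (2 * κ)), eventually_ge_atTop (3 : ℝ)] with L hm g1 g2 g3 g4 g5
  intro X hX R hR hAd N lam hlam
  rw [pow_zero, mul_one] at g1 g2
  have hL1 : 1 ≤ L := by linarith
  have hL0 : 0 < L := by linarith
  set z := zE c L with hz
  have hzle : (z : ℝ) ≤ Real.exp (c * L) := zE_le c L
  have hlog1 : c * L / 2 ≤ Real.log z := log_floor_ge (c * L) (by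
    have : c / 2 * L = c * L / 2 := by ring
    rw [this] at g1
    exact g1)
  have hlog0 : 0 < Real.log z := lt_of_lt_of_le (by positivity) hlog1
  have hz2 : 2 ≤ z := by
    by_contra h1
    push Not at h1
    have h2 : z = 0 ∨ z = 1 := by omega
    rcases h2 with h2 | h2 <;> rw [h2] at hlog0 <;> simp at hlog0
  have hz0 : (0 : ℝ) < z := by exact_mod_cast (by omega : 0 < z)
  have hlogz : Real.log z ≤ L := by
    have h1 := Real.log_le_log hz0 hzle
    rw [Real.log_exp] at h1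
    nlinarith
  have hX0 : (0 : ℝ) < X := (Real.exp_pos L).trans_le hX
  have hzx0 : x0 ≤ z := by
    have h1 : Real.exp (c * L / 2) ≤ z := by
      rw [← Real.exp_log hz0]
      exact Real.exp_le_exp.2 hlog1
    have e : c / 2 * L = c * L / 2 := by ring
    rw [e] at g2
    exact_mod_cast g2.trans h1
  set V := Wg (gam R) (pz z) with hVd
  have hVz : cl / L ≤ Vz z := by
    refine le_trans ?_ (hVl z hz2)
    exact div_le_div_of_nonneg_left hcl.le hlog0 hlogz
  have hV : 1 / L ^ (2 * κ + 1) ≤ V := V_low κ z hκ R hR hAd cl L hcl hL0 hVz g4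
  have hV0 : 0 < V := lt_of_lt_of_le (by positivity) hV
  have hlamB : L ^ B ≤ lam := (pow_le_pow_right₀ hL1 (by omega)).trans hlam
  have hlam3 : 3 ≤ lam := by
    have h1 : L ^ 1 ≤ L ^ (B + 1) := pow_le_pow_right₀ hL1 (by omega)
    rw [pow_one] at h1
    linarith
  -- very long windows
  have hlong : ∀ T : ℕ, Real.exp (40 * b * c * L) < T → ∀ n : ℕ, |(SC R (pz z) n T : ℝ) - T * V| ≤ ε * (T * V) := by
    intro T hT n
    have hT0 : (0 : ℝ) < T := (Real.exp_pos _).trans hT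
    have hzT : z ^ K ≤ T := by
      have h1 : (z : ℝ) ^ K ≤ T := by
        calc (z : ℝ) ^ K ≤ (Real.exp (c * L)) ^ K := pow_le_pow_left₀ hz0.le hzle _
          _ = Real.exp (K * (c * L)) := by rw [← Real.exp_nat_mul]
          _ ≤ Real.exp (40 * b * c * L) := by
              apply Real.exp_le_exp.2
              have h2 : (K : ℝ) ≤ b := by exact_mod_cast hbK
              have h3 : (K : ℝ) * (c * L) ≤ b * (c * L) := mul_le_mul_of_nonneg_right h2 (by positivity)
              have h4 : 0 ≤ b * (c * L) := by positivity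
              linarith
          _ ≤ T := hT.le
      exact_mod_cast h1
    have h1 := hsys T z hzx0 hzT (fun p h => R p (n + h)) (perB_shift hR n) T
    have h2 : ∏ p ∈ pz z, (1 - (nuB (fun p h => R p (n + h)) p : ℝ) / p) = V := by
      rw [hVd, ← V_prod]
      apply prod_congr rfl
      intro p hp
      rw [nuB_shift hR p n (mem_pz.1 hp).2.pos]
    rw [h2] at h1
    have h3 : √(T : ℝ) ≤ ε / 2 * (T * V) := by
      have h4 : √(T : ℝ) * √(T : ℝ) = T := Real.mul_self_sqrt hT0.le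
      have h5 : 0 < √(T : ℝ) := Real.sqrt_pos.2 hT0
      have h6 : 2 / ε * L ^ (2 * κ + 1) ≤ √(T : ℝ) := by
        apply Real.le_sqrt_of_sq_le
        calc (2 / ε * L ^ (2 * κ + 1)) ^ 2 = 4 / ε ^ 2 * L ^ (2 * (2 * κ + 1)) := by
              rw [mul_pow, ← pow_mul, div_pow]
              congr 1
              · norm_num
              · congr 1; ring
          _ ≤ Real.exp (40 * b * c * L) := g3
          _ ≤ T := hT.le
      calc √(T : ℝ) = ε / 2 * ((2 / ε * L ^ (2 * κ + 1)) * √(T : ℝ) * (1 / L ^ (2 * κ + 1))) := by field_simp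
        _ ≤ ε / 2 * ((√(T : ℝ) * √(T : ℝ)) * V) := by
            apply mul_le_mul_of_nonneg_left _ (by positivity)
            apply mul_le_mul _ hV (by positivity) (by positivity)
            exact mul_le_mul_of_nonneg_right h6 h5.le
        _ = _ := by rw [h4]
    have h7 : (((Icc 1 T).filter (fun h : ℕ => ∀ p ∈ pz z, ¬ R p (n + h))).card : ℝ) = SC R (pz z) n T := by
      unfold SC
      congr
    have h8 : |(SC R (pz z) n T : ℝ) - T * V| ≤ ε / 2 * (T * V) + √(T : ℝ) := by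
      rw [← h7]
      convert h1 using 5
    linarith
  set M := ⌊Real.exp (40 * b * c * L)⌋₊ with hM
  set Bd := (Ioc N (N + X)).filter (fun n => ∃ T : ℕ, lam ≤ T ∧ ε * (T * V) < |(SC R (pz z) n T : ℝ) - T * V|) with hBd
  have hsub : Bd ⊆ ((Icc 1 M).filter (fun T : ℕ => lam ≤ T)).biUnion (fun T => (Ioc N (N + X)).filter
      (fun n => ε * (T * V) < |(SC R (pz z) n T : ℝ) - T * V|)) := by
    intro n hn
    rw [hBd, mem_filter] at hn
    obtain ⟨hn1, T, hT1, hT2⟩ := hn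
    rw [mem_biUnion]
    refine ⟨T, ?_, mem_filter.2 ⟨hn1, hT2⟩⟩
    rw [mem_filter, mem_Icc]
    refine ⟨⟨?_, ?_⟩, hT1⟩
    · have : (1 : ℝ) ≤ T := by linarith
      exact_mod_cast this
    · rw [hM]
      apply Nat.le_floor
      by_contra h1
      exact absurd (hlong T (lt_of_not_ge h1) n) (not_le.2 hT2)
  calc (Bd.card : ℝ) ≤ ∑ T ∈ (Icc 1 M).filter (fun T : ℕ => lam ≤ T), (((Ioc N (N + X)).filter
        (fun n => ε * (T * V) < |(SC R (pz z) n T : ℝ) - T * V|)).card : ℝ) := by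
        exact_mod_cast (card_le_card hsub).trans card_biUnion_le
    _ ≤ ∑ T ∈ (Icc 1 M).filter (fun T : ℕ => lam ≤ T), X / (T : ℝ) ^ (A + 2) := by
        apply sum_le_sum
        intro T hT
        rw [mem_filter, mem_Icc] at hT
        have h1 : (T : ℝ) ≤ Real.exp (40 * b * c * L) := by
          have h2 : (T : ℝ) ≤ M := by exact_mod_cast hT.1.2
          exact h2.trans (Nat.floor_le (Real.exp_pos _).le)
        exact hm X hX T (hlamB.trans hT.2) h1 R hR hAd N
    _ = X * ∑ T ∈ (Icc 1 M).filter (fun T : ℕ => lam ≤ T), (1 : ℝ) / (T : ℝ) ^ (A + 2) := by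
        rw [mul_sum]
        apply sum_congr rfl
        intro T _
        ring
    _ ≤ X * (1 / lam ^ A) := mul_le_mul_of_nonneg_left (tail_sum lam (by linarith) M A) hX0.le
    _ = X / lam ^ A := by ring

end Pool.Agent.H36.LH
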