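import Mathlib
import Pool.Agent.H36.LH.AllL
import Pool.Agent.H36.KT.All

/-!
The law for tuples in progressions, for windows of every length.
-/

set_option autoImplicit false

open Finset Filter

namespace Pool.Agent.H36.LH

open Pool.Agent.H36.RW Pool.Agent.H373R2.T7 Pool.Agent.H36.BF Pool.Agent.H36.BE
open Pool.Agent.H36.KT

/-- the classes of a tuple in a progression -/
def RT (D : Finset ℕ) (w r : ℕ) (p x : ℕ) : Prop := ¬ p ∣ w ∧ ∃ g ∈ pt w D x, p ∣ r + g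

lemma RT_nu1 (D : Finset ℕ) (w r p : ℕ) (hp : p.Prime) (hw : ¬ p ∣ w) : nuB (RT D w r) p = nu p D :=
  nuB_eq D w r p hp hw (RT D w r) fun _ => Iff.rfl

lemma RT_nu0 (D : Finset ℕ) (w r p : ℕ) (hw : p ∣ w) : nuB (RT D w r) p = 0 :=
  nuB_zero w p hw (RT D w r) fun _ h => h.1

lemma RT_per (κ : ℕ) (D : Finset ℕ) (hD : D.card ≤ κ) (w r : ℕ) : PerB (RT D w r) κ := by
  refine ⟨fun p n => ?_, fun p hp => ?_⟩
  · have key : ∀ n n' : ℕ, n ≡ n' [MOD p] → RT D w r p n → RT D w r p n' := by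
      intro n n' hnn h1
      obtain ⟨h2, g, hg, h3⟩ := h1
      obtain ⟨d, hd, rfl⟩ := mem_pt.1 hg
      refine ⟨h2, w * n' + d, mem_pt.2 ⟨d, hd, rfl⟩, ?_⟩
      rw [← Nat.modEq_zero_iff_dvd] at h3 ⊢
      refine Nat.ModEq.trans ?_ h3
      exact Nat.ModEq.add_left _ (Nat.ModEq.add_right _ (Nat.ModEq.mul_left _ hnn.symm))
    exact ⟨key _ _ (Nat.mod_modEq n p).symm, key _ _ (Nat.mod_modEq n p)⟩
  · by_cases h1 : p ∣ w
    · rw [RT_nu0 D w r p h1]
      omega
    · rw [RT_nu1 D w r p hp h1]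
      exact (nu_le p D).trans hD

lemma RT_adm (D : Finset ℕ) (w r : ℕ) (hA : Adm D w) (p : ℕ) (hp : p.Prime) : nuB (RT D w r) p < p := by
  by_cases h1 : p ∣ w
  · rw [RT_nu0 D w r p h1]
    exact hp.pos
  · rw [RT_nu1 D w r p hp h1]
    exact hA p hp h1

lemma RT_V (D : Finset ℕ) (w r z : ℕ) : Wg (gam (RT D w r)) (pz z) = VK D w z := by
  unfold VK WK p0 Wg gam
  rw [prod_filter]
  apply prod_congr rfl
  intro p hp
  by_cases h1 : p ∣ w
  · rw [RT_nu0 D w r p h1, if_neg (not_not.2 h1), Nat.cast_zero, zero_div, sub_zero]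
  · rw [RT_nu1 D w r p (mem_pz.1 hp).2 h1, if_pos h1]

lemma RT_SC (D : Finset ℕ) (w r z n T : ℕ) : SC (RT D w r) (pz z) n T = RK D w z (w * n + r) T := by
  classical
  unfold SC RK
  congr 1
  apply filter_congr
  intro h _
  constructor
  · intro h1 p hp g hg hdvd
    obtain ⟨h2, h3, h4⟩ := mem_p0.1 hp
    obtain ⟨d, hd, rfl⟩ := mem_pt.1 hg
    apply h1 p (mem_pz.2 ⟨h2, h3⟩)
    refine ⟨h4, w * (n + h) + d, mem_pt.2 ⟨d, hd, rfl⟩, ?_⟩
    have e : r + (w * (n + h) + d) = w * n + r + (w * h + d) := by ring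
    rw [e]
    exact hdvd
  · rintro h1 p hp ⟨h4, g, hg, h5⟩
    obtain ⟨d, hd, rfl⟩ := mem_pt.1 hg
    obtain ⟨h2, h3⟩ := mem_pz.1 hp
    apply h1 p (mem_p0.2 ⟨h2, h3, h4⟩) (w * h + d) (mem_pt.2 ⟨d, hd, rfl⟩)
    have e : r + (w * (n + h) + d) = w * n + r + (w * h + d) := by ring
    rw [e] at h5
    exact h5

open Classical in
/-- every length -/
theorem allT (κ : ℕ) (hκ : 1 ≤ κ) (ε : ℝ) (hε : 0 < ε) (hε1 : ε ≤ 1) (A : ℕ) (Bw : ℝ) (hBw : 1 ≤ Bw) :
    ∃ c C : ℝ, 0 < c ∧ c ≤ 1 / 2 ∧ 0 < C ∧ ∀ᶠ L : ℝ in atTop, ∀ X : ℕ, Real.exp L ≤ X → ∀ lam : ℝ, 1 ≤ lam →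
    ∀ (w : ℕ) (D : Finset ℕ), D.card = κ → 1 ≤ w → Adm D w → (w : ℝ) ≤ Real.exp (Bw * L) →
    (∀ d ∈ D, (d : ℝ) ≤ Real.exp (Bw * L)) → ∀ r N : ℕ,
    (((Ioc N (N + X)).filter (fun n => ∃ T : ℕ, lam ≤ T * VK D w (zE c L) ∧
      BadK ε D w (zE c L) (w * n + r) T)).card : ℝ) ≤ C * (X / lam ^ A) := by
  obtain ⟨B, hB, c0, hc0, hc02, hlong⟩ := lh_all κ hκ ε hε A
  set A0 := max A (B + 1) with hA0
  have hBw0 : 1 ≤ Bw / (2 * c0) := by
    rw [le_div_iff₀ (by positivity)]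
    linarith
  obtain ⟨cK, CK, hcK, hcK2, hCK, hshort⟩ := allK κ hκ ε hε hε1 A0 (Bw / (2 * c0)) hBw0
  set c := min cK c0 with hc
  have hcpos : 0 < c := lt_min hcK hc0
  set ρ := c / cK with hρ
  have hρ0 : 0 < ρ := div_pos hcpos hcK
  have hρ1 : ρ ≤ 1 := by
    rw [hρ, div_le_one hcK]
    exact min_le_left _ _
  have hρc : 2 * c0 ≤ ρ := by
    rw [hρ, le_div_iff₀ hcK, hc]
    apply le_min
    · nlinarith
    · nlinarith
  refine ⟨c, CK + 1, hcpos, (min_le_left _ _).trans hcK2, by linarith, ?_⟩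
  have ht : Tendsto (fun L : ℝ => ρ * L) atTop atTop := tendsto_id.const_mul_atTop hρ0
  filter_upwards [ht.eventually hshort, hlong c hcpos (min_le_right _ _), eventually_ge_atTop (1 : ℝ),
    eventually_ge_atTop (1 / ρ ^ (B + 1)), ht.eventually_ge_atTop 1] with L h1 h2 hL1 hL2 hL3
  intro X hX lam hlam w D hDκ hw hA hwL hDL r N
  have hL0 : 0 < L := by linarith
  have hX0 : (0 : ℝ) < X := (Real.exp_pos L).trans_le hX
  have hz : zE cK (ρ * L) = zE c L := by
    unfold zE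
    congr 2
    rw [hρ]
    field_simp
  have hexp : Real.exp (ρ * L) ≤ X := by
    refine le_trans (Real.exp_le_exp.2 ?_) hX
    nlinarith
  have hBwL : Real.exp (Bw * L) ≤ Real.exp (Bw / (2 * c0) * (ρ * L)) := by
    apply Real.exp_le_exp.2
    have e : Bw / (2 * c0) * (ρ * L) = Bw * L * (ρ / (2 * c0)) := by ring
    rw [e]
    have h3 : 1 ≤ ρ / (2 * c0) := by
      rw [le_div_iff₀ (by positivity)]
      linarith
    have h4 : 0 ≤ Bw * L := by positivity
    nlinarith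
  have k1 := h1 X hexp lam hlam w D hDκ hw hA (hwL.trans hBwL) (fun d hd => (hDL d hd).trans hBwL) w (w * N + r)
    (fun p _ _ _ h3 => h3)
  rw [hz] at k1
  set lam' := max (L ^ B) lam with hlam'
  have k2 := h2 X hX (RT D w r) (RT_per κ D hDκ.le w r) (RT_adm D w r hA) N lam' (le_max_left _ _)
  rw [RT_V] at k2
  set Bd := (Ioc N (N + X)).filter (fun n => ∃ T : ℕ, lam ≤ T * VK D w (zE c L) ∧
      BadK ε D w (zE c L) (w * n + r) T) with hBd
  set B1 := (Icc 1 X).filter (fun l => ∃ T : ℕ, lam ≤ T * VK D w (zE c L) ∧ (T : ℝ) ≤ (ρ * L) ^ A0 ∧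
      BadK ε D w (zE c L) (w * l + (w * N + r)) T) with hB1
  set B2 := (Ioc N (N + X)).filter (fun n => ∃ T : ℕ, lam' ≤ T ∧ ε * (T * VK D w (zE c L)) <
      |(SC (RT D w r) (pz (zE c L)) n T : ℝ) - T * VK D w (zE c L)|) with hB2
  have hV1 : VK D w (zE c L) ≤ 1 := VK_le_one D w _
  have hLpow : L ^ B ≤ (ρ * L) ^ A0 := by
    calc L ^ B ≤ (ρ * L) ^ (B + 1) := by
          rw [mul_pow, pow_succ L B]
          have h3 : 1 ≤ ρ ^ (B + 1) * L := by
            rw [div_le_iff₀ (by positivity)] at hL2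
            linarith
          have h4 : 0 ≤ L ^ B := by positivity
          nlinarith
      _ ≤ (ρ * L) ^ A0 := pow_le_pow_right₀ hL3 (le_max_right _ _)
  have hsub : Bd ⊆ B1.image (fun l => N + l) ∪ B2 := by
    intro n hn
    rw [hBd, mem_filter] at hn
    obtain ⟨hn1, T, hT1, hT2⟩ := hn
    rw [mem_union]
    by_cases h3 : (T : ℝ) ≤ (ρ * L) ^ A0
    · left
      rw [mem_image]
      have hn' := mem_Ioc.1 hn1
      refine ⟨n - N, ?_, by omega⟩
      rw [hB1, mem_filter, mem_Icc]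
      refine ⟨by omega, T, hT1, h3, ?_⟩
      have e : w * (n - N) + (w * N + r) = w * n + r := by
        rw [← add_assoc, ← mul_add]
        congr 2
        omega
      rw [e]
      exact hT2
    · right
      rw [not_le] at h3
      rw [hB2, mem_filter]
      refine ⟨hn1, T, ?_, ?_⟩
      · rw [hlam']
        apply max_le
        · exact hLpow.trans h3.le
        · refine hT1.trans ?_
          exact mul_le_of_le_one_right (Nat.cast_nonneg T) hV1
      · rw [RT_SC]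
        exact hT2
  have hcard : (Bd.card : ℝ) ≤ B1.card + B2.card := by
    have h3 : Bd.card ≤ B1.card + B2.card :=
      (card_le_card hsub).trans ((card_union_le _ _).trans (Nat.add_le_add_right card_image_le _))
    exact_mod_cast h3
  have hlam0 : 0 < lam := by linarith
  have k1' : (B1.card : ℝ) ≤ CK * (X / lam ^ A) := by
    refine k1.trans (mul_le_mul_of_nonneg_left ?_ hCK.le)
    apply div_le_div_of_nonneg_left hX0.le (by positivity)
    exact pow_le_pow_right₀ hlam (le_max_left _ _)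
  have k2' : (B2.card : ℝ) ≤ X / lam ^ A := by
    refine k2.trans ?_
    apply div_le_div_of_nonneg_left hX0.le (by positivity)
    exact pow_le_pow_left₀ hlam0.le (le_max_right _ _) _
  calc (Bd.card : ℝ) ≤ B1.card + B2.card := hcard
    _ ≤ CK * (X / lam ^ A) + X / lam ^ A := add_le_add k1' k2'
    _ = (CK + 1) * (X / lam ^ A) := by ring

end Pool.Agent.H36.LH
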