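import Mathlib
import Pool.Agent.H36.RW.Model2

/-!
Moments of the gaps of a finite set in terms of the number of empty windows.
-/

set_option autoImplicit false

open Finset

namespace Pool.Agent.H36.LH

/-- the pairs of consecutive elements of a finite set -/
def consec (S : Finset ℕ) : Finset (ℕ × ℕ) :=
  (S ×ˢ S).filter (fun x => x.1 < x.2 ∧ ∀ y ∈ S, ¬ (x.1 < y ∧ y < x.2))

lemma mem_consec {S : Finset ℕ} {x : ℕ × ℕ} : x ∈ consec S ↔ (x.1 ∈ S ∧ x.2 ∈ S) ∧ x.1 < x.2 ∧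
    ∀ y ∈ S, ¬ (x.1 < y ∧ y < x.2) := by
  unfold consec
  rw [mem_filter, mem_product]

lemma consec_unique {S : Finset ℕ} {x y : ℕ × ℕ} (hx : x ∈ consec S) (hy : y ∈ consec S) (n : ℕ)
    (h1 : x.1 ≤ n ∧ n < x.2) (h2 : y.1 ≤ n ∧ n < y.2) : x = y := by
  rw [mem_consec] at hx hy
  obtain ⟨⟨a1, a2⟩, a3, a4⟩ := hx
  obtain ⟨⟨b1, b2⟩, b3, b4⟩ := hy
  have e1 : x.1 = y.1 := by
    have c1 := a4 y.1 b1
    have c2 := b4 x.1 a1
    omega
  have e2 : x.2 = y.2 := by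
    have c1 := a4 y.2 b2
    have c2 := b4 x.2 a2
    omega
  exact Prod.ext e1 e2

lemma pow_sum (m : ℕ) : ∀ g : ℕ, (g : ℝ) ^ (m + 1) ≤ (m + 1) * ∑ i ∈ range g, ((i : ℝ) + 1) ^ m := by
  intro g
  induction g with
  | zero => simp
  | succ g ih =>
    rw [sum_range_succ, mul_add]
    have h1 : ((g : ℝ) + 1) ^ (m + 1) ≤ (g : ℝ) ^ (m + 1) + (m + 1) * ((g : ℝ) + 1) ^ m := by
      have hg : (0 : ℝ) ≤ g := Nat.cast_nonneg g
      have h2 : -2 ≤ -(1 / ((g : ℝ) + 1)) := by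
        have : 1 / ((g : ℝ) + 1) ≤ 1 := by
          rw [div_le_one (by positivity)]
          linarith
        linarith
      have h3 := one_add_mul_le_pow h2 (m + 1)
      have h4 : 1 + -(1 / ((g : ℝ) + 1)) = g / (g + 1) := by field_simp; ring
      rw [h4] at h3
      have h5 : (g : ℝ) ^ (m + 1) = (g / (g + 1)) ^ (m + 1) * ((g : ℝ) + 1) ^ (m + 1) := by
        rw [← mul_pow]
        congr 1
        field_simp
      rw [h5]
      have h6 := mul_le_mul_of_nonneg_right h3 (show 0 ≤ ((g : ℝ) + 1) ^ (m + 1) by positivity)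
      have h7 : (1 + ((m + 1 : ℕ) : ℝ) * -(1 / ((g : ℝ) + 1))) * ((g : ℝ) + 1) ^ (m + 1) =
          ((g : ℝ) + 1) ^ (m + 1) - (m + 1) * ((g : ℝ) + 1) ^ m := by
        push_cast
        field_simp
        ring
      rw [h7] at h6
      linarith
    push_cast
    linarith

lemma tele (m g : ℕ) (hm : 1 ≤ m) : (g : ℝ) ^ m = ∑ t ∈ range g, (((t : ℝ) + 1) ^ m - (t : ℝ) ^ m) := by
  have h := sum_range_sub (fun t : ℕ => (t : ℝ) ^ m) g
  have h0 : ((0 : ℕ) : ℝ) ^ m = 0 := by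
    rw [Nat.cast_zero, zero_pow (by omega)]
  rw [h0, sub_zero] at h
  rw [← h]
  apply sum_congr rfl
  intro t _
  push_cast
  rfl

open Classical in
/-- the number of positions followed by an empty window -/
noncomputable def Em (P : ℕ → Prop) (N X t : ℕ) : ℕ :=
  ((Ioc N (N + X)).filter (fun n => ∀ h ∈ Icc 1 t, ¬ P (n + h))).card

open Classical in
/-- moments of the gaps -/
theorem gap_sum (P : ℕ → Prop) (N X m : ℕ) (hm : 1 ≤ m) :
    ∑ x ∈ consec ((Ioc N (N + X)).filter P), ((x.2 - x.1 : ℕ) : ℝ) ^ (m + 1) ≤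
      (m + 1) * ∑ t ∈ range X, (((t : ℝ) + 1) ^ m - (t : ℝ) ^ m) * Em P N X t := by
  set S := (Ioc N (N + X)).filter P with hS
  have hw : ∀ t : ℕ, 0 ≤ ((t : ℝ) + 1) ^ m - (t : ℝ) ^ m := fun t => by
    have : (t : ℝ) ^ m ≤ ((t : ℝ) + 1) ^ m := pow_le_pow_left₀ (Nat.cast_nonneg t) (by linarith) m
    linarith
  have h1 : ∀ x ∈ consec S, ((x.2 - x.1 : ℕ) : ℝ) ^ (m + 1) ≤ (m + 1) * ∑ n ∈ Ico x.1 x.2,
      ∑ t ∈ range X, (if n + t < x.2 then (((t : ℝ) + 1) ^ m - (t : ℝ) ^ m) else 0) := by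
    intro x hx
    have hx' := mem_consec.1 hx
    obtain ⟨⟨a1, a2⟩, a3, a4⟩ := hx'
    have hx1 := mem_Ioc.1 (mem_filter.1 a1).1
    have hx2 := mem_Ioc.1 (mem_filter.1 a2).1
    refine (pow_sum m (x.2 - x.1)).trans ?_
    apply mul_le_mul_of_nonneg_left _ (by positivity)
    apply le_of_eq
    -- reverse the order
    have h2 : ∑ i ∈ range (x.2 - x.1), ((i : ℝ) + 1) ^ m = ∑ n ∈ Ico x.1 x.2, ((x.2 - n : ℕ) : ℝ) ^ m := by
      apply sum_bij' (fun i _ => x.2 - 1 - i) (fun n _ => x.2 - 1 - n)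
      · intro i hi
        rw [mem_range] at hi
        rw [mem_Ico]
        omega
      · intro n hn
        rw [mem_Ico] at hn
        rw [mem_range]
        omega
      · intro i hi
        rw [mem_range] at hi
        omega
      · intro n hn
        rw [mem_Ico] at hn
        omega
      · intro i hi
        rw [mem_range] at hi
        have : x.2 - (x.2 - 1 - i) = i + 1 := by omega
        rw [this]
        push_cast
        rfl
    rw [h2]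
    apply sum_congr rfl
    intro n hn
    rw [mem_Ico] at hn
    rw [tele m (x.2 - n) hm, ← sum_filter]
    apply sum_congr _ fun _ _ => rfl
    ext t
    rw [mem_range, mem_filter, mem_range]
    omega
  refine (sum_le_sum h1).trans ?_
  rw [← mul_sum]
  apply mul_le_mul_of_nonneg_left _ (by positivity)
  have h3 : ∑ x ∈ consec S, ∑ n ∈ Ico x.1 x.2, ∑ t ∈ range X, (if n + t < x.2 then (((t : ℝ) + 1) ^ m - (t : ℝ) ^ m) else 0) =
      ∑ t ∈ range X, ∑ x ∈ consec S, ∑ n ∈ Ico x.1 x.2, (if n + t < x.2 then (((t : ℝ) + 1) ^ m - (t : ℝ) ^ m) else 0) := by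
    rw [sum_comm]
    rw [sum_congr rfl fun x _ => sum_comm]
  rw [h3]
  apply sum_le_sum
  intro t _
  have h4 : ∑ x ∈ consec S, ∑ n ∈ Ico x.1 x.2, (if n + t < x.2 then (((t : ℝ) + 1) ^ m - (t : ℝ) ^ m) else 0) =
      (((t : ℝ) + 1) ^ m - (t : ℝ) ^ m) * (∑ x ∈ consec S, ((Ico x.1 x.2).filter (fun n => n + t < x.2)).card : ℕ) := by
    push_cast
    rw [mul_sum]
    apply sum_congr rfl
    intro x _
    rw [← sum_filter, sum_const, nsmul_eq_mul]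
    ring
  rw [h4]
  apply mul_le_mul_of_nonneg_left _ (hw t)
  apply Nat.cast_le.2
  have h5 : ∑ x ∈ consec S, ((Ico x.1 x.2).filter (fun n => n + t < x.2)).card =
      ((consec S).biUnion (fun x => (Ico x.1 x.2).filter (fun n => n + t < x.2))).card := by
    symm
    apply card_biUnion
    intro x hx y hy hxy
    rw [Function.onFun, disjoint_left]
    intro n hn hn'
    rw [mem_filter, mem_Ico] at hn hn'
    exact hxy (consec_unique hx hy n hn.1 hn'.1)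
  rw [h5]
  unfold Em
  apply card_le_card
  intro n hn
  rw [mem_biUnion] at hn
  obtain ⟨x, hx, hn⟩ := hn
  rw [mem_filter, mem_Ico] at hn
  obtain ⟨⟨a1, a2⟩, a3, a4⟩ := mem_consec.1 hx
  have hx1 := mem_Ioc.1 (mem_filter.1 a1).1
  have hx2 := mem_Ioc.1 (mem_filter.1 a2).1
  rw [mem_filter, mem_Ioc]
  refine ⟨by omega, ?_⟩
  intro h hh hP
  rw [mem_Icc] at hh
  exact a4 (n + h) (mem_filter.2 ⟨mem_Ioc.2 (by omega), hP⟩) (by omega)

/-- the sum of the weights -/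
lemma w_le (m t : ℕ) (hm : 1 ≤ m) (ht : 1 ≤ t) : ((t : ℝ) + 1) ^ m - (t : ℝ) ^ m ≤ m * 2 ^ m * (t : ℝ) ^ (m - 1) := by
  obtain ⟨j, rfl⟩ : ∃ j, m = j + 1 := ⟨m - 1, by omega⟩
  have ht0 : (0 : ℝ) < t := by exact_mod_cast ht
  have ht1 : (1 : ℝ) ≤ t := by exact_mod_cast ht
  rw [Nat.add_sub_cancel]
  have h2 : -2 ≤ -(1 / ((t : ℝ) + 1)) := by
    have : 1 / ((t : ℝ) + 1) ≤ 1 := by
      rw [div_le_one (by positivity)]
      linarith
    linarith
  have h3 := one_add_mul_le_pow h2 (j + 1)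
  have h4 : 1 + -(1 / ((t : ℝ) + 1)) = t / (t + 1) := by field_simp; ring
  rw [h4] at h3
  have h5 : (t : ℝ) ^ (j + 1) = (t / (t + 1)) ^ (j + 1) * ((t : ℝ) + 1) ^ (j + 1) := by
    rw [← mul_pow]
    congr 1
    field_simp
  have h6 := mul_le_mul_of_nonneg_right h3 (show 0 ≤ ((t : ℝ) + 1) ^ (j + 1) by positivity)
  rw [← h5] at h6
  have h7 : (1 + ((j + 1 : ℕ) : ℝ) * -(1 / ((t : ℝ) + 1))) * ((t : ℝ) + 1) ^ (j + 1) =
      ((t : ℝ) + 1) ^ (j + 1) - (j + 1) * ((t : ℝ) + 1) ^ j := by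
    push_cast
    field_simp
    ring
  rw [h7] at h6
  have h8 : ((t : ℝ) + 1) ^ j ≤ (2 * t) ^ j := pow_le_pow_left₀ (by positivity) (by linarith) j
  have h9 : ((j : ℝ) + 1) * ((t : ℝ) + 1) ^ j ≤ ((j : ℝ) + 1) * (2 ^ (j + 1) * (t : ℝ) ^ j) := by
    apply mul_le_mul_of_nonneg_left _ (by positivity)
    refine h8.trans ?_
    rw [mul_pow, pow_succ]
    have : 0 ≤ (2 : ℝ) ^ j * t ^ j := by positivity
    nlinarith
  push_cast
  linarith

/-- summation over the lengths -/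
theorem gap_final (X m : ℕ) (E : ℕ → ℝ) (V C : ℝ) (hm : 1 ≤ m) (hV : 0 < V) (hV1 : V ≤ 1) (hC : 0 ≤ C)
    (hE0 : ∀ t, 0 ≤ E t) (hE1 : ∀ t, E t ≤ X)
    (hE : ∀ t : ℕ, 1 ≤ t * V → E t ≤ C * (X / (t * V) ^ (m + 1))) :
    ∑ t ∈ range X, (((t : ℝ) + 1) ^ m - (t : ℝ) ^ m) * E t ≤ (2 ^ m + C * (m * 2 ^ (m + 1))) * (X / V ^ m) := by
  classical
  set t0 := ⌈1 / V⌉₊ with ht0
  have hX0 : (0 : ℝ) ≤ X := Nat.cast_nonneg X
  have h1V : 1 ≤ 1 / V := by
    rw [le_div_iff₀ hV]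
    linarith
  have ht01 : 1 / V ≤ t0 := Nat.le_ceil _
  have ht02 : (t0 : ℝ) ≤ 2 / V := by
    have h1 := (Nat.ceil_lt_add_one (show 0 ≤ 1 / V by positivity)).le
    have h2 : 2 / V = 1 / V + 1 / V := by ring
    linarith
  have ht0pos : 1 ≤ t0 := by
    have : (1 : ℝ) ≤ t0 := h1V.trans ht01
    exact_mod_cast this
  have hw : ∀ t : ℕ, 0 ≤ ((t : ℝ) + 1) ^ m - (t : ℝ) ^ m := fun t => by
    have : (t : ℝ) ^ m ≤ ((t : ℝ) + 1) ^ m := pow_le_pow_left₀ (Nat.cast_nonneg t) (by linarith) m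
    linarith
  -- the two parts
  have h1 : ∑ t ∈ range X, (((t : ℝ) + 1) ^ m - (t : ℝ) ^ m) * E t ≤
      ∑ t ∈ range t0, (((t : ℝ) + 1) ^ m - (t : ℝ) ^ m) * E t + ∑ t ∈ Ico t0 (t0 + X), (((t : ℝ) + 1) ^ m - (t : ℝ) ^ m) * E t := by
    have h2 : ∑ t ∈ range (t0 + X), (((t : ℝ) + 1) ^ m - (t : ℝ) ^ m) * E t =
        ∑ t ∈ range t0, (((t : ℝ) + 1) ^ m - (t : ℝ) ^ m) * E t + ∑ t ∈ Ico t0 (t0 + X), (((t : ℝ) + 1) ^ m - (t : ℝ) ^ m) * E t := by
      rw [range_eq_Ico, range_eq_Ico, sum_Ico_consecutive _ (by omega) (by omega)]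
    rw [← h2]
    apply sum_le_sum_of_subset_of_nonneg
    · intro t ht
      rw [mem_range] at ht ⊢
      omega
    · intro t _ _
      exact mul_nonneg (hw t) (hE0 t)
  have h2 : ∑ t ∈ range t0, (((t : ℝ) + 1) ^ m - (t : ℝ) ^ m) * E t ≤ 2 ^ m * (X / V ^ m) := by
    calc ∑ t ∈ range t0, (((t : ℝ) + 1) ^ m - (t : ℝ) ^ m) * E t ≤ ∑ t ∈ range t0, (((t : ℝ) + 1) ^ m - (t : ℝ) ^ m) * X :=
          sum_le_sum fun t _ => mul_le_mul_of_nonneg_left (hE1 t) (hw t)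
      _ = (t0 : ℝ) ^ m * X := by rw [← sum_mul, ← tele m t0 hm]
      _ ≤ (2 / V) ^ m * X := mul_le_mul_of_nonneg_right (pow_le_pow_left₀ (Nat.cast_nonneg _) ht02 m) hX0
      _ = 2 ^ m * (X / V ^ m) := by rw [div_pow]; ring
  have h3 : ∑ t ∈ Ico t0 (t0 + X), (((t : ℝ) + 1) ^ m - (t : ℝ) ^ m) * E t ≤ C * (m * 2 ^ (m + 1)) * (X / V ^ m) := by
    have h4 : ∀ t ∈ Ico t0 (t0 + X), (((t : ℝ) + 1) ^ m - (t : ℝ) ^ m) * E t ≤
        C * X * (m * 2 ^ m) / V ^ (m + 1) * (1 / (t : ℝ) ^ 2) := by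
      intro t ht
      rw [mem_Ico] at ht
      have ht1 : 1 ≤ t := by omega
      have ht0' : (0 : ℝ) < t := by exact_mod_cast ht1
      have htV : 1 ≤ t * V := by
        have h5 : (t0 : ℝ) ≤ t := by exact_mod_cast ht.1
        have h6 : 1 / V ≤ t := ht01.trans h5
        rwa [div_le_iff₀ hV] at h6
      have h5 := w_le m t hm ht1
      have h6 := hE t htV
      calc (((t : ℝ) + 1) ^ m - (t : ℝ) ^ m) * E t ≤ (m * 2 ^ m * (t : ℝ) ^ (m - 1)) * (C * (X / (t * V) ^ (m + 1))) :=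
            mul_le_mul h5 h6 (hE0 t) (by positivity)
        _ = C * X * (m * 2 ^ m) / V ^ (m + 1) * (1 / (t : ℝ) ^ 2) := by
            obtain ⟨j, rfl⟩ : ∃ j, m = j + 1 := ⟨m - 1, by omega⟩
            rw [Nat.add_sub_cancel, mul_pow, pow_succ (t : ℝ) (j + 1), pow_succ (t : ℝ) j]
            field_simp
    refine (sum_le_sum h4).trans ?_
    rw [← mul_sum]
    have h5 : ∑ t ∈ Ico t0 (t0 + X), (1 : ℝ) / (t : ℝ) ^ 2 ≤ 2 * V := by
      have ht0r : (1 : ℝ) ≤ t0 := by exact_mod_cast ht0pos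
      have h6 : ∑ t ∈ Ico t0 (t0 + X), (1 : ℝ) / (t : ℝ) ^ 2 ≤ ∑ t ∈ insert t0 (Ioc t0 (t0 + X)), (1 : ℝ) / (t : ℝ) ^ 2 := by
        apply sum_le_sum_of_subset_of_nonneg
        · intro t ht
          rw [mem_Ico] at ht
          rw [mem_insert, mem_Ioc]
          omega
        · intro t _ _
          positivity
      rw [sum_insert (by simp)] at h6
      have h7 := Pool.Agent.H36.RW.sum_inv_sq_aux t0 (t0 + X) ht0pos
      have h8 : (1 : ℝ) / (t0 : ℝ) ^ 2 ≤ 1 / t0 := by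
        apply one_div_le_one_div_of_le (by linarith)
        nlinarith
      have h9 : 1 / (t0 : ℝ) ≤ V := by
        rw [div_le_iff₀ (by linarith)]
        rw [div_le_iff₀ hV] at ht01
        linarith
      linarith
    calc C * X * (m * 2 ^ m) / V ^ (m + 1) * ∑ t ∈ Ico t0 (t0 + X), (1 : ℝ) / (t : ℝ) ^ 2 ≤
        C * X * (m * 2 ^ m) / V ^ (m + 1) * (2 * V) := mul_le_mul_of_nonneg_left h5 (by positivity)
      _ = C * (m * 2 ^ (m + 1)) * (X / V ^ m) := by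
          rw [pow_succ V m, pow_succ (2 : ℝ) m]
          field_simp
  calc _ ≤ _ := h1
    _ ≤ 2 ^ m * (X / V ^ m) + C * (m * 2 ^ (m + 1)) * (X / V ^ m) := add_le_add h2 h3
    _ = _ := by ring

end Pool.Agent.H36.LH
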