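import Mathlib
import Pool.Agent.H36.LH.AllT
import Pool.Agent.H36.LH.Gap

/-!
Moments of the gaps of tuples without small prime factors.
-/

set_option autoImplicit false

open Finset Filter

namespace Pool.Agent.H36.LH

open Pool.Agent.H36.RW Pool.Agent.H373R2.T7 Pool.Agent.H36.BF Pool.Agent.H36.BE
open Pool.Agent.H36.KT

/-- survivors -/
def Sur (D : Finset ℕ) (w r z n : ℕ) : Prop := ∀ p ∈ p0 w z, ∀ d ∈ D, ¬ p ∣ w * n + r + d

lemma RK_zero (D : Finset ℕ) (w r z n t : ℕ) (h : ∀ x ∈ Icc 1 t, ¬ Sur D w r z (n + x)) : RK D w z (w * n + r) t = 0 := by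
  unfold RK
  rw [card_eq_zero, filter_eq_empty_iff]
  intro x hx h1
  apply h x hx
  intro p hp d hd hdvd
  apply h1 p hp (w * x + d) (mem_pt.2 ⟨d, hd, rfl⟩)
  have e : w * n + r + (w * x + d) = w * (n + x) + r + d := by ring
  rw [e]
  exact hdvd

open Classical in
/-- every length and all moments of the gaps -/
theorem allM (κ : ℕ) (hκ : 1 ≤ κ) (ε : ℝ) (hε : 0 < ε) (hε1 : ε ≤ 1 / 2) (A : ℕ) (Bw : ℝ) (hBw : 1 ≤ Bw) :
    ∃ c C : ℝ, 0 < c ∧ c ≤ 1 / 2 ∧ 0 < C ∧ ∀ᶠ L : ℝ in atTop, ∀ X : ℕ, Real.exp L ≤ X →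
    ∀ (w : ℕ) (D : Finset ℕ), D.card = κ → 1 ≤ w → Adm D w → (w : ℝ) ≤ Real.exp (Bw * L) →
    (∀ d ∈ D, (d : ℝ) ≤ Real.exp (Bw * L)) → ∀ r N : ℕ,
    (∀ lam : ℝ, 1 ≤ lam → (((Ioc N (N + X)).filter (fun n => ∃ T : ℕ, lam ≤ T * VK D w (zE c L) ∧
      BadK ε D w (zE c L) (w * n + r) T)).card : ℝ) ≤ C * (X / lam ^ A)) ∧
    (∀ m : ℕ, 1 ≤ m → m + 1 ≤ A → ∑ x ∈ consec ((Ioc N (N + X)).filter (Sur D w r (zE c L))),
      ((x.2 - x.1 : ℕ) : ℝ) ^ (m + 1) ≤ C * (X / VK D w (zE c L) ^ m)) := by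
  obtain ⟨c, C, hc, hc2, hC, h⟩ := allT κ hκ ε hε (by linarith) A Bw hBw
  refine ⟨c, C + (A + 1) * (2 ^ A + C * (A * 2 ^ (A + 1))), hc, hc2, by positivity, ?_⟩
  filter_upwards [h] with L h1
  intro X hX w D hDκ hw hA hwL hDL r N
  have hX0 : (0 : ℝ) < X := (Real.exp_pos L).trans_le hX
  set V := VK D w (zE c L) with hVd
  have hV0 : 0 < V := VK_pos D w _ hA
  have hV1 : V ≤ 1 := VK_le_one D w _
  have h2 : ∀ lam : ℝ, 1 ≤ lam → (((Ioc N (N + X)).filter (fun n => ∃ T : ℕ, lam ≤ T * V ∧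
      BadK ε D w (zE c L) (w * n + r) T)).card : ℝ) ≤ C * (X / lam ^ A) := fun lam hlam =>
    h1 X hX lam hlam w D hDκ hw hA hwL hDL r N
  constructor
  · intro lam hlam
    refine (h2 lam hlam).trans ?_
    apply mul_le_mul_of_nonneg_right _ (by positivity)
    have : 0 ≤ ((A : ℝ) + 1) * (2 ^ A + C * (A * 2 ^ (A + 1))) := by positivity
    linarith
  · intro m hm hmA
    have h3 := gap_sum (Sur D w r (zE c L)) N X m hm
    have hE1 : ∀ t, (Em (Sur D w r (zE c L)) N X t : ℝ) ≤ X := by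
      intro t
      have h4 : Em (Sur D w r (zE c L)) N X t ≤ X := by
        unfold Em
        refine (card_filter_le _ _).trans ?_
        rw [Nat.card_Ioc]
        omega
      exact_mod_cast h4
    have hE : ∀ t : ℕ, 1 ≤ t * V → (Em (Sur D w r (zE c L)) N X t : ℝ) ≤ C * (X / (t * V) ^ (m + 1)) := by
      intro t ht
      have h4 := h2 (t * V) ht
      have h5 : Em (Sur D w r (zE c L)) N X t ≤ ((Ioc N (N + X)).filter (fun n => ∃ T : ℕ, t * V ≤ T * V ∧
          BadK ε D w (zE c L) (w * n + r) T)).card := by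
        unfold Em
        apply card_le_card
        intro n hn
        rw [mem_filter] at hn ⊢
        refine ⟨hn.1, t, le_rfl, ?_⟩
        unfold BadK
        rw [RK_zero D w r (zE c L) n t hn.2, Nat.cast_zero, zero_sub, abs_neg, abs_of_nonneg (by linarith)]
        nlinarith
      calc (Em (Sur D w r (zE c L)) N X t : ℝ) ≤ _ := by exact_mod_cast h5
        _ ≤ C * (X / (t * V) ^ A) := h4
        _ ≤ C * (X / (t * V) ^ (m + 1)) := by
            apply mul_le_mul_of_nonneg_left _ hC.le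
            apply div_le_div_of_nonneg_left hX0.le (by positivity)
            exact pow_le_pow_right₀ ht hmA
    have h4 := gap_final X m (fun t => (Em (Sur D w r (zE c L)) N X t : ℝ)) V C hm hV0 hV1 hC.le
      (fun t => Nat.cast_nonneg _) hE1 hE
    refine h3.trans ?_
    have hmA' : (m : ℝ) ≤ A := by exact_mod_cast (by omega : m ≤ A)
    have h5 : (2 : ℝ) ^ m ≤ 2 ^ A := pow_le_pow_right₀ (by norm_num) (by omega)
    have h6 : (2 : ℝ) ^ (m + 1) ≤ 2 ^ (A + 1) := pow_le_pow_right₀ (by norm_num) (by omega)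
    calc ((m : ℝ) + 1) * ∑ t ∈ range X, (((t : ℝ) + 1) ^ m - (t : ℝ) ^ m) * (Em (Sur D w r (zE c L)) N X t : ℝ) ≤
        ((m : ℝ) + 1) * ((2 ^ m + C * (m * 2 ^ (m + 1))) * (X / V ^ m)) := mul_le_mul_of_nonneg_left h4 (by positivity)
      _ ≤ ((A : ℝ) + 1) * ((2 ^ A + C * (A * 2 ^ (A + 1))) * (X / V ^ m)) := by gcongr
      _ = (((A : ℝ) + 1) * (2 ^ A + C * (A * 2 ^ (A + 1)))) * (X / V ^ m) := by ring
      _ ≤ _ := by
          apply mul_le_mul_of_nonneg_right _ (by positivity)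
          linarith

end Pool.Agent.H36.LH
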