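import Mathlib
import Pool.Agent.H36.LH.Gap

/-!
Asymptotic moments of the gaps of a set whose empty windows have an exponential law.
-/

set_option autoImplicit false

open Finset Filter Topology MeasureTheory

namespace Pool.Agent.H36.LH

/-- the incomplete gamma integral -/
noncomputable def Ig (m : ℕ) (x : ℝ) : ℝ := ∫ u in (0 : ℝ)..x, (m : ℝ) * u ^ (m - 1) * Real.exp (-u)

lemma Ig_cont (m : ℕ) : Continuous (fun u : ℝ => (m : ℝ) * u ^ (m - 1) * Real.exp (-u)) := by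
  fun_prop

lemma Ig_int (m : ℕ) (a b : ℝ) : IntervalIntegrable (fun u : ℝ => (m : ℝ) * u ^ (m - 1) * Real.exp (-u)) volume a b :=
  (Ig_cont m).intervalIntegrable a b

lemma Ig_add (m : ℕ) (x y : ℝ) : Ig m y = Ig m x + ∫ u in x..y, (m : ℝ) * u ^ (m - 1) * Real.exp (-u) := by
  unfold Ig
  rw [intervalIntegral.integral_add_adjacent_intervals (Ig_int m 0 x) (Ig_int m x y)]

lemma Ig_step_nonneg (m : ℕ) (x y : ℝ) (hx : 0 ≤ x) (hxy : x ≤ y) :
    0 ≤ ∫ u in x..y, (m : ℝ) * u ^ (m - 1) * Real.exp (-u) := by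
  apply intervalIntegral.integral_nonneg hxy
  intro u hu
  have : 0 ≤ u := hx.trans hu.1
  positivity

lemma Ig_mono (m : ℕ) (x y : ℝ) (hx : 0 ≤ x) (hxy : x ≤ y) : Ig m x ≤ Ig m y := by
  rw [Ig_add m x y]
  linarith [Ig_step_nonneg m x y hx hxy]

lemma Ig_lim (m : ℕ) (hm : 1 ≤ m) : Tendsto (Ig m) atTop (𝓝 (m.factorial : ℝ)) := by
  have h1 : ∫ u in Set.Ioi (0 : ℝ), (m : ℝ) * u ^ (m - 1) * Real.exp (-u) = (m.factorial : ℝ) := by
    have h2 : Real.Gamma m = ∫ u in Set.Ioi (0 : ℝ), Real.exp (-u) * u ^ ((m : ℝ) - 1) :=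
      Real.Gamma_eq_integral (by exact_mod_cast hm)
    have h3 : ∫ u in Set.Ioi (0 : ℝ), (m : ℝ) * u ^ (m - 1) * Real.exp (-u) =
        (m : ℝ) * ∫ u in Set.Ioi (0 : ℝ), Real.exp (-u) * u ^ ((m : ℝ) - 1) := by
      rw [← integral_const_mul]
      apply setIntegral_congr_fun measurableSet_Ioi
      intro u _
      have e : (m : ℝ) - 1 = ((m - 1 : ℕ) : ℝ) := by
        rw [Nat.cast_sub hm, Nat.cast_one]
      simp only
      rw [e, Real.rpow_natCast]
      ring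
    rw [h3, ← h2]
    obtain ⟨j, rfl⟩ : ∃ j, m = j + 1 := ⟨m - 1, by omega⟩
    have h4 := Real.Gamma_nat_eq_factorial j
    push_cast at h4 ⊢
    rw [h4, Nat.factorial_succ]
    push_cast
    ring
  rw [← h1]
  have hint : IntegrableOn (fun u : ℝ => (m : ℝ) * u ^ (m - 1) * Real.exp (-u)) (Set.Ioi 0) volume := by
    have h5 := Real.GammaIntegral_convergent (s := (m : ℝ)) (by exact_mod_cast hm)
    have h6 : IntegrableOn (fun u : ℝ => (m : ℝ) * (Real.exp (-u) * u ^ ((m : ℝ) - 1))) (Set.Ioi 0) volume :=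
      h5.const_mul _
    refine h6.congr_fun ?_ measurableSet_Ioi
    intro u _
    have e : (m : ℝ) - 1 = ((m - 1 : ℕ) : ℝ) := by
      rw [Nat.cast_sub hm, Nat.cast_one]
    simp only
    rw [e, Real.rpow_natCast]
    ring
  exact intervalIntegral_tendsto_integral_Ioi 0 hint tendsto_id

lemma Ig_le (m : ℕ) (hm : 1 ≤ m) (x : ℝ) (hx : 0 ≤ x) : Ig m x ≤ m.factorial := by
  apply ge_of_tendsto (Ig_lim m hm)
  filter_upwards [eventually_ge_atTop x] with y hy
  exact Ig_mono m x y hx hy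

lemma Ig_piece (m : ℕ) (hm : 1 ≤ m) (V : ℝ) (hV : 0 < V) (t : ℕ) :
    V ^ m * ((((t : ℝ) + 1) ^ m - (t : ℝ) ^ m) * Real.exp (-(((t : ℝ) + 1) * V))) ≤
      ∫ u in (t * V)..((t + 1 : ℕ) * V), (m : ℝ) * u ^ (m - 1) * Real.exp (-u) ∧
    ∫ u in (t * V)..((t + 1 : ℕ) * V), (m : ℝ) * u ^ (m - 1) * Real.exp (-u) ≤
      V ^ m * ((((t : ℝ) + 1) ^ m - (t : ℝ) ^ m) * Real.exp (-((t : ℝ) * V))) := by
  have ht0 : (0 : ℝ) ≤ t := Nat.cast_nonneg t
  have hle : (t : ℝ) * V ≤ ((t + 1 : ℕ) : ℝ) * V := by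
    push_cast
    nlinarith
  have hp : ∫ u in ((t : ℝ) * V)..(((t + 1 : ℕ) : ℝ) * V), (m : ℝ) * u ^ (m - 1) = V ^ m * (((t : ℝ) + 1) ^ m - (t : ℝ) ^ m) := by
    rw [intervalIntegral.integral_const_mul, integral_pow]
    obtain ⟨j, rfl⟩ : ∃ j, m = j + 1 := ⟨m - 1, by omega⟩
    rw [Nat.add_sub_cancel]
    push_cast
    rw [mul_pow, mul_pow]
    field_simp
  constructor
  · have h1 : V ^ m * ((((t : ℝ) + 1) ^ m - (t : ℝ) ^ m) * Real.exp (-(((t : ℝ) + 1) * V))) =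
        ∫ u in ((t : ℝ) * V)..(((t + 1 : ℕ) : ℝ) * V), ((m : ℝ) * u ^ (m - 1)) * Real.exp (-(((t : ℝ) + 1) * V)) := by
      rw [intervalIntegral.integral_mul_const, hp]
      ring
    rw [h1]
    apply intervalIntegral.integral_mono_on hle
    · apply Continuous.intervalIntegrable
      fun_prop
    · exact Ig_int m _ _
    · intro u hu
      have hu0 : 0 ≤ u := (mul_nonneg ht0 hV.le).trans hu.1
      apply mul_le_mul_of_nonneg_left _ (by positivity)
      apply Real.exp_le_exp.2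
      have := hu.2
      push_cast at this
      linarith
  · have h1 : V ^ m * ((((t : ℝ) + 1) ^ m - (t : ℝ) ^ m) * Real.exp (-((t : ℝ) * V))) =
        ∫ u in ((t : ℝ) * V)..(((t + 1 : ℕ) : ℝ) * V), ((m : ℝ) * u ^ (m - 1)) * Real.exp (-((t : ℝ) * V)) := by
      rw [intervalIntegral.integral_mul_const, hp]
      ring
    rw [h1]
    apply intervalIntegral.integral_mono_on hle
    · exact Ig_int m _ _
    · apply Continuous.intervalIntegrable
      fun_prop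
    · intro u hu
      have hu0 : 0 ≤ u := (mul_nonneg ht0 hV.le).trans hu.1
      apply mul_le_mul_of_nonneg_left _ (by positivity)
      apply Real.exp_le_exp.2
      linarith [hu.1]

/-- comparison of the sum and the integral -/
lemma Ig_sum (m : ℕ) (hm : 1 ≤ m) (V : ℝ) (hV : 0 < V) (M : ℕ) :
    V ^ m * ∑ t ∈ range M, (((t : ℝ) + 1) ^ m - (t : ℝ) ^ m) * Real.exp (-(((t : ℝ) + 1) * V)) ≤ Ig m (M * V) ∧
    Ig m (M * V) ≤ V ^ m * ∑ t ∈ range M, (((t : ℝ) + 1) ^ m - (t : ℝ) ^ m) * Real.exp (-((t : ℝ) * V)) := by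
  induction M with
  | zero =>
    unfold Ig
    simp
  | succ M ih =>
    obtain ⟨h1, h2⟩ := Ig_piece m hm V hV M
    rw [Ig_add m (M * V) ((M + 1 : ℕ) * V), sum_range_succ, sum_range_succ, mul_add, mul_add]
    constructor <;> linarith [ih.1, ih.2]

end Pool.Agent.H36.LH
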