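import Mathlib
import Pool.Agent.H36.LH.Asy

/-!
Lower bounds for the moments of the gaps of a set.
-/

set_option autoImplicit false

open Finset Filter Topology

namespace Pool.Agent.H36.LH

lemma pow_sum_low (m : ℕ) (hm : 1 ≤ m) : ∀ g : ℕ, (m + 1) * ∑ i ∈ range g, (i : ℝ) ^ m ≤ (g : ℝ) ^ (m + 1) := by
  intro g
  induction g with
  | zero => simp
  | succ g ih =>
    rw [sum_range_succ, mul_add]
    have h1 : (g : ℝ) ^ (m + 1) + (m + 1) * (g : ℝ) ^ m ≤ ((g : ℝ) + 1) ^ (m + 1) := by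
      rcases Nat.eq_zero_or_pos g with hg | hg
      · subst hg
        have e : (0 : ℝ) ^ m = 0 := zero_pow (by omega)
        have e2 : (0 : ℝ) ^ (m + 1) = 0 := zero_pow (by omega)
        simp only [Nat.cast_zero, e, e2]
        norm_num
      · have hg0 : (0 : ℝ) < g := by exact_mod_cast hg
        have h2 : -2 ≤ 1 / (g : ℝ) := by
          have : 0 ≤ 1 / (g : ℝ) := by positivity
          linarith
        have h3 := one_add_mul_le_pow h2 (m + 1)
        have h4 : ((g : ℝ) + 1) ^ (m + 1) = (1 + 1 / (g : ℝ)) ^ (m + 1) * (g : ℝ) ^ (m + 1) := by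
          rw [← mul_pow]
          congr 1
          field_simp
        rw [h4]
        have h6 := mul_le_mul_of_nonneg_right h3 (show 0 ≤ (g : ℝ) ^ (m + 1) by positivity)
        have h7 : (1 + ((m + 1 : ℕ) : ℝ) * (1 / (g : ℝ))) * (g : ℝ) ^ (m + 1) =
            (g : ℝ) ^ (m + 1) + (m + 1) * (g : ℝ) ^ m := by
          push_cast
          field_simp
          ring
        rw [h7] at h6
        exact h6
    push_cast
    linarith

open Classical in
/-- the positions between the first and the last element which are followed by an empty window -/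
noncomputable def Fm (S : Finset ℕ) (t : ℕ) : ℕ :=
  ((consec S).biUnion (fun x => (Ico x.1 x.2).filter (fun n => n + t < x.2))).card

open Classical in
lemma Em_le_Fm (P : ℕ → Prop) (N X G t : ℕ) (h1 : ∃ s, N < s ∧ s ≤ N + G ∧ P s)
    (h2 : ∃ s, N + X < s + G ∧ s ≤ N + X ∧ P s) : Em P N X t ≤ Fm ((Ioc N (N + X)).filter P) t + 2 * G := by
  obtain ⟨s1, a1, a2, a3⟩ := h1
  obtain ⟨s2, b1, b2, b3⟩ := h2
  set S := (Ioc N (N + X)).filter P with hS
  have hsub : (Ioc N (N + X)).filter (fun n => ∀ h ∈ Icc 1 t, ¬ P (n + h)) ⊆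
      (consec S).biUnion (fun x => (Ico x.1 x.2).filter (fun n => n + t < x.2)) ∪
        (Ioc N (N + G) ∪ Ioc (N + X - G) (N + X)) := by
    intro n hn
    rw [mem_filter, mem_Ioc] at hn
    obtain ⟨⟨hn1, hn2⟩, hn3⟩ := hn
    rw [mem_union, mem_union, mem_Ioc, mem_Ioc]
    by_cases c1 : n ≤ N + G
    · right; left
      exact ⟨hn1, c1⟩
    by_cases c2 : N + X - G < n
    · right; right
      exact ⟨c2, hn2⟩
    left
    -- neighbours
    have hne1 : (S.filter (fun s => s ≤ n)).Nonempty := by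
      refine ⟨s1, ?_⟩
      rw [mem_filter, hS, mem_filter, mem_Ioc]
      exact ⟨⟨⟨a1, by omega⟩, a3⟩, by omega⟩
    have hne2 : (S.filter (fun s => n < s)).Nonempty := by
      refine ⟨s2, ?_⟩
      rw [mem_filter, hS, mem_filter, mem_Ioc]
      exact ⟨⟨⟨by omega, b2⟩, b3⟩, by omega⟩
    have hx1 := max'_mem _ hne1
    have hx2 := min'_mem _ hne2
    set x1 := (S.filter (fun s => s ≤ n)).max' hne1 with hx1d
    set x2 := (S.filter (fun s => n < s)).min' hne2 with hx2d
    rw [mem_filter] at hx1 hx2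
    rw [mem_biUnion]
    refine ⟨(x1, x2), ?_, ?_⟩
    · rw [mem_consec]
      refine ⟨⟨hx1.1, hx2.1⟩, by simp only; omega, ?_⟩
      intro y hy hlt
      simp only at hlt
      by_cases hyn : y ≤ n
      · have := le_max' (S.filter (fun s => s ≤ n)) y (mem_filter.2 ⟨hy, hyn⟩)
        omega
      · have := min'_le (S.filter (fun s => n < s)) y (mem_filter.2 ⟨hy, by omega⟩)
        omega
    · rw [mem_filter, mem_Ico]
      refine ⟨⟨hx1.2, hx2.2⟩, ?_⟩
      simp only
      by_contra hcon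
      rw [not_lt] at hcon
      have hP : P x2 := by
        have := hx2.1
        rw [hS, mem_filter] at this
        exact this.2
      apply hn3 (x2 - n) (mem_Icc.2 ⟨by omega, by omega⟩)
      rwa [show n + (x2 - n) = x2 by omega]
  have h3 := card_le_card hsub
  have h4 := card_union_le ((consec S).biUnion (fun x => (Ico x.1 x.2).filter (fun n => n + t < x.2)))
    (Ioc N (N + G) ∪ Ioc (N + X - G) (N + X))
  have h5 := card_union_le (Ioc N (N + G)) (Ioc (N + X - G) (N + X))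
  rw [Nat.card_Ioc, Nat.card_Ioc] at h5
  unfold Em Fm
  omega

open Classical in
/-- moments of the gaps from below -/
theorem gap_low (P : ℕ → Prop) (N X m M : ℕ) (hm : 1 ≤ m) :
    (m + 1) * ∑ t ∈ range M, (((t : ℝ) + 1) ^ m - (t : ℝ) ^ m) * Fm ((Ioc N (N + X)).filter P) (t + 1) ≤
      ∑ x ∈ consec ((Ioc N (N + X)).filter P), ((x.2 - x.1 : ℕ) : ℝ) ^ (m + 1) := by
  set S := (Ioc N (N + X)).filter P with hS
  have hw : ∀ t : ℕ, 0 ≤ ((t : ℝ) + 1) ^ m - (t : ℝ) ^ m := fun t => by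
    have : (t : ℝ) ^ m ≤ ((t : ℝ) + 1) ^ m := pow_le_pow_left₀ (Nat.cast_nonneg t) (by linarith) m
    linarith
  have h1 : ∀ x ∈ consec S, (m + 1) * ∑ n ∈ Ico x.1 x.2,
      ∑ t ∈ range M, (if n + (t + 1) < x.2 then (((t : ℝ) + 1) ^ m - (t : ℝ) ^ m) else 0) ≤
      ((x.2 - x.1 : ℕ) : ℝ) ^ (m + 1) := by
    intro x _
    refine le_trans ?_ (pow_sum_low m hm (x.2 - x.1))
    apply mul_le_mul_of_nonneg_left _ (by positivity)
    have h2 : ∑ i ∈ range (x.2 - x.1), (i : ℝ) ^ m = ∑ n ∈ Ico x.1 x.2, ((x.2 - 1 - n : ℕ) : ℝ) ^ m := by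
      apply sum_bij' (fun i _ => x.2 - 1 - i) (fun n _ => x.2 - 1 - n)
      · intro i hi
        rw [mem_range] at hi
        rw [mem_Ico]
        omega
      · intro n hn
        rw [mem_Ico] at hn
        rw [mem_range]
        omega
      · intro i hi
        rw [mem_range] at hi
        omega
      · intro n hn
        rw [mem_Ico] at hn
        omega
      · intro i hi
        rw [mem_range] at hi
        have : x.2 - 1 - (x.2 - 1 - i) = i := by omega
        rw [this]
    rw [h2]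
    apply sum_le_sum
    intro n hn
    rw [tele m (x.2 - 1 - n) hm, ← sum_filter]
    apply sum_le_sum_of_subset_of_nonneg
    · intro t ht
      rw [mem_filter, mem_range] at ht
      rw [mem_range]
      omega
    · intro t _ _
      exact hw t
  refine le_trans ?_ (sum_le_sum h1)
  rw [← mul_sum]
  apply mul_le_mul_of_nonneg_left _ (by positivity)
  have h3 : ∑ x ∈ consec S, ∑ n ∈ Ico x.1 x.2, ∑ t ∈ range M, (if n + (t + 1) < x.2 then (((t : ℝ) + 1) ^ m - (t : ℝ) ^ m) else 0) =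
      ∑ t ∈ range M, ∑ x ∈ consec S, ∑ n ∈ Ico x.1 x.2, (if n + (t + 1) < x.2 then (((t : ℝ) + 1) ^ m - (t : ℝ) ^ m) else 0) := by
    rw [sum_comm]
    rw [sum_congr rfl fun x _ => sum_comm]
  rw [h3]
  apply sum_le_sum
  intro t _
  have h4 : ∑ x ∈ consec S, ∑ n ∈ Ico x.1 x.2, (if n + (t + 1) < x.2 then (((t : ℝ) + 1) ^ m - (t : ℝ) ^ m) else 0) =
      (((t : ℝ) + 1) ^ m - (t : ℝ) ^ m) * (∑ x ∈ consec S, ((Ico x.1 x.2).filter (fun n => n + (t + 1) < x.2)).card : ℕ) := by
    push_cast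
    rw [mul_sum]
    apply sum_congr rfl
    intro x _
    rw [← sum_filter, sum_const, nsmul_eq_mul]
    ring
  rw [h4]
  apply mul_le_mul_of_nonneg_left _ (hw t)
  apply Nat.cast_le.2
  unfold Fm
  exact card_biUnion_le

/-- the abstract form: upper and lower bounds from the exponential law of the empty windows -/
theorem asy_bounds (m : ℕ) (hm : 1 ≤ m) (C ε : ℝ) (hC : 0 ≤ C) (hε : 0 < ε) :
    ∃ x1 η κ : ℝ, 1 ≤ x1 ∧ 0 < η ∧ 0 < κ ∧ ∀ (X G : ℕ) (V : ℝ) (E F : ℕ → ℝ), 0 < V → V ≤ κ → (G : ℝ) ≤ η * X →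
      (∀ t, 0 ≤ E t) → (∀ t : ℕ, t * V ≤ x1 → |E t - X * Real.exp (-(t * V))| ≤ η * X) →
      (∀ t : ℕ, 1 ≤ t * V → E t ≤ C * (X / (t * V) ^ (m + 2))) → (∀ t, E t ≤ F t + 2 * G) → (∀ t, 0 ≤ F t) →
      (m + 1) * ∑ t ∈ range X, (((t : ℝ) + 1) ^ m - (t : ℝ) ^ m) * E t ≤ ((m + 1).factorial + ε) * (X / V ^ m) ∧
      ∃ M : ℕ, ((m + 1).factorial - ε) * (X / V ^ m) ≤ (m + 1) * ∑ t ∈ range M, (((t : ℝ) + 1) ^ m - (t : ℝ) ^ m) * F (t + 1) := by
  set δ : ℝ := ε / (8 * (m + 1)) with hδ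
  have hδ0 : 0 < δ := by positivity
  -- the parameters
  have hev := (Ig_lim m hm).eventually (lt_mem_nhds (show (m.factorial : ℝ) - δ < m.factorial by linarith))
  obtain ⟨a, ha⟩ := eventually_atTop.1 hev
  set Ct : ℝ := C * (m * 2 ^ m) * 8 with hCt
  have hCt0 : 0 ≤ Ct := by positivity
  obtain ⟨x1, hx1⟩ : ∃ x1, x1 = 1 + max (max 1 a) (Ct / δ) := ⟨_, rfl⟩
  have hx11 : 2 ≤ x1 := by
    have := le_max_left (max 1 a) (Ct / δ)
    have := le_max_left 1 a
    linarith
  have hx1a : a ≤ x1 - 1 := by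
    have := le_max_left (max 1 a) (Ct / δ)
    have := le_max_right 1 a
    linarith
  have hx1C : Ct / x1 ^ 2 ≤ δ := by
    have h1 : Ct / δ ≤ x1 := by
      have := le_max_right (max 1 a) (Ct / δ)
      linarith
    rw [div_le_iff₀ hδ0] at h1
    rw [div_le_iff₀ (by positivity)]
    nlinarith
  have hxm : 0 < x1 ^ m := by positivity
  set η : ℝ := δ / (3 * x1 ^ m) with hη
  have hη0 : 0 < η := by positivity
  have hηx : 3 * (η * x1 ^ m) = δ := by
    rw [hη]
    field_simp
  have hfac0 : (0 : ℝ) < m.factorial := by exact_mod_cast m.factorial_pos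
  obtain ⟨κ, hκ⟩ : ∃ κ, κ = min 1 (δ / (2 * m.factorial)) := ⟨_, rfl⟩
  have hκ0 : 0 < κ := by rw [hκ]; positivity
  have hκ1 : κ ≤ 1 := by rw [hκ]; exact min_le_left _ _
  have hκ2 : κ ≤ δ / (2 * m.factorial) := by rw [hκ]; exact min_le_right _ _
  refine ⟨x1, η, κ, by linarith, hη0, hκ0, ?_⟩
  intro X G V E F hV hVκ hG hE0 hE1 hE2 hEF hF0
  have hX0 : (0 : ℝ) ≤ X := Nat.cast_nonneg X
  have hw : ∀ t : ℕ, 0 ≤ ((t : ℝ) + 1) ^ m - (t : ℝ) ^ m := fun t => by
    have : (t : ℝ) ^ m ≤ ((t : ℝ) + 1) ^ m := pow_le_pow_left₀ (Nat.cast_nonneg t) (by linarith) m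
    linarith
  have hV1 : V ≤ 1 := hVκ.trans hκ1
  set M := ⌊x1 / V⌋₊ with hM
  have hM1 : (M : ℝ) * V ≤ x1 := by
    have h1 : (M : ℝ) ≤ x1 / V := Nat.floor_le (by positivity)
    rwa [le_div_iff₀ hV] at h1
  have hM2 : x1 - 1 ≤ M * V := by
    have h1 : x1 / V < M + 1 := Nat.lt_floor_add_one _
    rw [div_lt_iff₀ hV] at h1
    nlinarith
  have hM0 : (0 : ℝ) < M := by
    by_contra hcon
    rw [not_lt] at hcon
    have : (M : ℝ) * V ≤ 0 := by nlinarith
    linarith
  have hMpos : 1 ≤ M := by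
    have : 0 < M := by exact_mod_cast hM0
    omega
  have hVm : 0 < V ^ m := by positivity
  obtain ⟨hs1, hs2⟩ := Ig_sum m hm V hV M
  set W1 := ∑ t ∈ range M, (((t : ℝ) + 1) ^ m - (t : ℝ) ^ m) * Real.exp (-(((t : ℝ) + 1) * V)) with hW1
  set W0 := ∑ t ∈ range M, (((t : ℝ) + 1) ^ m - (t : ℝ) ^ m) * Real.exp (-((t : ℝ) * V)) with hW0
  have hWW : W0 = Real.exp V * W1 := by
    rw [hW0, hW1, mul_sum]
    apply sum_congr rfl
    intro t _
    have e : Real.exp (-((t : ℝ) * V)) = Real.exp V * Real.exp (-(((t : ℝ) + 1) * V)) := by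
      rw [← Real.exp_add]
      congr 1
      ring
    rw [e]
    ring
  have hIup : Ig m (M * V) ≤ m.factorial := Ig_le m hm _ (by positivity)
  have hIlow : (m.factorial : ℝ) - δ ≤ Ig m (M * V) := (ha (M * V) (hx1a.trans hM2)).le
  have heV : Real.exp V ≤ 1 + 2 * V := by
    have h1 := Real.abs_exp_sub_one_le (x := V) (by rw [abs_of_pos hV]; exact hV1)
    rw [abs_of_pos hV] at h1
    have := (abs_le.1 h1).2
    linarith
  have hVf : V * m.factorial ≤ δ / 2 := by
    have h1 := hVκ.trans hκ2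
    rw [le_div_iff₀ (by positivity)] at h1
    linarith
  -- the sum W1 from both sides
  have hW1up : V ^ m * W1 ≤ m.factorial := hs1.trans hIup
  have hW1nn : 0 ≤ W1 := sum_nonneg fun t _ => mul_nonneg (hw t) (Real.exp_pos _).le
  have hW0up : V ^ m * W0 ≤ m.factorial + δ := by
    rw [hWW]
    have h1 : V ^ m * (Real.exp V * W1) ≤ (1 + 2 * V) * (V ^ m * W1) := by
      have h2 : 0 ≤ V ^ m * W1 := by positivity
      nlinarith
    have h3 : (1 + 2 * V) * (V ^ m * W1) ≤ (1 + 2 * V) * m.factorial := by gcongr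
    linarith
  have hW1low : (m.factorial : ℝ) - 2 * δ ≤ V ^ m * W1 := by
    have h1 : (m.factorial : ℝ) - δ ≤ Real.exp V * (V ^ m * W1) := by
      have h2 : V ^ m * W0 = Real.exp V * (V ^ m * W1) := by rw [hWW]; ring
      rw [← h2]
      exact hIlow.trans hs2
    have h2 : Real.exp V * (V ^ m * W1) ≤ V ^ m * W1 + 2 * V * m.factorial := by
      have h3 : 0 ≤ V ^ m * W1 := by positivity
      have h4 : (Real.exp V - 1) * (V ^ m * W1) ≤ (2 * V) * m.factorial :=
        mul_le_mul (by linarith) hW1up h3 (by positivity)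
      linarith
    linarith
  have htel : ∑ t ∈ range M, (((t : ℝ) + 1) ^ m - (t : ℝ) ^ m) = (M : ℝ) ^ m := (tele m M hm).symm
  have hMm : (M : ℝ) ^ m ≤ x1 ^ m / V ^ m := by
    rw [le_div_iff₀ hVm, ← mul_pow]
    exact pow_le_pow_left₀ (by positivity) hM1 m
  constructor
  · -- the upper bound
    have h1 : ∑ t ∈ range X, (((t : ℝ) + 1) ^ m - (t : ℝ) ^ m) * E t ≤
        ∑ t ∈ range M, (((t : ℝ) + 1) ^ m - (t : ℝ) ^ m) * E t + ∑ t ∈ Ico M (M + X), (((t : ℝ) + 1) ^ m - (t : ℝ) ^ m) * E t := by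
      have h2 : ∑ t ∈ range (M + X), (((t : ℝ) + 1) ^ m - (t : ℝ) ^ m) * E t =
          ∑ t ∈ range M, (((t : ℝ) + 1) ^ m - (t : ℝ) ^ m) * E t + ∑ t ∈ Ico M (M + X), (((t : ℝ) + 1) ^ m - (t : ℝ) ^ m) * E t := by
        rw [range_eq_Ico, range_eq_Ico, sum_Ico_consecutive _ (by omega) (by omega)]
      rw [← h2]
      apply sum_le_sum_of_subset_of_nonneg
      · intro t ht
        rw [mem_range] at ht ⊢
        omega
      · intro t _ _
        exact mul_nonneg (hw t) (hE0 t)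
    have h2 : ∑ t ∈ range M, (((t : ℝ) + 1) ^ m - (t : ℝ) ^ m) * E t ≤ X * W0 + η * X * (M : ℝ) ^ m := by
      calc ∑ t ∈ range M, (((t : ℝ) + 1) ^ m - (t : ℝ) ^ m) * E t ≤
          ∑ t ∈ range M, (((t : ℝ) + 1) ^ m - (t : ℝ) ^ m) * (X * Real.exp (-(t * V)) + η * X) := by
            apply sum_le_sum
            intro t ht
            rw [mem_range] at ht
            apply mul_le_mul_of_nonneg_left _ (hw t)
            have h3 : (t : ℝ) ≤ M := by exact_mod_cast ht.le
            have h4 := (abs_le.1 (hE1 t ((mul_le_mul_of_nonneg_right h3 hV.le).trans hM1))).2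
            linarith
        _ = X * W0 + η * X * (M : ℝ) ^ m := by
            rw [← htel, hW0, mul_sum, mul_sum, ← sum_add_distrib]
            apply sum_congr rfl
            intro t _
            ring
    have h3 : ∑ t ∈ Ico M (M + X), (((t : ℝ) + 1) ^ m - (t : ℝ) ^ m) * E t ≤ Ct / x1 ^ 2 * (X / V ^ m) := by
      have h4 : ∀ t ∈ Ico M (M + X), (((t : ℝ) + 1) ^ m - (t : ℝ) ^ m) * E t ≤
          C * X * (m * 2 ^ m) / V ^ (m + 2) * (1 / M) * (1 / (t : ℝ) ^ 2) := by
        intro t ht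
        rw [mem_Ico] at ht
        have ht1 : 1 ≤ t := by omega
        have ht0' : (0 : ℝ) < t := by exact_mod_cast ht1
        have hMt : (M : ℝ) ≤ t := by exact_mod_cast ht.1
        have htV : 1 ≤ t * V := by
          have h6 := mul_le_mul_of_nonneg_right hMt hV.le
          linarith
        have h5 := w_le m t hm ht1
        have h6 := hE2 t htV
        calc (((t : ℝ) + 1) ^ m - (t : ℝ) ^ m) * E t ≤ (m * 2 ^ m * (t : ℝ) ^ (m - 1)) * (C * (X / (t * V) ^ (m + 2))) :=
              mul_le_mul h5 h6 (hE0 t) (by positivity)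
          _ = C * X * (m * 2 ^ m) / V ^ (m + 2) * (1 / t) * (1 / (t : ℝ) ^ 2) := by
              obtain ⟨j, rfl⟩ : ∃ j, m = j + 1 := ⟨m - 1, by omega⟩
              rw [Nat.add_sub_cancel, mul_pow, pow_succ (t : ℝ) (j + 1 + 1), pow_succ (t : ℝ) (j + 1), pow_succ (t : ℝ) j]
              field_simp
          _ ≤ C * X * (m * 2 ^ m) / V ^ (m + 2) * (1 / M) * (1 / (t : ℝ) ^ 2) := by
              have h7 : 1 / (t : ℝ) ≤ 1 / M := one_div_le_one_div_of_le hM0 hMt
              gcongr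
      refine (sum_le_sum h4).trans ?_
      rw [← mul_sum]
      have h5 : ∑ t ∈ Ico M (M + X), (1 : ℝ) / (t : ℝ) ^ 2 ≤ 2 / M := by
        have h6 : ∑ t ∈ Ico M (M + X), (1 : ℝ) / (t : ℝ) ^ 2 ≤ ∑ t ∈ insert M (Ioc M (M + X)), (1 : ℝ) / (t : ℝ) ^ 2 := by
          apply sum_le_sum_of_subset_of_nonneg
          · intro t ht
            rw [mem_Ico] at ht
            rw [mem_insert, mem_Ioc]
            omega
          · intro t _ _
            positivity
        rw [sum_insert (by simp)] at h6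
        have h7 := Pool.Agent.H36.RW.sum_inv_sq_aux M (M + X) hMpos
        have hM1r : (1 : ℝ) ≤ M := by exact_mod_cast hMpos
        have h8 : (1 : ℝ) / (M : ℝ) ^ 2 ≤ 1 / M := by
          apply one_div_le_one_div_of_le (by linarith)
          nlinarith
        have h9 : (2 : ℝ) / M = 1 / M + 1 / M := by ring
        linarith
      have h6 : x1 / 2 ≤ M * V := by linarith
      calc C * X * (m * 2 ^ m) / V ^ (m + 2) * (1 / M) * ∑ t ∈ Ico M (M + X), (1 : ℝ) / (t : ℝ) ^ 2 ≤
          C * X * (m * 2 ^ m) / V ^ (m + 2) * (1 / M) * (2 / M) := mul_le_mul_of_nonneg_left h5 (by positivity)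
        _ = 2 * C * (m * 2 ^ m) / ((M * V) ^ 2) * (X / V ^ m) := by
            rw [mul_pow, pow_add]
            field_simp
        _ ≤ 2 * C * (m * 2 ^ m) / ((x1 / 2) ^ 2) * (X / V ^ m) := by gcongr
        _ = Ct / x1 ^ 2 * (X / V ^ m) := by
            rw [hCt]
            field_simp
            ring
    -- together
    have h4 : X * W0 ≤ (m.factorial + δ) * (X / V ^ m) := by
      rw [mul_div_assoc', le_div_iff₀ hVm]
      calc X * W0 * V ^ m = X * (V ^ m * W0) := by ring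
        _ ≤ X * (m.factorial + δ) := mul_le_mul_of_nonneg_left hW0up hX0
        _ = _ := by ring
    have h5 : η * X * (M : ℝ) ^ m ≤ δ * (X / V ^ m) := by
      calc η * X * (M : ℝ) ^ m ≤ η * X * (x1 ^ m / V ^ m) := by gcongr
        _ = (η * x1 ^ m) * (X / V ^ m) := by ring
        _ ≤ δ * (X / V ^ m) := by
            apply mul_le_mul_of_nonneg_right _ (by positivity)
            have : 0 < η * x1 ^ m := by positivity
            linarith
    have h6 : Ct / x1 ^ 2 * (X / V ^ m) ≤ δ * (X / V ^ m) := mul_le_mul_of_nonneg_right hx1C (by positivity)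
    have h7 : ∑ t ∈ range X, (((t : ℝ) + 1) ^ m - (t : ℝ) ^ m) * E t ≤ (m.factorial + 3 * δ) * (X / V ^ m) := by
      calc _ ≤ _ := h1
        _ ≤ (m.factorial + δ) * (X / V ^ m) + δ * (X / V ^ m) + δ * (X / V ^ m) := by linarith
        _ = _ := by ring
    calc ((m : ℝ) + 1) * ∑ t ∈ range X, (((t : ℝ) + 1) ^ m - (t : ℝ) ^ m) * E t ≤
        ((m : ℝ) + 1) * ((m.factorial + 3 * δ) * (X / V ^ m)) := mul_le_mul_of_nonneg_left h7 (by positivity)
      _ ≤ ((m + 1).factorial + ε) * (X / V ^ m) := by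
          rw [← mul_assoc]
          apply mul_le_mul_of_nonneg_right _ (by positivity)
          rw [Nat.factorial_succ]
          push_cast
          have h8 : ((m : ℝ) + 1) * (3 * δ) ≤ ε := by
            rw [hδ]
            field_simp
            linarith
          linarith
  · refine ⟨M, ?_⟩
    have h1 : X * W1 - 3 * (η * X) * (M : ℝ) ^ m ≤ ∑ t ∈ range M, (((t : ℝ) + 1) ^ m - (t : ℝ) ^ m) * F (t + 1) := by
      rw [← htel, hW1, mul_sum, mul_sum, ← sum_sub_distrib]
      apply sum_le_sum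
      intro t ht
      rw [mem_range] at ht
      have h3 : ((t + 1 : ℕ) : ℝ) ≤ M := by exact_mod_cast ht
      have h4 := (abs_le.1 (hE1 (t + 1) ((mul_le_mul_of_nonneg_right h3 hV.le).trans hM1))).1
      have h5 := hEF (t + 1)
      push_cast at h4
      have h6 : X * Real.exp (-(((t : ℝ) + 1) * V)) - 3 * (η * X) ≤ F (t + 1) := by linarith
      have h7 := mul_le_mul_of_nonneg_left h6 (hw t)
      linarith
    have h4 : (m.factorial - 2 * δ) * (X / V ^ m) ≤ X * W1 := by
      rw [mul_div_assoc', div_le_iff₀ hVm]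
      calc (m.factorial - 2 * δ) * X ≤ (V ^ m * W1) * X := mul_le_mul_of_nonneg_right hW1low hX0
        _ = _ := by ring
    have h5 : 3 * (η * X) * (M : ℝ) ^ m ≤ δ * (X / V ^ m) := by
      calc 3 * (η * X) * (M : ℝ) ^ m ≤ 3 * (η * X) * (x1 ^ m / V ^ m) := by gcongr
        _ = (3 * (η * x1 ^ m)) * (X / V ^ m) := by ring
        _ = δ * (X / V ^ m) := by rw [hηx]
    have h7 : (m.factorial - 3 * δ) * (X / V ^ m) ≤ ∑ t ∈ range M, (((t : ℝ) + 1) ^ m - (t : ℝ) ^ m) * F (t + 1) := by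
      calc (m.factorial - 3 * δ) * (X / V ^ m) = (m.factorial - 2 * δ) * (X / V ^ m) - δ * (X / V ^ m) := by ring
        _ ≤ _ := by linarith
    calc ((m + 1).factorial - ε) * (X / V ^ m) ≤ ((m : ℝ) + 1) * ((m.factorial - 3 * δ) * (X / V ^ m)) := by
          rw [← mul_assoc]
          apply mul_le_mul_of_nonneg_right _ (by positivity)
          rw [Nat.factorial_succ]
          push_cast
          have h8 : ((m : ℝ) + 1) * (3 * δ) ≤ ε := by
            rw [hδ]
            field_simp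
            linarith
          linarith
      _ ≤ _ := mul_le_mul_of_nonneg_left h7 (by positivity)

end Pool.Agent.H36.LH
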