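import Mathlib
import Pool.Agent.H36.LH.MomT
import Pool.Agent.H36.KT.Cor

/-!
Tuples of elements of an arithmetic progression without small prime factors: every length, moments of the gaps.
-/

set_option autoImplicit false

open Finset Filter

namespace Pool.Agent.H36.LH

open Pool.Agent.H36.RW Pool.Agent.H373R2.T7 Pool.Agent.H36.BF Pool.Agent.H36.BE Pool.Agent.H36.KT

/-- survivors are the tuples without small prime factors -/
lemma Sur_rough (D : Finset ℕ) (w z n : ℕ) (hco : ∀ d ∈ D, Nat.Coprime d w) :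
    Sur D w 0 z n ↔ ∀ d ∈ D, Pool.Agent.H36.RW.Rough z (w * n + d) := by
  unfold Sur
  constructor
  · intro h1 d hd p hp hdvd
    by_contra hle
    rw [not_lt] at hle
    have hw : ¬ p ∣ w := by
      intro hw
      have h2 : p ∣ d := by
        have h3 : p ∣ w * n := hw.mul_right _
        exact (Nat.dvd_add_right h3).1 hdvd
      have h4 := Nat.dvd_gcd h2 hw
      rw [hco d hd] at h4
      exact hp.one_lt.ne' (Nat.dvd_one.1 h4)
    apply h1 p (mem_p0.2 ⟨hle, hp, hw⟩) d hd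
    rw [add_zero]
    exact hdvd
  · intro h1 p hp d hd hdvd
    obtain ⟨h2, h3, h4⟩ := mem_p0.1 hp
    rw [add_zero] at hdvd
    have := h1 d hd p h3 hdvd
    omega

/-- the sum of the gaps -/
lemma gap_one (P : ℕ → Prop) [DecidablePred P] (N X : ℕ) :
    ∑ x ∈ consec ((Ioc N (N + X)).filter P), ((x.2 - x.1 : ℕ) : ℝ) ≤ X := by
  have h6 : ∑ x ∈ consec ((Ioc N (N + X)).filter P), (x.2 - x.1) ≤ X := by
    have h7 : ∑ x ∈ consec ((Ioc N (N + X)).filter P), (x.2 - x.1) =
        ((consec ((Ioc N (N + X)).filter P)).biUnion (fun x => Ico x.1 x.2)).card := by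
      rw [card_biUnion]
      · apply sum_congr rfl
        intro x _
        rw [Nat.card_Ico]
      · intro x hx y hy hxy
        rw [Function.onFun, disjoint_left]
        intro n hn hn'
        rw [mem_Ico] at hn hn'
        exact hxy (consec_unique hx hy n hn hn')
    rw [h7]
    calc _ ≤ (Ioc N (N + X)).card := by
          apply card_le_card
          intro n hn
          rw [mem_biUnion] at hn
          obtain ⟨x, hx, hn⟩ := hn
          obtain ⟨⟨a1, a2⟩, _, _⟩ := mem_consec.1 hx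
          have hx1 := mem_Ioc.1 (mem_filter.1 a1).1
          have hx2 := mem_Ioc.1 (mem_filter.1 a2).1
          rw [mem_Ico] at hn
          rw [mem_Ioc]
          omega
      _ = X := by rw [Nat.card_Ioc]; omega
  exact_mod_cast h6

open Classical in
/-- tuples in progressions -/
theorem tupM (κ : ℕ) (hκ : 1 ≤ κ) (ε : ℝ) (hε : 0 < ε) (hε1 : ε ≤ 1 / 2) (A : ℕ) :
    ∃ (c C : ℝ), 0 < c ∧ c ≤ 1 / 2 ∧ 0 < C ∧ ∀ᶠ Y : ℕ in atTop,
    (∀ (N w : ℕ) (D : Finset ℕ), 1 ≤ w → w ≤ Y ^ A → D.card = κ → (∀ d ∈ D, d ≤ Y ^ A) →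
      (∀ d ∈ D, Nat.Coprime d w) → Adm D w →
      (∀ lam : ℝ, 1 ≤ lam →
      (((Ioc N (N + Y)).filter (fun n => ∃ T : ℕ, lam ≤ T * VK D w ⌊(Y : ℝ) ^ c⌋₊ ∧
        ¬ |(((Icc 1 T).filter (fun h => ∀ d ∈ D, Pool.Agent.H36.RW.Rough ⌊(Y : ℝ) ^ c⌋₊ (w * (n + h) + d))).card : ℝ) -
          T * VK D w ⌊(Y : ℝ) ^ c⌋₊| ≤ ε * (T * VK D w ⌊(Y : ℝ) ^ c⌋₊))).card : ℝ) ≤ C * (Y / lam ^ A)) ∧
      (∀ m : ℕ, 1 ≤ m → m + 1 ≤ A →
        ∑ x ∈ consec ((Ioc N (N + Y)).filter (fun n => ∀ d ∈ D, Pool.Agent.H36.RW.Rough ⌊(Y : ℝ) ^ c⌋₊ (w * n + d))),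
        ((x.2 - x.1 : ℕ) : ℝ) ^ (m + 1) ≤ C * (Y / VK D w ⌊(Y : ℝ) ^ c⌋₊ ^ m))) ∧
    (∀ (K m : ℕ), 0 < m → m ≤ Y ^ K → Pool.Agent.H36.RW.Rough ⌊(Y : ℝ) ^ c⌋₊ m →
      m.primeFactorsList.length ≤ ⌈2 * (K : ℝ) / c⌉₊) := by
  obtain ⟨c, C, hc, hc2, hC, h⟩ := allM κ hκ ε hε hε1 A (A + 1) (by
    have : (0 : ℝ) ≤ A := Nat.cast_nonneg A
    linarith)
  refine ⟨c, C, hc, hc2, hC, ?_⟩
  have hLt : Tendsto (fun Y : ℕ => Real.log (Y : ℝ)) atTop atTop :=
    Real.tendsto_log_atTop.comp tendsto_natCast_atTop_atTop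
  filter_upwards [hLt.eventually h, hLt.eventually_ge_atTop 1, hLt.eventually (ev_pow_exp 3 (c / 2) (by positivity) 0),
    eventually_ge_atTop 3] with Y h1 hL1 g5 hY3
  rw [pow_zero, mul_one] at g5
  have hY0 : (0 : ℝ) < Y := by exact_mod_cast (by omega : 0 < Y)
  have hYr : Real.exp (Real.log Y) = Y := Real.exp_log hY0
  rw [zfl Y c (by omega)]
  set L := Real.log (Y : ℝ) with hL
  have hL0 : 0 < L := by linarith
  constructor
  · intro N w D hw1 hw hDκ hD hco hA
    have hpow : ∀ x : ℕ, x ≤ Y ^ A → (x : ℝ) ≤ Real.exp ((A + 1) * L) := by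
      intro x hx
      have h2 : (x : ℝ) ≤ (Y : ℝ) ^ A := by exact_mod_cast hx
      have h3 : (Y : ℝ) ^ A = Real.exp (A * L) := by
        rw [Real.exp_nat_mul, hYr]
      rw [h3] at h2
      refine h2.trans (Real.exp_le_exp.2 ?_)
      apply mul_le_mul_of_nonneg_right _ hL0.le
      linarith
    obtain ⟨h2, h3⟩ := h1 Y hYr.le w D hDκ hw1 hA (hpow w hw) (fun d hd => hpow d (hD d hd)) 0 N
    constructor
    · intro lam hlam
      refine le_trans ?_ (h2 lam hlam)
      apply Nat.cast_le.2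
      apply card_le_card
      intro n hn
      rw [mem_filter] at hn ⊢
      obtain ⟨hn1, T, hT1, hT2⟩ := hn
      refine ⟨hn1, T, hT1, ?_⟩
      unfold BadK
      have e2 : ((Icc 1 T).filter (fun h => ∀ d ∈ D, Pool.Agent.H36.RW.Rough (zE c L) (w * (n + h) + d))).card =
          RK D w (zE c L) (w * n + 0) T := by
        rw [add_zero, RK_rough D w (zE c L) n T hco]
        congr
      rw [e2] at hT2
      exact lt_of_not_ge hT2
    · intro m hm hmA
      have hS : (Ioc N (N + Y)).filter (fun n => ∀ d ∈ D, Pool.Agent.H36.RW.Rough (zE c L) (w * n + d)) =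
          (Ioc N (N + Y)).filter (Sur D w 0 (zE c L)) := by
        apply filter_congr
        intro n _
        exact (Sur_rough D w (zE c L) n hco).symm
      rw [hS]
      exact h3 m hm hmA
  · intro K m hm0 hmK hr
    have hlog1 : c * L / 2 ≤ Real.log (zE c L) := log_floor_ge (c * L) (by
      have : c / 2 * L = c * L / 2 := by ring
      rw [this] at g5
      exact g5)
    have hlog0 : 0 < Real.log (zE c L) := lt_of_lt_of_le (by positivity) hlog1
    have hz2 : 2 ≤ zE c L := by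
      by_contra h1
      push Not at h1
      have h2 : zE c L = 0 ∨ zE c L = 1 := by omega
      rcases h2 with h2 | h2 <;> rw [h2] at hlog0 <;> simp at hlog0
    have h3 := rough_length (zE c L) m hz2 hm0 hr
    have h4 : Real.log m ≤ K * L := by
      have h8 : (m : ℝ) ≤ (Y : ℝ) ^ K := by exact_mod_cast hmK
      have h9 := Real.log_le_log (by exact_mod_cast hm0) h8
      rwa [Real.log_pow] at h9
    have h6 : (m.primeFactorsList.length : ℝ) ≤ 2 * (K : ℝ) / c := by
      rw [le_div_iff₀ hc]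
      set len : ℝ := (m.primeFactorsList.length : ℝ) with hlen
      have hlen0 : 0 ≤ len := Nat.cast_nonneg _
      have h7 : len * (c * L / 2) ≤ len * Real.log (zE c L) := mul_le_mul_of_nonneg_left hlog1 hlen0
      have h9 : len * c * L ≤ (2 * K) * L := by
        calc len * c * L = 2 * (len * (c * L / 2)) := by ring
          _ ≤ 2 * (K * L) := by linarith
          _ = _ := by ring
      exact le_of_mul_le_mul_right h9 hL0
    exact_mod_cast h6.trans (Nat.le_ceil _)

end Pool.Agent.H36.LH
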